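import Pool.Agent.helper82.DP.SigmaDef

/-!
# A busy beaver function and its iterates
-/

namespace Pool.Agent.helper82.DP

open Nat.Partrec (Code)
open Encodable Denumerable

/-- Code `c` halts on input `x` within `z` steps. -/
def Hb (c x z : ℕ) : Prop := (Code.evaln z (ofNat Code c) x).isSome = true

theorem Hb_mono {c x z z' : ℕ} (h : z ≤ z') (hz : Hb c x z) : Hb c x z' := by
  unfold Hb at *
  rw [Option.isSome_iff_exists] at *
  obtain ⟨y, hy⟩ := hz
  exact ⟨y, Code.evaln_mono h hy⟩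

theorem primrec_Hb : PrimrecPred fun p : ℕ × (ℕ × ℕ) => Hb p.1 p.2.1 p.2.2 := by
  have h1 : Primrec fun p : ℕ × (ℕ × ℕ) => Code.evaln p.2.2 (ofNat Code p.1) p.2.1 :=
    Code.primrec_evaln.comp (Primrec.pair (Primrec.pair (Primrec.snd.comp Primrec.snd)
      ((Primrec.ofNat Code).comp Primrec.fst)) (Primrec.fst.comp Primrec.snd))
  have h2 : Primrec fun p : ℕ × (ℕ × ℕ) =>
      (Code.evaln p.2.2 (ofNat Code p.1) p.2.1).isSome :=
    Primrec.option_isSome.comp h1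
  have h3 : PrimrecPred fun p : ℕ × (ℕ × ℕ) =>
      (Code.evaln p.2.2 (ofNat Code p.1) p.2.1).isSome = true :=
    (Primrec.eq (α := Bool)).comp h2 (Primrec.const true)
  exact h3

/-- `v` bounds the running time of all halting computations with code and input `≤ u`. -/
def Bprop (u v : ℕ) : Prop :=
  ∀ c, c < u + 1 → ∀ x, x < u + 1 → (∃ z, Hb c x z) → Hb c x v

theorem exists_Bprop (u : ℕ) : ∃ v, (u + 2) * (u + 2) ≤ v ∧ Bprop u v := by
  classical
  have h : ∀ c x, ∃ z, (∃ z', Hb c x z') → Hb c x z := by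
    intro c x
    by_cases h : ∃ z', Hb c x z'
    · exact ⟨h.choose, fun _ => h.choose_spec⟩
    · exact ⟨0, fun h' => absurd h' h⟩
  choose f hf using h
  refine ⟨max ((u + 2) * (u + 2))
    ((Finset.range (u + 1)).sup fun c => (Finset.range (u + 1)).sup fun x => f c x),
    le_max_left _ _, fun c hc x hx hz => ?_⟩
  refine Hb_mono ?_ (hf c x hz)
  refine le_trans ?_ (le_max_right _ _)
  refine le_trans ?_ (Finset.le_sup (f := fun c => (Finset.range (u + 1)).sup fun x => f c x)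
    (Finset.mem_range.2 hc))
  exact Finset.le_sup (f := fun x => f c x) (Finset.mem_range.2 hx)

open Classical in
/-- The busy beaver function. -/
noncomputable def B (u : ℕ) : ℕ := Nat.find (exists_Bprop u)

theorem B_ge (u : ℕ) : (u + 2) * (u + 2) ≤ B u := by
  classical
  exact (Nat.find_spec (exists_Bprop u)).1

theorem B_prop (u : ℕ) : Bprop u (B u) := by
  classical
  exact (Nat.find_spec (exists_Bprop u)).2

theorem B_le {u v : ℕ} (h1 : (u + 2) * (u + 2) ≤ v) (h2 : Bprop u v) : B u ≤ v := by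
  classical
  exact Nat.find_min' (exists_Bprop u) ⟨h1, h2⟩

theorem B_mono {u u' : ℕ} (h : u ≤ u') : B u ≤ B u' := by
  refine B_le ?_ ?_
  · refine le_trans ?_ (B_ge u')
    exact Nat.mul_le_mul (by omega) (by omega)
  · intro c hc x hx hz
    exact B_prop u' c (by omega) x (by omega) hz

theorem lt_B (u : ℕ) : u < B u := by
  have := B_ge u
  nlinarith

/-- Primitive recursive part of the graph of `B`. -/
def Dgr (u v : ℕ) : Prop :=
  (u + 2) * (u + 2) ≤ v ∧ ∀ v', v' < v → ((u + 2) * (u + 2) ≤ v' →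
    ∃ c, c < u + 1 ∧ ∃ x, x < u + 1 ∧ (Hb c x v ∧ ¬ Hb c x v'))

theorem B_eq_iff (u v : ℕ) : B u = v ↔ Dgr u v ∧
    ∀ z, ∀ c, c < u + 1 → ∀ x, x < u + 1 → (Hb c x z → Hb c x v) := by
  constructor
  · rintro rfl
    refine ⟨⟨B_ge u, fun v' hv' h => ?_⟩, fun z c hc x hx hz => B_prop u c hc x hx ⟨z, hz⟩⟩
    by_contra hcon
    push Not at hcon
    have h2 : Bprop u v' := by
      intro c hc x hx hz
      exact hcon c hc x hx (B_prop u c hc x hx hz)
    exact absurd (B_le h h2) (by omega)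
  · rintro ⟨⟨h1, h2⟩, h3⟩
    have h4 : B u ≤ v := B_le h1 fun c hc x hx ⟨z, hz⟩ => h3 z c hc x hx hz
    by_contra hne
    have h5 : B u < v := lt_of_le_of_ne h4 hne
    obtain ⟨c, hc, x, hx, h6, h7⟩ := h2 _ h5 (B_ge u)
    exact h7 (B_prop u c hc x hx ⟨v, h6⟩)

/-- A witness `z` for `B u ≠ v`. -/
def nBr (u v z : ℕ) : Prop :=
  ¬ Dgr u v ∨ ∃ c, c < u + 1 ∧ ∃ x, x < u + 1 ∧ (Hb c x z ∧ ¬ Hb c x v)

theorem B_ne_iff (u v : ℕ) : B u ≠ v ↔ ∃ z, nBr u v z := by
  rw [Ne, B_eq_iff]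
  unfold nBr
  constructor
  · intro h
    by_cases hD : Dgr u v
    · have : ¬ ∀ z, ∀ c, c < u + 1 → ∀ x, x < u + 1 → (Hb c x z → Hb c x v) :=
        fun h' => h ⟨hD, h'⟩
      push Not at this
      obtain ⟨z, c, hc, x, hx, h1, h2⟩ := this
      exact ⟨z, Or.inr ⟨c, hc, x, hx, h1, h2⟩⟩
    · exact ⟨0, Or.inl hD⟩
  · rintro ⟨z, h | ⟨c, hc, x, hx, h1, h2⟩⟩ ⟨h3, h4⟩
    · exact h h3
    · exact h2 (h4 z c hc x hx h1)

theorem primrec_Dgr : PrimrecPred fun p : ℕ × ℕ => Dgr p.1 p.2 := by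
  have hsq : Primrec fun u : ℕ => (u + 2) * (u + 2) :=
    Primrec.nat_mul.comp (Primrec.nat_add.comp Primrec.id (Primrec.const 2))
      (Primrec.nat_add.comp Primrec.id (Primrec.const 2))
  -- variables: (x, (c, (v', (u, v))))
  have h1 : PrimrecPred fun p : ℕ × (ℕ × (ℕ × (ℕ × ℕ))) =>
      (Hb p.2.1 p.1 p.2.2.2.2 ∧ ¬ Hb p.2.1 p.1 p.2.2.1) := by
    have a : Primrec fun p : ℕ × (ℕ × (ℕ × (ℕ × ℕ))) => (p.2.1, (p.1, p.2.2.2.2)) :=
      Primrec.pair (Primrec.fst.comp Primrec.snd) (Primrec.pair Primrec.fst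
        (Primrec.snd.comp (Primrec.snd.comp (Primrec.snd.comp Primrec.snd))))
    have b : Primrec fun p : ℕ × (ℕ × (ℕ × (ℕ × ℕ))) => (p.2.1, (p.1, p.2.2.1)) :=
      Primrec.pair (Primrec.fst.comp Primrec.snd) (Primrec.pair Primrec.fst
        (Primrec.fst.comp (Primrec.snd.comp Primrec.snd)))
    exact (primrec_Hb.comp a).and (primrec_Hb.comp b).not
  have h2 : PrimrecPred fun p : ℕ × (ℕ × (ℕ × ℕ)) =>
      ∃ x, x < p.2.2.1 + 1 ∧ (Hb p.1 x p.2.2.2 ∧ ¬ Hb p.1 x p.2.1) :=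
    PrimrecPred.bex (Primrec.succ.comp (Primrec.fst.comp (Primrec.snd.comp Primrec.snd))) h1
  have h3 : PrimrecPred fun p : ℕ × (ℕ × ℕ) =>
      ∃ c, c < p.2.1 + 1 ∧ ∃ x, x < p.2.1 + 1 ∧ (Hb c x p.2.2 ∧ ¬ Hb c x p.1) :=
    PrimrecPred.bex (Primrec.succ.comp (Primrec.fst.comp Primrec.snd)) h2
  have h4 : PrimrecPred fun p : ℕ × (ℕ × ℕ) => (p.2.1 + 2) * (p.2.1 + 2) ≤ p.1 :=
    Primrec.nat_le.comp (hsq.comp (Primrec.fst.comp Primrec.snd)) Primrec.fst
  have h5 : PrimrecPred fun p : ℕ × (ℕ × ℕ) => ((p.2.1 + 2) * (p.2.1 + 2) ≤ p.1 →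
      ∃ c, c < p.2.1 + 1 ∧ ∃ x, x < p.2.1 + 1 ∧ (Hb c x p.2.2 ∧ ¬ Hb c x p.1)) :=
    (h4.not.or h3).of_eq fun p => by tauto
  have h6 : PrimrecPred fun p : ℕ × ℕ => ∀ v', v' < p.2 → ((p.1 + 2) * (p.1 + 2) ≤ v' →
      ∃ c, c < p.1 + 1 ∧ ∃ x, x < p.1 + 1 ∧ (Hb c x p.2 ∧ ¬ Hb c x v')) :=
    PrimrecPred.ball Primrec.snd h5
  exact (Primrec.nat_le.comp (hsq.comp Primrec.fst) Primrec.snd).and h6

theorem primrec_nBr : PrimrecPred fun p : ℕ × (ℕ × ℕ) => nBr p.1 p.2.1 p.2.2 := by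
  have h1 : PrimrecPred fun p : ℕ × (ℕ × (ℕ × (ℕ × ℕ))) =>
      (Hb p.2.1 p.1 p.2.2.2.2 ∧ ¬ Hb p.2.1 p.1 p.2.2.2.1) := by
    have a : Primrec fun p : ℕ × (ℕ × (ℕ × (ℕ × ℕ))) => (p.2.1, (p.1, p.2.2.2.2)) :=
      Primrec.pair (Primrec.fst.comp Primrec.snd) (Primrec.pair Primrec.fst
        (Primrec.snd.comp (Primrec.snd.comp (Primrec.snd.comp Primrec.snd))))
    have b : Primrec fun p : ℕ × (ℕ × (ℕ × (ℕ × ℕ))) => (p.2.1, (p.1, p.2.2.2.1)) :=
      Primrec.pair (Primrec.fst.comp Primrec.snd) (Primrec.pair Primrec.fst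
        (Primrec.fst.comp (Primrec.snd.comp (Primrec.snd.comp Primrec.snd))))
    exact (primrec_Hb.comp a).and (primrec_Hb.comp b).not
  have h2 : PrimrecPred fun p : ℕ × (ℕ × (ℕ × ℕ)) =>
      ∃ x, x < p.2.1 + 1 ∧ (Hb p.1 x p.2.2.2 ∧ ¬ Hb p.1 x p.2.2.1) :=
    PrimrecPred.bex (Primrec.succ.comp (Primrec.fst.comp Primrec.snd)) h1
  have h3 : PrimrecPred fun p : ℕ × (ℕ × ℕ) =>
      ∃ c, c < p.1 + 1 ∧ ∃ x, x < p.1 + 1 ∧ (Hb c x p.2.2 ∧ ¬ Hb c x p.2.1) :=
    PrimrecPred.bex (Primrec.succ.comp Primrec.fst) h2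
  exact (primrec_Dgr.comp (Primrec.pair Primrec.fst
    (Primrec.fst.comp Primrec.snd))).not.or h3

/-- Domination: least witnesses of primitive recursive relations are bounded by `B`. -/
theorem dom_primrec {r : ℕ × ℕ → Prop} (hr : PrimrecPred r) :
    ∃ c₀ : ℕ, ∀ a, c₀ ≤ a → ∀ x, (∃ z, r (x, z)) → ∃ z, z ≤ B (max a x) ∧ r (x, z) := by
  classical
  let f : ℕ →. ℕ := fun x => Nat.rfind fun z => Part.some (decide (r (x, z)))
  have hf : Partrec f := Partrec.rfind (PrimrecPred.computablePred hr).decide.partrec.to₂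
  obtain ⟨c, hc⟩ := Code.exists_code.1 (Partrec.nat_iff.1 hf)
  refine ⟨encode (Code.comp Code.id c), fun a ha x hx => ?_⟩
  have hdom : ∃ z, z ∈ f x := by
    obtain ⟨z, hz⟩ := hx
    obtain ⟨z', hz', _⟩ := Nat.rfind_min' (p := fun z => decide (r (x, z))) (m := z)
      (by simpa using hz)
    exact ⟨z', hz'⟩
  obtain ⟨z, hz⟩ := hdom
  have hz1 : r (x, z) := by
    have := Nat.rfind_spec hz
    simpa using this
  have hz2 : z ∈ (Code.comp Code.id c).eval x := by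
    simp only [Code.eval, hc]
    exact Part.mem_bind hz (by rw [Code.eval_id]; exact Part.mem_some z)
  obtain ⟨k, hk⟩ := Code.evaln_complete.1 hz2
  have hH : Hb (encode (Code.comp Code.id c)) x (B (max a x)) := by
    refine B_prop (max a x) _ ?_ x ?_ ⟨k, ?_⟩
    · have : a ≤ max a x := le_max_left _ _
      omega
    · have : x ≤ max a x := le_max_right _ _
      omega
    · unfold Hb
      rw [ofNat_encode, Option.isSome_iff_exists]
      exact ⟨z, hk⟩
  unfold Hb at hH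
  rw [ofNat_encode, Option.isSome_iff_exists] at hH
  obtain ⟨y, hy⟩ := hH
  have hyz : y = z := Part.mem_unique (Code.evaln_sound hy) hz2
  subst hyz
  refine ⟨y, ?_, hz1⟩
  -- unfold one step of `evaln`
  set K := B (max a x) with hK
  cases K' : K with
  | zero => rw [K'] at hy; simp [Code.evaln] at hy
  | succ k' =>
    rw [K'] at hy
    simp only [Code.evaln, Option.bind_eq_bind, Option.bind_eq_some_iff] at hy
    obtain ⟨_, _, y', hy', hy2⟩ := hy
    have h3 := Code.evaln_sound hy2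
    rw [Code.eval_id] at h3
    have h4 : y = y' := by simpa using h3
    have h5 := Code.evaln_bound hy2
    omega

/-! ### Iterates -/

/-- The iterates of `B` starting from `a`. -/
noncomputable def FF (a n : ℕ) : ℕ := B^[n] a

theorem FF_zero (a : ℕ) : FF a 0 = a := rfl

theorem FF_succ (a n : ℕ) : FF a (n + 1) = B (FF a n) := by
  unfold FF
  rw [Function.iterate_succ_apply']

theorem FF_strictMono (a : ℕ) : StrictMono (FF a) :=
  strictMono_nat_of_lt_succ fun n => by rw [FF_succ]; exact lt_B _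

theorem FF_mono (a : ℕ) {m n : ℕ} (h : m ≤ n) : FF a m ≤ FF a n :=
  (FF_strictMono a).monotone h

theorem le_FF (a n : ℕ) : a ≤ FF a n := FF_mono a (Nat.zero_le n)

theorem le_FF' (a n : ℕ) : n ≤ FF a n := (FF_strictMono a).le_apply

/-- `U` codes the list of the first `m + 1` iterates. -/
def Fs (a U m : ℕ) : Prop := ofNat (List ℕ) U = (List.range (m + 1)).map (FF a)

/-- A witness `z` for the negation of `Fs a U m`. -/
def nFs (a U m z : ℕ) : Prop :=
  (ofNat (List ℕ) U).length ≠ m + 1 ∨ (ofNat (List ℕ) U).getD 0 0 ≠ a ∨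
    ∃ i, i < m ∧ nBr ((ofNat (List ℕ) U).getD i 0) ((ofNat (List ℕ) U).getD (i + 1) 0) z

theorem not_Fs_iff (a U m : ℕ) : ¬ Fs a U m ↔ ∃ z, nFs a U m z := by
  unfold Fs nFs
  set L := ofNat (List ℕ) U
  constructor
  · intro h
    by_cases h1 : L.length = m + 1
    · by_cases h2 : L.getD 0 0 = a
      · by_contra hcon
        push Not at hcon
        apply h
        have h3 : ∀ i, i < m → B (L.getD i 0) = L.getD (i + 1) 0 := by
          intro i hi
          by_contra hne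
          obtain ⟨z, hz⟩ := (B_ne_iff _ _).1 hne
          exact (hcon z).2.2 i hi hz
        have h4 : ∀ i, i ≤ m → L.getD i 0 = FF a i := by
          intro i
          induction i with
          | zero => intro _; rw [h2, FF_zero]
          | succ i ih => intro hi; rw [← h3 i (by omega), ih (by omega), FF_succ]
        refine List.ext_getElem (by simpa using h1) fun i hi1 hi2 => ?_
        have := h4 i (by omega)
        rw [List.getD_eq_getElem _ _ hi1] at this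
        simpa using this
      · exact ⟨0, Or.inr (Or.inl h2)⟩
    · exact ⟨0, Or.inl h1⟩
  · rintro ⟨z, h⟩ hL
    rw [hL] at h
    rcases h with h | h | ⟨i, hi, h⟩
    · simp at h
    · simp [List.getD, FF_zero] at h
    · have e1 : ((List.range (m + 1)).map (FF a)).getD i 0 = FF a i := by
        rw [List.getD_eq_getElem _ _ (by simp; omega)]
        simp
      have e2 : ((List.range (m + 1)).map (FF a)).getD (i + 1) 0 = FF a (i + 1) := by
        rw [List.getD_eq_getElem _ _ (by simp; omega)]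
        simp
      rw [e1, e2] at h
      exact (B_ne_iff _ _).2 ⟨z, h⟩ (FF_succ a i).symm

theorem primrec_nFs :
    PrimrecPred fun p : ℕ × (ℕ × (ℕ × ℕ)) => nFs p.1 p.2.1 p.2.2.1 p.2.2.2 := by
  have hL : Primrec fun p : ℕ × (ℕ × (ℕ × ℕ)) => ofNat (List ℕ) p.2.1 :=
    (Primrec.ofNat (List ℕ)).comp (Primrec.fst.comp Primrec.snd)
  have hm : Primrec fun p : ℕ × (ℕ × (ℕ × ℕ)) => p.2.2.1 :=
    Primrec.fst.comp (Primrec.snd.comp Primrec.snd)
  have h1 : PrimrecPred fun p : ℕ × (ℕ × (ℕ × ℕ)) =>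
      (ofNat (List ℕ) p.2.1).length = p.2.2.1 + 1 :=
    Primrec.eq.comp (Primrec.list_length.comp hL) (Primrec.succ.comp hm)
  have h2 : PrimrecPred fun p : ℕ × (ℕ × (ℕ × ℕ)) =>
      (ofNat (List ℕ) p.2.1).getD 0 0 = p.1 :=
    Primrec.eq.comp ((Primrec.list_getD 0).comp hL (Primrec.const 0)) Primrec.fst
  have hi : Primrec fun q : ℕ × (ℕ × (ℕ × (ℕ × ℕ))) => q.1 := Primrec.fst
  have hL' : Primrec fun q : ℕ × (ℕ × (ℕ × (ℕ × ℕ))) => ofNat (List ℕ) q.2.2.1 :=
    hL.comp Primrec.snd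
  have h3 : PrimrecPred fun q : ℕ × (ℕ × (ℕ × (ℕ × ℕ))) =>
      nBr ((ofNat (List ℕ) q.2.2.1).getD q.1 0)
        ((ofNat (List ℕ) q.2.2.1).getD (q.1 + 1) 0) q.2.2.2.2 :=
    primrec_nBr.comp (Primrec.pair ((Primrec.list_getD 0).comp hL' hi)
      (Primrec.pair ((Primrec.list_getD 0).comp hL' (Primrec.succ.comp hi))
        (Primrec.snd.comp (Primrec.snd.comp (Primrec.snd.comp Primrec.snd)))))
  exact h1.not.or (h2.not.or (PrimrecPred.bex hm h3))

end Pool.Agent.helper82.DP
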