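import Pool.Agent.helper82.DP.Defs

/-!
# Closure properties of the definability classes
-/

set_option linter.unusedSectionVars false

namespace Pool.Agent.helper82.DP

section

variable {M : Type} [CommSemiring M] [LinearOrder M]

theorem IsTerm.subst {n m : ℕ} {t : (Fin n → M) → M} (ht : IsTerm t)
    (τ : Fin n → (Fin m → M) → M) (hτ : ∀ i, IsTerm (τ i)) :
    IsTerm fun v => t fun i => τ i v := by
  induction ht with
  | const c => exact IsTerm.const c
  | var i => exact hτ i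
  | add _ _ ih1 ih2 => exact IsTerm.add ih1 ih2
  | mul _ _ ih1 ih2 => exact IsTerm.mul ih1 ih2

/-- Lifting of a substitution under a quantifier. -/
def liftSub {n m : ℕ} (τ : Fin n → (Fin m → M) → M) : Fin (n + 1) → (Fin (m + 1) → M) → M :=
  Fin.cons (fun w => w 0) fun i w => τ i (Fin.tail w)

theorem liftSub_term {n m : ℕ} (τ : Fin n → (Fin m → M) → M) (hτ : ∀ i, IsTerm (τ i))
    (i : Fin (n + 1)) : IsTerm (liftSub τ i) := by
  refine Fin.cases ?_ (fun i => ?_) i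
  · exact IsTerm.var 0
  · have := (hτ i).subst (fun (j : Fin m) (w : Fin (m + 1) → M) => w j.succ)
      (fun j => IsTerm.var _)
    exact this

theorem liftSub_cons {n m : ℕ} (τ : Fin n → (Fin m → M) → M) (x : M) (v : Fin m → M) :
    (fun i => liftSub τ i (Fin.cons x v)) = (Fin.cons x fun i => τ i v : Fin (n + 1) → M) := by
  funext i
  refine Fin.cases ?_ (fun i => ?_) i
  · simp [liftSub]
  · simp [liftSub]

theorem Delta0.congr {P : Set (Set M)} {n : ℕ} {R S : (Fin n → M) → Prop} (hR : Delta0 P R)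
    (h : ∀ v, S v ↔ R v) : Delta0 P S := by
  have : S = R := funext fun v => propext (h v)
  rwa [this]

theorem Delta0.subst {P : Set (Set M)} {n : ℕ} {R : (Fin n → M) → Prop} (hR : Delta0 P R) :
    ∀ {m : ℕ} (τ : Fin n → (Fin m → M) → M), (∀ i, IsTerm (τ i)) →
      Delta0 P fun v : Fin m → M => R fun i => τ i v := by
  induction hR with
  | eq hs ht => intro m τ hτ; exact Delta0.eq (hs.subst τ hτ) (ht.subst τ hτ)
  | lt hs ht => intro m τ hτ; exact Delta0.lt (hs.subst τ hτ) (ht.subst τ hτ)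
  | mem ht hX => intro m τ hτ; exact Delta0.mem (ht.subst τ hτ) hX
  | not _ ih => intro m τ hτ; exact Delta0.not (ih τ hτ)
  | and _ _ ih1 ih2 => intro m τ hτ; exact Delta0.and (ih1 τ hτ) (ih2 τ hτ)
  | bex ht _ ih =>
    intro m τ hτ
    have h1 := Delta0.bex (ht.subst τ hτ) (ih (liftSub τ) (liftSub_term τ hτ))
    refine h1.congr fun v => ?_
    simp only [liftSub_cons]

theorem Delta0.mono {P Q : Set (Set M)} (hPQ : P ⊆ Q) {n : ℕ} {R : (Fin n → M) → Prop}
    (hR : Delta0 P R) : Delta0 Q R := by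
  induction hR with
  | eq hs ht => exact Delta0.eq hs ht
  | lt hs ht => exact Delta0.lt hs ht
  | mem ht hX => exact Delta0.mem ht (hPQ hX)
  | not _ ih => exact Delta0.not ih
  | and _ _ ih1 ih2 => exact Delta0.and ih1 ih2
  | bex ht _ ih => exact Delta0.bex ht ih

theorem Delta0.or {P : Set (Set M)} {n : ℕ} {R S : (Fin n → M) → Prop} (hR : Delta0 P R)
    (hS : Delta0 P S) : Delta0 P fun v => R v ∨ S v :=
  (Delta0.not (Delta0.and (Delta0.not hR) (Delta0.not hS))).congr fun v => by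
    tauto

theorem Delta0.ball {P : Set (Set M)} {n : ℕ} {t : (Fin n → M) → M}
    {R : (Fin (n + 1) → M) → Prop} (ht : IsTerm t) (hR : Delta0 P R) :
    Delta0 P fun v => ∀ x, x < t v → R (Fin.cons x v) :=
  (Delta0.not (Delta0.bex ht (Delta0.not hR))).congr fun v => by
    push Not
    rfl

theorem Delta0.const {P : Set (Set M)} {n : ℕ} (p : Prop) :
    Delta0 P fun _ : Fin n → M => p := by
  by_cases hp : p
  · exact (Delta0.eq (IsTerm.const 0) (IsTerm.const 0)).congr fun v => by simp [hp]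
  · exact (Delta0.not (Delta0.eq (IsTerm.const 0) (IsTerm.const 0))).congr fun v => by simp [hp]

theorem Sigma1.congr {P : Set (Set M)} {n : ℕ} {R S : (Fin n → M) → Prop} (hR : Sigma1 P R)
    (h : ∀ v, S v ↔ R v) : Sigma1 P S := by
  have : S = R := funext fun v => propext (h v)
  rwa [this]

theorem Pi1.congr {P : Set (Set M)} {n : ℕ} {R S : (Fin n → M) → Prop} (hR : Pi1 P R)
    (h : ∀ v, S v ↔ R v) : Pi1 P S := by
  have : S = R := funext fun v => propext (h v)
  rwa [this]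

theorem Sigma2.congr {P : Set (Set M)} {n : ℕ} {R S : (Fin n → M) → Prop} (hR : Sigma2 P R)
    (h : ∀ v, S v ↔ R v) : Sigma2 P S := by
  have : S = R := funext fun v => propext (h v)
  rwa [this]

theorem Sigma1.mono {P Q : Set (Set M)} (hPQ : P ⊆ Q) {n : ℕ} {R : (Fin n → M) → Prop}
    (hR : Sigma1 P R) : Sigma1 Q R := by
  obtain ⟨S, hS, h⟩ := hR
  exact ⟨S, hS.mono hPQ, h⟩

theorem Pi1.mono {P Q : Set (Set M)} (hPQ : P ⊆ Q) {n : ℕ} {R : (Fin n → M) → Prop}
    (hR : Pi1 P R) : Pi1 Q R := by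
  obtain ⟨S, hS, h⟩ := hR
  exact ⟨S, hS.mono hPQ, h⟩

theorem Sigma2.mono {P Q : Set (Set M)} (hPQ : P ⊆ Q) {n : ℕ} {R : (Fin n → M) → Prop}
    (hR : Sigma2 P R) : Sigma2 Q R := by
  obtain ⟨S, hS, h⟩ := hR
  exact ⟨S, hS.mono hPQ, h⟩

theorem Sigma1.subst {P : Set (Set M)} {n : ℕ} {R : (Fin n → M) → Prop} (hR : Sigma1 P R)
    {m : ℕ} (τ : Fin n → (Fin m → M) → M) (hτ : ∀ i, IsTerm (τ i)) :
    Sigma1 P fun v : Fin m → M => R fun i => τ i v := by
  obtain ⟨Q, hQ, h⟩ := hR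
  refine ⟨_, hQ.subst (liftSub τ) (liftSub_term τ hτ), fun v => ?_⟩
  simp only [h, liftSub_cons]

theorem Pi1.subst {P : Set (Set M)} {n : ℕ} {R : (Fin n → M) → Prop} (hR : Pi1 P R)
    {m : ℕ} (τ : Fin n → (Fin m → M) → M) (hτ : ∀ i, IsTerm (τ i)) :
    Pi1 P fun v : Fin m → M => R fun i => τ i v := by
  obtain ⟨Q, hQ, h⟩ := hR
  refine ⟨_, hQ.subst (liftSub τ) (liftSub_term τ hτ), fun v => ?_⟩
  simp only [h, liftSub_cons]

theorem Sigma1.not {P : Set (Set M)} {n : ℕ} {R : (Fin n → M) → Prop} (hR : Sigma1 P R) :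
    Pi1 P fun v => ¬ R v := by
  obtain ⟨Q, hQ, h⟩ := hR
  exact ⟨_, hQ.not, fun v => by simp [h]⟩

theorem Pi1.not {P : Set (Set M)} {n : ℕ} {R : (Fin n → M) → Prop} (hR : Pi1 P R) :
    Sigma1 P fun v => ¬ R v := by
  obtain ⟨Q, hQ, h⟩ := hR
  exact ⟨_, hQ.not, fun v => by simp [h]⟩

/-- Substitution dropping the first variable. -/
theorem Delta0.tail {P : Set (Set M)} {n : ℕ} {R : (Fin n → M) → Prop} (hR : Delta0 P R) :
    Delta0 P fun v : Fin (n + 1) → M => R (Fin.tail v) :=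
  hR.subst (fun i (v : Fin (n + 1) → M) => v i.succ) fun _ => IsTerm.var _

theorem Delta0.sigma1 {P : Set (Set M)} {n : ℕ} {R : (Fin n → M) → Prop} (hR : Delta0 P R) :
    Sigma1 P R :=
  ⟨_, hR.tail, fun v => by simp⟩

theorem Delta0.pi1 {P : Set (Set M)} {n : ℕ} {R : (Fin n → M) → Prop} (hR : Delta0 P R) :
    Pi1 P R :=
  ⟨_, hR.tail, fun v => by simp⟩

/-- Swap the first two variables, and insert a new variable in between or in front. -/
theorem Delta0.ins {P : Set (Set M)} {n : ℕ} {Q : (Fin (n + 1) → M) → Prop} (hQ : Delta0 P Q) :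
    Delta0 P fun v : Fin (n + 2) → M => Q (Fin.cons (v 0) fun i => v i.succ.succ) := by
  have h := hQ.subst (Fin.cons (fun w : Fin (n + 2) → M => w 0)
    (fun (i : Fin n) (w : Fin (n + 2) → M) => w i.succ.succ)) (fun i => by
      refine Fin.cases ?_ (fun i => ?_) i
      · exact IsTerm.var 0
      · exact IsTerm.var _)
  refine h.congr fun v => ?_
  have : (Fin.cons (v 0) fun i => v i.succ.succ : Fin (n + 1) → M) =
      fun i => (Fin.cons (fun w : Fin (n + 2) → M => w 0)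
        (fun (i : Fin n) (w : Fin (n + 2) → M) => w i.succ.succ) :
          Fin (n + 1) → (Fin (n + 2) → M) → M) i v := by
    funext i
    refine Fin.cases ?_ (fun i => ?_) i <;> simp
  rw [this]

theorem Delta0.swap {P : Set (Set M)} {n : ℕ} {Q : (Fin (n + 2) → M) → Prop}
    (hQ : Delta0 P Q) :
    Delta0 P fun v : Fin (n + 2) → M =>
      Q (Fin.cons (v 1) (Fin.cons (v 0) fun i => v i.succ.succ)) := by
  have h := hQ.subst (Fin.cons (fun w : Fin (n + 2) → M => w 1)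
    (Fin.cons (fun w : Fin (n + 2) → M => w 0)
    (fun (i : Fin n) (w : Fin (n + 2) → M) => w i.succ.succ))) (fun i => by
      refine Fin.cases ?_ (fun i => ?_) i
      · exact IsTerm.var 1
      · refine Fin.cases ?_ (fun i => ?_) i
        · exact IsTerm.var 0
        · exact IsTerm.var _)
  refine h.congr fun v => ?_
  have : (Fin.cons (v 1) (Fin.cons (v 0) fun i => v i.succ.succ) : Fin (n + 2) → M) =
      fun i => (Fin.cons (fun w : Fin (n + 2) → M => w 1)
        (Fin.cons (fun w : Fin (n + 2) → M => w 0)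
          (fun (i : Fin n) (w : Fin (n + 2) → M) => w i.succ.succ)) :
          Fin (n + 2) → (Fin (n + 2) → M) → M) i v := by
    funext i
    refine Fin.cases ?_ (fun i => ?_) i
    · simp
    · refine Fin.cases ?_ (fun i => ?_) i <;> simp
  rw [this]

/-- Insert a variable after the first two. -/
theorem Delta0.ins2 {P : Set (Set M)} {n : ℕ} {Q : (Fin (n + 2) → M) → Prop} (hQ : Delta0 P Q) :
    Delta0 P fun v : Fin (n + 3) → M =>
      Q (Fin.cons (v 0) (Fin.cons (v 1) fun i => v i.succ.succ.succ)) := by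
  have h := hQ.subst (Fin.cons (fun w : Fin (n + 3) → M => w 0)
    (Fin.cons (fun w : Fin (n + 3) → M => w 1)
    (fun (i : Fin n) (w : Fin (n + 3) → M) => w i.succ.succ.succ))) (fun i => by
      refine Fin.cases ?_ (fun i => ?_) i
      · exact IsTerm.var 0
      · refine Fin.cases ?_ (fun i => ?_) i
        · exact IsTerm.var 1
        · exact IsTerm.var _)
  refine h.congr fun v => ?_
  have : (Fin.cons (v 0) (Fin.cons (v 1) fun i => v i.succ.succ.succ) : Fin (n + 2) → M) =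
      fun i => (Fin.cons (fun w : Fin (n + 3) → M => w 0)
        (Fin.cons (fun w : Fin (n + 3) → M => w 1)
          (fun (i : Fin n) (w : Fin (n + 3) → M) => w i.succ.succ.succ)) :
          Fin (n + 2) → (Fin (n + 3) → M) → M) i v := by
    funext i
    refine Fin.cases ?_ (fun i => ?_) i
    · simp
    · refine Fin.cases ?_ (fun i => ?_) i <;> simp
  rw [this]

variable (hlt : ∀ x y : M, x < y + 1 ↔ x ≤ y)

include hlt

/-- Two unbounded existential quantifiers can be merged. -/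
theorem Sigma1.ex {P : Set (Set M)} {n : ℕ} {R : (Fin (n + 1) → M) → Prop} (hR : Sigma1 P R) :
    Sigma1 P fun v => ∃ x, R (Fin.cons x v) := by
  obtain ⟨Q, hQ, h⟩ := hR
  -- ∃ z, ∃ x < z+1, ∃ y < z+1, Q (y, x, v)
  refine ⟨_, Delta0.bex (t := fun v : Fin (n + 1) → M => v 0 + 1)
    (IsTerm.add (IsTerm.var 0) (IsTerm.const 1))
    (Delta0.bex (t := fun v : Fin (n + 2) → M => v 1 + 1)
      (IsTerm.add (IsTerm.var 1) (IsTerm.const 1)) hQ.ins2), fun v => ?_⟩
  constructor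
  · rintro ⟨x, hx⟩
    rw [h] at hx
    obtain ⟨y, hy⟩ := hx
    refine ⟨max x y, x, ?_, y, ?_, ?_⟩
    · simp [hlt]
    · have : (Fin.cons x (Fin.cons (max x y) v) : Fin (n + 2) → M) 1 = max x y := rfl
      rw [this]; simp [hlt]
    · exact hy
  · rintro ⟨z, x, _, y, _, hq⟩
    refine ⟨x, ?_⟩
    rw [h]
    exact ⟨y, hq⟩

theorem Pi1.all {P : Set (Set M)} {n : ℕ} {R : (Fin (n + 1) → M) → Prop} (hR : Pi1 P R) :
    Pi1 P fun v => ∀ x, R (Fin.cons x v) := by
  have h := (Sigma1.ex hlt hR.not).not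
  refine h.congr fun v => ?_
  push Not
  rfl

theorem Sigma1.and {P : Set (Set M)} {n : ℕ} {R S : (Fin n → M) → Prop} (hR : Sigma1 P R)
    (hS : Sigma1 P S) : Sigma1 P fun v => R v ∧ S v := by
  obtain ⟨Q, hQ, h⟩ := hR
  obtain ⟨Q', hQ', h'⟩ := hS
  refine ⟨_, Delta0.and (Delta0.bex (t := fun v : Fin (n + 1) → M => v 0 + 1)
    (IsTerm.add (IsTerm.var 0) (IsTerm.const 1)) hQ.ins)
    (Delta0.bex (t := fun v : Fin (n + 1) → M => v 0 + 1)
    (IsTerm.add (IsTerm.var 0) (IsTerm.const 1)) hQ'.ins), fun v => ?_⟩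
  show (R v ∧ S v) ↔ _
  rw [h, h']
  constructor
  · rintro ⟨⟨x, hx⟩, ⟨y, hy⟩⟩
    refine ⟨max x y, ⟨x, ?_, hx⟩, ⟨y, ?_, hy⟩⟩
    · simp [hlt]
    · simp [hlt]
  · rintro ⟨z, ⟨x, _, hx⟩, ⟨y, _, hy⟩⟩
    exact ⟨⟨x, hx⟩, ⟨y, hy⟩⟩

theorem Sigma1.or {P : Set (Set M)} {n : ℕ} {R S : (Fin n → M) → Prop} (hR : Sigma1 P R)
    (hS : Sigma1 P S) : Sigma1 P fun v => R v ∨ S v := by
  obtain ⟨Q, hQ, h⟩ := hR
  obtain ⟨Q', hQ', h'⟩ := hS
  refine ⟨_, hQ.or hQ', fun v => ?_⟩
  show (R v ∨ S v) ↔ _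
  rw [h, h', exists_or]

theorem Pi1.and {P : Set (Set M)} {n : ℕ} {R S : (Fin n → M) → Prop} (hR : Pi1 P R)
    (hS : Pi1 P S) : Pi1 P fun v => R v ∧ S v := by
  have h := (Sigma1.or hlt hR.not hS.not).not
  refine h.congr fun v => ?_
  tauto

theorem Pi1.or {P : Set (Set M)} {n : ℕ} {R S : (Fin n → M) → Prop} (hR : Pi1 P R)
    (hS : Pi1 P S) : Pi1 P fun v => R v ∨ S v := by
  have h := (Sigma1.and hlt hR.not hS.not).not
  refine h.congr fun v => ?_
  tauto

theorem Sigma1.bex {P : Set (Set M)} {n : ℕ} {t : (Fin n → M) → M}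
    {R : (Fin (n + 1) → M) → Prop} (ht : IsTerm t) (hR : Sigma1 P R) :
    Sigma1 P fun v => ∃ x, x < t v ∧ R (Fin.cons x v) := by
  have h1 : Delta0 P fun v : Fin (n + 1) → M => v 0 < t (Fin.tail v) :=
    Delta0.lt (IsTerm.var 0)
      (ht.subst (fun i (v : Fin (n + 1) → M) => v i.succ) fun _ => IsTerm.var _)
  exact (Sigma1.ex hlt (Sigma1.and hlt h1.sigma1 hR)).congr fun v => by simp

theorem Pi1.ball {P : Set (Set M)} {n : ℕ} {t : (Fin n → M) → M}
    {R : (Fin (n + 1) → M) → Prop} (ht : IsTerm t) (hR : Pi1 P R) :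
    Pi1 P fun v => ∀ x, x < t v → R (Fin.cons x v) := by
  have h := (Sigma1.bex hlt ht hR.not).not
  refine h.congr fun v => ?_
  push Not
  rfl

/-- Collection for `Σ⁰₂` relations gives closure of `Σ⁰₁` under bounded universal
quantification. -/
theorem Sigma1.ball {P : Set (Set M)} (hB : BSigma2 P) {n : ℕ} {t : (Fin n → M) → M}
    {R : (Fin (n + 1) → M) → Prop} (ht : IsTerm t) (hR : Sigma1 P R) :
    Sigma1 P fun v => ∀ x, x < t v → R (Fin.cons x v) := by
  obtain ⟨Q, hQ, h⟩ := hR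
  -- ∃ z, ∀ x < t v, ∃ y < z, Q (y, x, v)
  refine ⟨_, Delta0.ball (t := fun v : Fin (n + 1) → M => t (Fin.tail v))
    (ht.subst (fun i (v : Fin (n + 1) → M) => v i.succ) fun _ => IsTerm.var _)
    (Delta0.bex (t := fun v : Fin (n + 2) → M => v 1)
      (IsTerm.var 1) hQ.ins2), fun v => ?_⟩
  constructor
  · intro hv
    -- apply collection to the relation `Q (y, x, v)` with `v` as parameters
    have hR' : Delta0 P fun w : Fin 2 → M => Q (Fin.cons (w 1) (Fin.cons (w 0) v)) := by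
      have h1 := hQ.subst (Fin.cons (fun w : Fin 2 → M => w 1)
        (Fin.cons (fun w : Fin 2 → M => w 0)
        (fun (i : Fin n) (_ : Fin 2 → M) => v i))) (fun i => by
          refine Fin.cases ?_ (fun i => ?_) i
          · exact IsTerm.var 1
          · refine Fin.cases ?_ (fun i => ?_) i
            · exact IsTerm.var 0
            · exact IsTerm.const _)
      refine h1.congr fun w => ?_
      have : (Fin.cons (w 1) (Fin.cons (w 0) v) : Fin (n + 2) → M) =
          fun i => (Fin.cons (fun w : Fin 2 → M => w 1)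
            (Fin.cons (fun w : Fin 2 → M => w 0)
              (fun (i : Fin n) (_ : Fin 2 → M) => v i)) :
              Fin (n + 2) → (Fin 2 → M) → M) i w := by
        funext i
        refine Fin.cases ?_ (fun i => ?_) i
        · simp
        · refine Fin.cases ?_ (fun i => ?_) i <;> simp
      rw [this]
    have hS2 : Sigma2 P fun w : Fin 2 → M => Q (Fin.cons (w 1) (Fin.cons (w 0) v)) := by
      refine ⟨_, (hR'.tail).pi1, fun w => by simp⟩
    obtain ⟨c, hc⟩ := hB _ hS2 (t v) (fun x hx => by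
      obtain ⟨y, hy⟩ := (h _).1 (hv x hx)
      exact ⟨y, by simpa using hy⟩)
    refine ⟨c, fun x hx => ?_⟩
    obtain ⟨y, hyc, hy⟩ := hc x (by simpa using hx)
    refine ⟨y, by simpa using hyc, ?_⟩
    simpa using hy
  · rintro ⟨z, hz⟩ x hx
    obtain ⟨y, _, hy⟩ := hz x (by simpa using hx)
    exact (h _).2 ⟨y, by simpa using hy⟩

theorem Pi1.bex {P : Set (Set M)} (hB : BSigma2 P) {n : ℕ} {t : (Fin n → M) → M}
    {R : (Fin (n + 1) → M) → Prop} (ht : IsTerm t) (hR : Pi1 P R) :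
    Pi1 P fun v => ∃ x, x < t v ∧ R (Fin.cons x v) := by
  have h := (Sigma1.ball hlt hB ht hR.not).not
  refine h.congr fun v => ?_
  push Not
  rfl

/-- Bounded formulas with `Δ⁰₁(P)` set parameters are `Δ⁰₁(P)`. -/
theorem Delta0.delta1 {P : Set (Set M)} (hB : BSigma2 P) {n : ℕ} {R : (Fin n → M) → Prop}
    (hR : Delta0 {X | IsDelta1 P X} R) : Sigma1 P R ∧ Pi1 P R := by
  induction hR with
  | eq hs ht => exact ⟨(Delta0.eq hs ht).sigma1, (Delta0.eq hs ht).pi1⟩
  | lt hs ht => exact ⟨(Delta0.lt hs ht).sigma1, (Delta0.lt hs ht).pi1⟩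
  | @mem n t X ht hX =>
    obtain ⟨h1, h2⟩ := hX
    exact ⟨h1.subst (fun _ => t) fun _ => ht, h2.subst (fun _ => t) fun _ => ht⟩
  | not _ ih => exact ⟨ih.2.not, ih.1.not⟩
  | and _ _ ih1 ih2 => exact ⟨Sigma1.and hlt ih1.1 ih2.1, Pi1.and hlt ih1.2 ih2.2⟩
  | bex ht _ ih => exact ⟨Sigma1.bex hlt ht ih.1, Pi1.bex hlt hB ht ih.2⟩

theorem Sigma1.of_delta1 {P : Set (Set M)} (hB : BSigma2 P) {n : ℕ} {R : (Fin n → M) → Prop}
    (hR : Sigma1 {X | IsDelta1 P X} R) : Sigma1 P R := by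
  obtain ⟨Q, hQ, h⟩ := hR
  exact (Sigma1.ex hlt (hQ.delta1 hlt hB).1).congr h

theorem Pi1.of_delta1 {P : Set (Set M)} (hB : BSigma2 P) {n : ℕ} {R : (Fin n → M) → Prop}
    (hR : Pi1 {X | IsDelta1 P X} R) : Pi1 P R := by
  obtain ⟨Q, hQ, h⟩ := hR
  exact (Pi1.all hlt (hQ.delta1 hlt hB).2).congr h

theorem Sigma2.of_delta1 {P : Set (Set M)} (hB : BSigma2 P) {n : ℕ} {R : (Fin n → M) → Prop}
    (hR : Sigma2 {X | IsDelta1 P X} R) : Sigma2 P R := by
  obtain ⟨Q, hQ, h⟩ := hR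
  exact ⟨Q, Pi1.of_delta1 hlt hB hQ, h⟩

theorem BSigma2.delta1 {P : Set (Set M)} (hB : BSigma2 P) : BSigma2 {X | IsDelta1 P X} :=
  fun R hR => hB R (Sigma2.of_delta1 hlt hB hR)

theorem ISigma1.delta1 {P : Set (Set M)} (hB : BSigma2 P) (hI : ISigma1 P) :
    ISigma1 {X | IsDelta1 P X} :=
  fun R hR => hI R (Sigma1.of_delta1 hlt hB hR)

theorem IsDelta1.of_delta1 {P : Set (Set M)} (hB : BSigma2 P) {X : Set M}
    (hX : IsDelta1 {X | IsDelta1 P X} X) : IsDelta1 P X :=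
  ⟨Sigma1.of_delta1 hlt hB hX.1, Pi1.of_delta1 hlt hB hX.2⟩

end

end Pool.Agent.helper82.DP
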