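import Pool.Agent.helper82.DP.Random

/-!
# The cut `M` in an ultrapower of `ℕ`
-/

set_option linter.unusedSectionVars false

namespace Pool.Agent.helper82.DP

open Filter Encodable Denumerable

/-- For almost all `i`, with respect to a nonprincipal ultrafilter on `ℕ`. -/
def AE (p : ℕ → Prop) : Prop := ∀ᶠ i in (hyperfilter ℕ : Filter ℕ), p i

theorem AE.mono {p q : ℕ → Prop} (hp : AE p) (h : ∀ i, p i → q i) : AE q :=
  Filter.Eventually.mono hp h

theorem AE.and {p q : ℕ → Prop} (hp : AE p) (hq : AE q) : AE fun i => p i ∧ q i :=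
  Filter.Eventually.and hp hq

theorem AE.mp {p q : ℕ → Prop} (hp : AE p) (h : AE fun i => p i → q i) : AE q :=
  Filter.Eventually.mp hp h

theorem AE_not {p : ℕ → Prop} : AE (fun i => ¬ p i) ↔ ¬ AE p := Ultrafilter.eventually_not

theorem AE_of_all {p : ℕ → Prop} (h : ∀ i, p i) : AE p := Filter.Eventually.of_forall h

theorem AE_and {p q : ℕ → Prop} : AE (fun i => p i ∧ q i) ↔ AE p ∧ AE q :=
  Filter.eventually_and

theorem AE_congr {p q : ℕ → Prop} (h : AE fun i => p i ↔ q i) : AE p ↔ AE q :=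
  Filter.eventually_congr h

theorem AE_const {p : Prop} : AE (fun _ => p) ↔ p := by
  unfold AE
  rw [Filter.eventually_const]

theorem AE_ge (n : ℕ) : AE fun i => n ≤ i := by
  have h1 : (hyperfilter ℕ : Filter ℕ) ≤ Filter.cofinite := hyperfilter_le_cofinite
  have h2 : ∀ᶠ i in Filter.cofinite, n ≤ i := by
    rw [Nat.cofinite_eq_atTop]
    exact Filter.eventually_ge_atTop n
  exact h1 h2

theorem AE.exists {p : ℕ → Prop} (h : AE p) : ∃ i, p i := Filter.Eventually.exists h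

theorem AE_ball {p : ℕ → ℕ → Prop} (n : ℕ) :
    (AE fun i => ∀ k, k < n → p k i) ↔ ∀ k, k < n → AE (p k) := by
  induction n with
  | zero => simp [AE_of_all]
  | succ n ih =>
    have : (AE fun i => ∀ k, k < n + 1 → p k i) ↔
        AE fun i => (∀ k, k < n → p k i) ∧ p n i := by
      refine AE_congr (AE_of_all fun i => ?_)
      constructor
      · intro h; exact ⟨fun k hk => h k (by omega), h n (by omega)⟩
      · rintro ⟨h1, h2⟩ k hk
        rcases Nat.lt_succ_iff_lt_or_eq.1 hk with h | rfl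
        · exact h1 k h
        · exact h2
    rw [this, AE_and, ih]
    constructor
    · rintro ⟨h1, h2⟩ k hk
      rcases Nat.lt_succ_iff_lt_or_eq.1 hk with h | rfl
      · exact h1 k h
      · exact h2
    · intro h; exact ⟨fun k hk => h k (by omega), h n (by omega)⟩

/-- Saturation. -/
theorem saturation {X : Type} [Inhabited X] (Ξ : ℕ → ℕ → X → Prop)
    (h : ∀ n, AE fun i => ∃ y, ∀ s, s ≤ n → Ξ s i y) :
    ∃ y : ℕ → X, ∀ s, AE fun i => Ξ s i (y i) := by
  classical
  -- for each `i`, choose `y` good for the largest possible `n ≤ i`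
  have hc : ∀ i, ∃ y : X, ∀ n, n ≤ i → (∃ y', ∀ s, s ≤ n → Ξ s i y') → ∀ s, s ≤ n → Ξ s i y := by
    intro i
    by_cases hex : ∃ n, n ≤ i ∧ ∃ y', ∀ s, s ≤ n → Ξ s i y'
    · let S : Finset ℕ := (Finset.range (i + 1)).filter fun n => ∃ y', ∀ s, s ≤ n → Ξ s i y'
      have hS : S.Nonempty := by
        obtain ⟨n, hn, hy⟩ := hex
        exact ⟨n, Finset.mem_filter.2 ⟨Finset.mem_range.2 (by omega), hy⟩⟩
      obtain ⟨y, hy⟩ := (Finset.mem_filter.1 (S.max'_mem hS)).2
      refine ⟨y, fun n hn hy' s hs => hy s ?_⟩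
      have : n ≤ S.max' hS := S.le_max' n (Finset.mem_filter.2 ⟨Finset.mem_range.2 (by omega), hy'⟩)
      omega
    · exact ⟨default, fun n hn hy' => absurd ⟨n, hn, hy'⟩ hex⟩
  choose y hy using hc
  refine ⟨y, fun s => ?_⟩
  refine ((h s).and (AE_ge s)).mono fun i hi => ?_
  exact hy i s hi.2 hi.1 s le_rfl

/-! ### Bounded sequences and the model -/

/-- A sequence represents an element of the cut. -/
def Bdd (f : ℕ → ℕ) : Prop := ∃ k, AE fun i => f i ≤ FF i k

theorem Bdd.of_le {f g : ℕ → ℕ} (hg : Bdd g) (h : AE fun i => f i ≤ g i) : Bdd f := by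
  obtain ⟨k, hk⟩ := hg
  exact ⟨k, (h.and hk).mono fun i hi => le_trans hi.1 hi.2⟩

theorem Bdd.max {f g : ℕ → ℕ} (hf : Bdd f) (hg : Bdd g) : Bdd fun i => Max.max (f i) (g i) := by
  obtain ⟨k, hk⟩ := hf
  obtain ⟨l, hl⟩ := hg
  refine ⟨Max.max k l, (hk.and hl).mono fun i hi => max_le ?_ ?_⟩
  · exact le_trans hi.1 (FF_mono i (le_max_left k l))
  · exact le_trans hi.2 (FF_mono i (le_max_right k l))

theorem Bdd.B {f : ℕ → ℕ} (hf : Bdd f) : Bdd fun i => B (f i) := by
  obtain ⟨k, hk⟩ := hf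
  refine ⟨k + 1, hk.mono fun i hi => ?_⟩
  rw [FF_succ]
  exact B_mono hi

theorem Bdd.id : Bdd fun i => i := ⟨0, AE_of_all fun _ => le_rfl⟩

theorem Bdd.const (c : ℕ) : Bdd fun _ => c := ⟨0, (AE_ge c).mono fun _ hi => hi⟩

theorem Bdd.FF (k : ℕ) : Bdd fun i => FF i k := ⟨k, AE_of_all fun _ => le_rfl⟩

theorem Bdd.add {f g : ℕ → ℕ} (hf : Bdd f) (hg : Bdd g) : Bdd fun i => f i + g i := by
  refine (hf.max hg).B.of_le (AE_of_all fun i => ?_)
  have := B_ge (Max.max (f i) (g i))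
  have h1 : f i ≤ Max.max (f i) (g i) := le_max_left _ _
  have h2 : g i ≤ Max.max (f i) (g i) := le_max_right _ _
  show f i + g i ≤ DP.B (Max.max (f i) (g i))
  nlinarith

theorem Bdd.mul {f g : ℕ → ℕ} (hf : Bdd f) (hg : Bdd g) : Bdd fun i => f i * g i := by
  refine (hf.max hg).B.of_le (AE_of_all fun i => ?_)
  have := B_ge (Max.max (f i) (g i))
  have h1 : f i ≤ Max.max (f i) (g i) := le_max_left _ _
  have h2 : g i ≤ Max.max (f i) (g i) := le_max_right _ _
  show f i * g i ≤ DP.B (Max.max (f i) (g i))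
  have h3 : f i * g i ≤ Max.max (f i) (g i) * Max.max (f i) (g i) := Nat.mul_le_mul h1 h2
  nlinarith

theorem Bdd.pair {f g : ℕ → ℕ} (hf : Bdd f) (hg : Bdd g) : Bdd fun i => Nat.pair (f i) (g i) := by
  refine (hf.max hg).B.of_le (AE_of_all fun i => ?_)
  have h0 := B_ge (Max.max (f i) (g i))
  have h1 := Nat.pair_lt_max_add_one_sq (f i) (g i)
  show Nat.pair (f i) (g i) ≤ DP.B (Max.max (f i) (g i))
  have h2 : ∀ m : ℕ, (m + 1) ^ 2 ≤ (m + 2) * (m + 2) := fun m => by
    rw [pow_two]; exact Nat.mul_le_mul (by omega) (by omega)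
  replace h2 := h2 (Max.max (f i) (g i))
  exact le_trans h1.le (le_trans h2 h0)

/-- Codes of fixed-length lists of bounded sequences are bounded. -/
theorem Bdd.list (L : List (ℕ → ℕ)) (hL : ∀ f ∈ L, Bdd f) :
    Bdd fun i => encode (L.map fun f => f i) := by
  induction L with
  | nil => exact Bdd.const _
  | cons f L ih =>
    have h1 : Bdd f := hL f (by simp)
    have h2 := ih fun g hg => hL g (by simp [hg])
    refine ((h1.pair h2).add (Bdd.const 1)).of_le (AE_of_all fun i => ?_)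
    simp [Encodable.encode_list_cons]

/-- The nonstandard numbers. -/
abbrev NS : Type := Germ (hyperfilter ℕ : Filter ℕ) ℕ

/-- The cut, as a subsemiring of the nonstandard numbers. -/
noncomputable def MS : Subsemiring NS where
  carrier := {x | ∃ f : ℕ → ℕ, (f : NS) = x ∧ Bdd f}
  mul_mem' := by
    rintro _ _ ⟨f, rfl, hf⟩ ⟨g, rfl, hg⟩
    exact ⟨fun i => f i * g i, rfl, hf.mul hg⟩
  one_mem' := ⟨fun _ => 1, rfl, Bdd.const 1⟩
  add_mem' := by
    rintro _ _ ⟨f, rfl, hf⟩ ⟨g, rfl, hg⟩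
    exact ⟨fun i => f i + g i, rfl, hf.add hg⟩
  zero_mem' := ⟨fun _ => 0, rfl, Bdd.const 0⟩

/-- The model. -/
abbrev MM : Type := MS

/-- A representative of an element of the model. -/
noncomputable def rep (x : MM) : ℕ → ℕ := Classical.choose x.2

theorem rep_spec (x : MM) : ((rep x : ℕ → ℕ) : NS) = x.1 := (Classical.choose_spec x.2).1

theorem rep_bdd (x : MM) : Bdd (rep x) := (Classical.choose_spec x.2).2

/-- The element of the model given by a bounded sequence. -/
noncomputable def mk (f : ℕ → ℕ) (hf : Bdd f) : MM := ⟨(f : NS), f, rfl, hf⟩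

theorem rep_mk (f : ℕ → ℕ) (hf : Bdd f) : AE fun i => rep (mk f hf) i = f i :=
  Germ.coe_eq.1 (rep_spec (mk f hf))

theorem mk_eq_iff {f g : ℕ → ℕ} {hf : Bdd f} {hg : Bdd g} :
    mk f hf = mk g hg ↔ AE fun i => f i = g i := by
  constructor
  · intro h
    exact Germ.coe_eq.1 (congrArg Subtype.val h)
  · intro h
    exact Subtype.ext (Germ.coe_eq.2 h)

theorem mk_rep (x : MM) : mk (rep x) (rep_bdd x) = x := Subtype.ext (rep_spec x)

theorem MM_eq_iff {x y : MM} : x = y ↔ AE fun i => rep x i = rep y i := by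
  conv_lhs => rw [← mk_rep x, ← mk_rep y]
  exact mk_eq_iff

theorem MM_lt_iff {x y : MM} : x < y ↔ AE fun i => rep x i < rep y i := by
  have : x < y ↔ x.1 < y.1 := Iff.rfl
  rw [this, ← rep_spec x, ← rep_spec y]
  exact Germ.coe_lt

theorem MM_le_iff {x y : MM} : x ≤ y ↔ AE fun i => rep x i ≤ rep y i := by
  have : x ≤ y ↔ x.1 ≤ y.1 := Iff.rfl
  rw [this, ← rep_spec x, ← rep_spec y]
  exact Germ.coe_le

theorem rep_add (x y : MM) : AE fun i => rep (x + y) i = rep x i + rep y i := by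
  have h : ((rep (x + y) : ℕ → ℕ) : NS) = ((fun i => rep x i + rep y i : ℕ → ℕ) : NS) := by
    rw [rep_spec]
    show x.1 + y.1 = _
    rw [← rep_spec x, ← rep_spec y]
    rfl
  exact Germ.coe_eq.1 h

theorem rep_mul (x y : MM) : AE fun i => rep (x * y) i = rep x i * rep y i := by
  have h : ((rep (x * y) : ℕ → ℕ) : NS) = ((fun i => rep x i * rep y i : ℕ → ℕ) : NS) := by
    rw [rep_spec]
    show x.1 * y.1 = _
    rw [← rep_spec x, ← rep_spec y]
    rfl
  exact Germ.coe_eq.1 h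

theorem rep_zero : AE fun i => rep (0 : MM) i = 0 :=
  Germ.coe_eq.1 (rep_spec (0 : MM))

theorem rep_one : AE fun i => rep (1 : MM) i = 1 :=
  Germ.coe_eq.1 (rep_spec (1 : MM))

theorem rep_cast (c : ℕ) : AE fun i => rep (c : MM) i = c := by
  induction c with
  | zero => simpa using rep_zero
  | succ c ih =>
    have h := (rep_add (c : MM) 1).and (ih.and rep_one)
    refine h.mono fun i hi => ?_
    rw [Nat.cast_succ, hi.1, hi.2.1, hi.2.2]

theorem MM_lt_succ (x y : MM) : x < y + 1 ↔ x ≤ y := by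
  rw [MM_lt_iff, MM_le_iff]
  refine AE_congr (((rep_add y 1).and rep_one).mono fun i hi => ?_)
  rw [hi.1, hi.2]
  omega

theorem MM_nonneg (x : MM) : 0 ≤ x := by
  rw [MM_le_iff]
  exact rep_zero.mono fun i hi => by rw [hi]; exact Nat.zero_le _

theorem MM_sub (x y : MM) (h : x ≤ y) : ∃ z, x + z = y := by
  rw [MM_le_iff] at h
  have hb : Bdd fun i => rep y i - rep x i :=
    (rep_bdd y).of_le (AE_of_all fun i => Nat.sub_le _ _)
  refine ⟨mk _ hb, ?_⟩
  rw [MM_eq_iff]
  refine (h.and ((rep_add x (mk _ hb)).and (rep_mk _ hb))).mono fun i hi => ?_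
  rw [hi.2.1, hi.2.2]
  have := hi.1
  omega

theorem MM_discrete (x : MM) (h : 0 < x) : 1 ≤ x := by
  rw [MM_lt_iff] at h
  rw [MM_le_iff]
  refine (h.and (rep_zero.and rep_one)).mono fun i hi => ?_
  have := hi.1
  rw [hi.2.1] at this
  rw [hi.2.2]
  omega

theorem exists_of_lt {x : MM} {f : ℕ → ℕ} (h : AE fun i => f i ≤ rep x i) : Bdd f :=
  (rep_bdd x).of_le h

end Pool.Agent.helper82.DP
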