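import Mathlib

/-!
# Second-order arithmetic over a discretely ordered semiring: definitions

`M` is the first-order part, a set `P : Set (Set M)` of subsets of `M` is either the
second-order part or a set of allowed set parameters.  Definability classes are given
semantically, as classes of relations `R : (Fin n → M) → Prop`, generated by the formation
rules of the formulas.
-/

namespace Pool.Agent.helper82.DP

section

variable {M : Type} [CommSemiring M] [LinearOrder M]

/-- Terms of the language of arithmetic with number parameters from `M`, as functions of the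
values of the free variables. -/
inductive IsTerm {n : ℕ} : ((Fin n → M) → M) → Prop
  | const (c : M) : IsTerm fun _ => c
  | var (i : Fin n) : IsTerm fun v => v i
  | add {s t : (Fin n → M) → M} : IsTerm s → IsTerm t → IsTerm fun v => s v + t v
  | mul {s t : (Fin n → M) → M} : IsTerm s → IsTerm t → IsTerm fun v => s v * t v

/-- `Delta0 P R`: the relation `R` on `M` is defined by a bounded-quantifier formula with number
parameters from `M` and set parameters from `P`. -/
inductive Delta0 (P : Set (Set M)) : {n : ℕ} → ((Fin n → M) → Prop) → Prop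
  | eq {n : ℕ} {s t : (Fin n → M) → M} :
      IsTerm s → IsTerm t → Delta0 P fun v => s v = t v
  | lt {n : ℕ} {s t : (Fin n → M) → M} :
      IsTerm s → IsTerm t → Delta0 P fun v => s v < t v
  | mem {n : ℕ} {t : (Fin n → M) → M} {X : Set M} :
      IsTerm t → X ∈ P → Delta0 P fun v => t v ∈ X
  | not {n : ℕ} {R : (Fin n → M) → Prop} :
      Delta0 P R → Delta0 P fun v => ¬ R v
  | and {n : ℕ} {R S : (Fin n → M) → Prop} :
      Delta0 P R → Delta0 P S → Delta0 P fun v => R v ∧ S v
  | bex {n : ℕ} {t : (Fin n → M) → M} {R : (Fin (n + 1) → M) → Prop} :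
      IsTerm t → Delta0 P R → Delta0 P fun v => ∃ x, x < t v ∧ R (Fin.cons x v)

/-- `R` is `Σ⁰₁`-definable with number parameters from `M` and set parameters from `P`. -/
def Sigma1 (P : Set (Set M)) {n : ℕ} (R : (Fin n → M) → Prop) : Prop :=
  ∃ Q : (Fin (n + 1) → M) → Prop, Delta0 P Q ∧ ∀ v, R v ↔ ∃ x, Q (Fin.cons x v)

/-- `R` is `Π⁰₁`-definable with number parameters from `M` and set parameters from `P`. -/
def Pi1 (P : Set (Set M)) {n : ℕ} (R : (Fin n → M) → Prop) : Prop :=
  ∃ Q : (Fin (n + 1) → M) → Prop, Delta0 P Q ∧ ∀ v, R v ↔ ∀ x, Q (Fin.cons x v)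

/-- `R` is `Σ⁰₂`-definable with number parameters from `M` and set parameters from `P`. -/
def Sigma2 (P : Set (Set M)) {n : ℕ} (R : (Fin n → M) → Prop) : Prop :=
  ∃ Q : (Fin (n + 1) → M) → Prop, Pi1 P Q ∧ ∀ v, R v ↔ ∃ x, Q (Fin.cons x v)

/-- The set `X` is `Σ⁰₁`-definable over `M` with set parameters from `P`. -/
def IsSigma1 (P : Set (Set M)) (X : Set M) : Prop :=
  Sigma1 P fun v : Fin 1 → M => v 0 ∈ X

/-- The set `X` is `Δ⁰₁`-definable over `M` with set parameters from `P`. -/
def IsDelta1 (P : Set (Set M)) (X : Set M) : Prop :=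
  (Sigma1 P fun v : Fin 1 → M => v 0 ∈ X) ∧ Pi1 P fun v : Fin 1 → M => v 0 ∈ X

/-- `Arithmetical R`: the relation `R` on `M` is defined by a formula of first-order arithmetic
(no set variables) with number parameters from `M`. -/
inductive Arithmetical : {n : ℕ} → ((Fin n → M) → Prop) → Prop
  | eq {n : ℕ} {s t : (Fin n → M) → M} :
      IsTerm s → IsTerm t → Arithmetical fun v => s v = t v
  | lt {n : ℕ} {s t : (Fin n → M) → M} :
      IsTerm s → IsTerm t → Arithmetical fun v => s v < t v
  | not {n : ℕ} {R : (Fin n → M) → Prop} :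
      Arithmetical R → Arithmetical fun v => ¬ R v
  | and {n : ℕ} {R S : (Fin n → M) → Prop} :
      Arithmetical R → Arithmetical S → Arithmetical fun v => R v ∧ S v
  | ex {n : ℕ} {R : (Fin (n + 1) → M) → Prop} :
      Arithmetical R → Arithmetical fun v => ∃ x, R (Fin.cons x v)

/-- The function `h` on `M` is first-order definable over `M` with parameters from `M`. -/
def DefinableFun (h : M → M) : Prop :=
  Arithmetical fun v : Fin 2 → M => h (v 0) = v 1

/-- `Σ⁰₂` collection in the structure `(M, S)`. -/
def BSigma2 (S : Set (Set M)) : Prop :=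
  ∀ R : (Fin 2 → M) → Prop, Sigma2 S R → ∀ b : M,
    (∀ x, x < b → ∃ y, R ![x, y]) → ∃ c, ∀ x, x < b → ∃ y, y < c ∧ R ![x, y]

/-- `Σ⁰₁` induction in the structure `(M, S)`. -/
def ISigma1 (S : Set (Set M)) : Prop :=
  ∀ R : (Fin 1 → M) → Prop, Sigma1 S R → R ![0] → (∀ x, R ![x] → R ![x + 1]) → ∀ x, R ![x]

/-- `Σ⁰₂` induction in the structure `(M, S)`. -/
def ISigma2 (S : Set (Set M)) : Prop :=
  ∀ R : (Fin 1 → M) → Prop, Sigma2 S R → R ![0] → (∀ x, R ![x] → R ![x + 1]) → ∀ x, R ![x]

/-- `(M, S)` is a model of `RCA₀`: together with the ambient axioms of an ordered commutative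
semiring, the first three clauses say that `M` is the nonnegative part of a discretely ordered
ring; then `Σ⁰₁` induction and `Δ⁰₁` comprehension. -/
def RCA0 (S : Set (Set M)) : Prop :=
  (∀ x : M, 0 ≤ x) ∧ (∀ x y : M, x ≤ y → ∃ z, x + z = y) ∧ (∀ x : M, 0 < x → 1 ≤ x) ∧
    ISigma1 S ∧ ∀ X : Set M, IsDelta1 S X → X ∈ S

/-- The graph of a function `g : M → M`, coded as a subset of `M` through the pairing
`(x, y) ↦ (x + y) ^ 2 + x`. -/
def graph (g : M → M) : Set M :=
  {z | ∃ x, z = (x + g x) * (x + g x) + x}

/-- The second-order part of `M[g]`, for `M = (M, S)`: the sets which are `Δ⁰₁`-definable over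
`M` from `g` together with parameters in `S`. -/
def adjoin (S : Set (Set M)) (g : M → M) : Set (Set M) :=
  {X | IsDelta1 (insert (graph g) S) X}

/-- `x` is the `i`-th entry of the sequence coded by `(u, v)` through Gödel's `β`-function:
the remainder of `u` modulo `(i + 1) * v + 1`. -/
def IsEntry (u v i x : M) : Prop :=
  x < (i + 1) * v + 1 ∧ ∃ q, u = q * ((i + 1) * v + 1) + x

variable (M) in
/-- An `M`-finite sequence of elements of `M`: a length `len`, and a function `val` giving the
entries below `len` (and `0` from `len` on), coded by elements of `M`. -/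
structure FinSeq where
  /-- the length -/
  len : M
  /-- the entries -/
  val : M → M
  /-- the normalisation of `val` outside the domain of the sequence -/
  val_eq_zero : ∀ i, len ≤ i → val i = 0
  /-- the sequence is coded in `M` -/
  coded : ∃ u v, ∀ i, i < len → IsEntry u v i (val i)

/-- A set of `M`-finite sequences is a tree if it is closed under initial segments. -/
def IsTree (T : Set (FinSeq M)) : Prop :=
  ∀ σ ∈ T, ∀ τ : FinSeq M, τ.len ≤ σ.len → (∀ i, i < τ.len → τ.val i = σ.val i) → τ ∈ T

/-- `[T]`: the functions on `M` all of whose initial segments lie in `T`. -/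
def paths (T : Set (FinSeq M)) : Set (M → M) :=
  {h | ∀ s : M, ∃ σ ∈ T, σ.len = s ∧ ∀ i, i < s → σ.val i = h i}

/-- `T` is `Π⁰₁(∅')` in `M`: the set of codes `(u, v, s)` of members of `T` is defined over `M`
by a `Π⁰₁` formula whose set parameters are `Σ⁰₁`-definable subsets of `M`
(equivalently, by a `Π⁰₁` formula relative to the jump `∅'`, the complete `Σ⁰₁` set). -/
def IsPi1Jump (T : Set (FinSeq M)) : Prop :=
  Pi1 {A : Set M | IsSigma1 ∅ A} fun w : Fin 3 → M =>
    ∃ σ ∈ T, σ.len = w 2 ∧ ∀ i, i < σ.len → IsEntry (w 0) (w 1) i (σ.val i)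

end

end Pool.Agent.helper82.DP
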