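import Pool.Agent.helper82.DP.Tree

/-!
# Failure of `Σ⁰₂` induction
-/

set_option linter.unusedSectionVars false

namespace Pool.Agent.helper82.DP

open Filter Encodable Denumerable

theorem le_encode_of_mem {x : ℕ} : ∀ {L : List ℕ}, x ∈ L → x ≤ encode L := by
  intro L
  induction L with
  | nil => intro h; simp at h
  | cons a l ih =>
    intro h
    rw [Encodable.encode_list_cons]
    simp only [encode_nat]
    rcases List.mem_cons.1 h with rfl | h
    · exact le_trans (Nat.left_le_pair _ _) (Nat.le_succ _)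
    · exact le_trans (ih h) (le_trans (Nat.right_le_pair _ _) (Nat.le_succ _))

theorem Fs_UU (a m : ℕ) : Fs a (UU a m) m := by
  unfold Fs UU
  rw [ofNat_encode]

theorem FF_le_UU (a m : ℕ) : FF a m ≤ UU a m := by
  refine le_encode_of_mem ?_
  rw [List.mem_map]
  exact ⟨m, by simp, rfl⟩

theorem UU_bdd (m : ℕ) : Bdd fun i => UU i m := by
  have := Bdd.list ((List.range (m + 1)).map fun k => (fun i => FF i k)) (by
    intro f hf
    simp only [List.mem_map] at hf
    obtain ⟨k, _, rfl⟩ := hf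
    exact Bdd.FF _)
  refine this.of_le (AE_of_all fun i => ?_)
  simp only [List.map_map]
  exact le_of_eq rfl

theorem AE_pigeon {f : ℕ → ℕ} {k : ℕ} (h : AE fun i => f i < k) : ∃ m, AE fun i => f i = m := by
  by_contra hcon
  push Not at hcon
  have h1 : AE fun i => ∀ m, m < k → f i ≠ m := (AE_ball _).2 fun m _ => AE_not.2 (hcon m)
  obtain ⟨i, hi⟩ := (h.and h1).exists
  exact hi.2 _ hi.1 rfl

theorem FsM_sq (n U : MM) : FsM (n * n + n) U ↔ AE fun i => Fs i (rep U i) (rep n i) := by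
  unfold FsM
  refine AE_congr (((rep_add (n * n) n).and (rep_mul n n)).mono fun i hi => ?_)
  have : rep (n * n + n) i = Nat.pair (rep n i) 0 := by
    rw [hi.1, hi.2, Nat.pair, if_neg (by omega)]
    omega
  rw [this, eM, Nat.unpair_pair]

theorem FsM_pi : Pi1 ∅ fun w : Fin 2 → MM => FsM (w 1 * w 1 + w 1) (w 0) := by
  have h : Sigma1 ∅ fun v : Fin 1 → MM => v 0 ∈ A1 := A1_sigma
  have h1 := h.subst (fun _ (w : Fin 2 → MM) => pp (pp (FM 0) (w 1 * w 1 + w 1)) (w 0))
    fun _ => isTerm_pp (isTerm_pp (IsTerm.const _) (IsTerm.add (IsTerm.mul (IsTerm.var 1)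
      (IsTerm.var 1)) (IsTerm.var 1))) (IsTerm.var 0)
  refine h1.not.congr fun w => ?_
  rw [mem_A1, not_not]

theorem not_ISigma2 : ¬ ISigma2 {X : Set MM | IsDelta1 ∅ X} := by
  intro hI
  have h2 : Sigma2 ∅ fun v : Fin 1 → MM => ∃ U, FsM (v 0 * v 0 + v 0) U :=
    ⟨_, FsM_pi, fun v => Iff.rfl⟩
  have h3 := hI _ (h2.mono (Set.empty_subset _)) ?_ ?_ (FM 0)
  · obtain ⟨U, hU⟩ := h3
    have hU' := (FsM_sq (FM 0) U).1 hU
    obtain ⟨k, hk⟩ := rep_bdd U
    obtain ⟨i, hi⟩ := (hU'.and (hk.and ((rep_FM 0).and (AE_ge (k + 1))))).exists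
    obtain ⟨a1, a2, a3, a4⟩ := hi
    rw [a3, FF_zero] at a1
    rw [UU_of_Fs a1] at a2
    have h4 := le_trans (FF_le_UU i i) a2
    have := (FF_strictMono i).le_iff_le.1 h4
    omega
  · refine ⟨mk _ (UU_bdd 0), ?_⟩
    refine (FsM_sq 0 _).2 (((rep_mk _ (UU_bdd 0)).and rep_zero).mono fun i hi => ?_)
    rw [hi.1, hi.2]
    exact Fs_UU _ _
  · rintro n ⟨U, hU⟩
    have hU' := (FsM_sq n U).1 hU
    obtain ⟨k, hk⟩ := rep_bdd U
    obtain ⟨m, hm⟩ := AE_pigeon (f := rep n) (k := k + 1) ((hU'.and hk).mono fun i hi => by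
      have h1 := hi.2
      rw [UU_of_Fs hi.1] at h1
      have h4 := le_trans (FF_le_UU i _) h1
      have := (FF_strictMono i).le_iff_le.1 h4
      omega)
    refine ⟨mk _ (UU_bdd (m + 1)), ?_⟩
    refine (FsM_sq (n + 1) _).2 (((rep_mk _ (UU_bdd (m + 1))).and ((rep_add n 1).and
      (rep_one.and hm))).mono fun i hi => ?_)
    rw [hi.1, hi.2.1, hi.2.2.1, hi.2.2.2]
    exact Fs_UU _ _

end Pool.Agent.helper82.DP
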