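import Pool.Agent.helper82.DP.Cut
import Pool.Agent.helper82.DP.Closure

/-!
# Bounded formulas over the cut: Łoś, `Σ₁` transfer, and conversion between relations and formulas
-/

set_option linter.unusedSectionVars false

namespace Pool.Agent.helper82.DP

open Filter Encodable Denumerable

/-- The trace on the cut of an internal set. -/
def ISet (Gs : ℕ → Set ℕ) : Set MM := {x | AE fun i => rep x i ∈ Gs i}

theorem ISet_empty : ISet (fun _ => ∅) = ∅ := by
  ext x
  constructor
  · intro h
    obtain ⟨i, hi⟩ := AE.exists (show AE _ from h)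
    exact hi
  · intro h
    exact absurd h (Set.notMem_empty x)

theorem los_tm (t : Tm) (v : ℕ → MM) :
    AE fun i => t.ev (fun k => rep (v k) i) = rep (t.ev v) i := by
  induction t with
  | var k => exact AE_of_all fun i => rfl
  | num c => exact (rep_cast c).mono fun i hi => by simp only [Tm.ev, hi, Nat.cast_id]
  | add s t ih1 ih2 =>
    refine (ih1.and (ih2.and (rep_add (s.ev v) (t.ev v)))).mono fun i hi => ?_
    simp only [Tm.ev]
    rw [hi.1, hi.2.1, hi.2.2]
  | mul s t ih1 ih2 =>
    refine (ih1.and (ih2.and (rep_mul (s.ev v) (t.ev v)))).mono fun i hi => ?_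
    simp only [Tm.ev]
    rw [hi.1, hi.2.1, hi.2.2]

theorem rep_scons (x : MM) (v : ℕ → MM) (i : ℕ) :
    (fun k => rep (scons x v k) i) = scons (rep x i) fun k => rep (v k) i := by
  funext k
  cases k <;> rfl

/-- Evaluation of a formula in the `i`-th coordinate is insensitive to null changes. -/
theorem ev_seq_congr (Gs : ℕ → Set ℕ) (φ : Fm) {v w : ℕ → ℕ → ℕ}
    (h : ∀ k, AE fun i => v k i = w k i) :
    (AE fun i => φ.ev (Gs i) fun k => v k i) ↔ AE fun i => φ.ev (Gs i) fun k => w k i := by
  have h1 : AE fun i => ∀ k, k < φ.bd → v k i = w k i := (AE_ball _).2 fun k _ => h k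
  exact AE_congr (h1.mono fun i hi => φ.ev_congr (Gs i) hi)

theorem los (Gs : ℕ → Set ℕ) (φ : Fm) : ∀ v : ℕ → MM,
    φ.ev (ISet Gs) v ↔ AE fun i => φ.ev (Gs i) fun k => rep (v k) i := by
  induction φ with
  | eq s t =>
    intro v
    simp only [Fm.ev]
    rw [MM_eq_iff]
    refine AE_congr (((los_tm s v).and (los_tm t v)).mono fun i hi => ?_)
    rw [hi.1, hi.2]
  | lt s t =>
    intro v
    simp only [Fm.ev]
    rw [MM_lt_iff]
    refine AE_congr (((los_tm s v).and (los_tm t v)).mono fun i hi => ?_)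
    rw [hi.1, hi.2]
  | orc t =>
    intro v
    simp only [Fm.ev]
    show (AE fun i => rep (t.ev v) i ∈ Gs i) ↔ _
    refine AE_congr ((los_tm t v).mono fun i hi => ?_)
    rw [hi]
  | neg φ ih =>
    intro v
    simp only [Fm.ev]
    rw [ih v, AE_not]
  | and φ ψ ih1 ih2 =>
    intro v
    simp only [Fm.ev]
    rw [ih1 v, ih2 v, AE_and]
  | bex t φ ih =>
    intro v
    simp only [Fm.ev]
    constructor
    · rintro ⟨x, hx, hφ⟩
      rw [ih, MM_lt_iff] at *
      refine (hx.and (hφ.and (los_tm t v))).mono fun i hi => ?_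
      refine ⟨rep x i, ?_, ?_⟩
      · rw [hi.2.2]; exact hi.1
      · have := hi.2.1
        rwa [rep_scons] at this
    · intro h
      classical
      let f : ℕ → ℕ := fun i => if hi : ∃ x, x < t.ev (fun k => rep (v k) i) ∧
        φ.ev (Gs i) (scons x fun k => rep (v k) i) then hi.choose else 0
      have hf : AE fun i => f i < t.ev (fun k => rep (v k) i) ∧
          φ.ev (Gs i) (scons (f i) fun k => rep (v k) i) := by
        refine h.mono fun i hi => ?_
        have : f i = hi.choose := dif_pos hi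
        rw [this]
        exact hi.choose_spec
      have hlt : AE fun i => f i < rep (t.ev v) i :=
        (hf.and (los_tm t v)).mono fun i hi => by rw [← hi.2]; exact hi.1.1
      have hb : Bdd f := exists_of_lt (hlt.mono fun i hi => hi.le)
      refine ⟨mk f hb, ?_, ?_⟩
      · rw [MM_lt_iff]
        exact (hlt.and (rep_mk f hb)).mono fun i hi => by rw [hi.2]; exact hi.1
      · rw [ih]
        have h1 : AE fun i => φ.ev (Gs i) (fun k => scons (f) (fun k i => rep (v k) i) k i) := by
          refine hf.mono fun i hi => ?_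
          have e : (fun k => scons f (fun k i => rep (v k) i) k i) =
              scons (f i) fun k => rep (v k) i := by
            funext k
            cases k <;> rfl
          rw [e]
          exact hi.2
        refine (ev_seq_congr Gs φ (fun k => ?_)).1 h1
        cases k with
        | zero => exact (rep_mk f hb).mono fun i hi => hi.symm
        | succ k => exact AE_of_all fun i => rfl

theorem los_empty (φ : Fm) (v : ℕ → MM) :
    φ.ev ∅ v ↔ AE fun i => φ.ev (∅ : Set ℕ) fun k => rep (v k) i := by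
  have := los (fun _ => ∅) φ v
  rwa [ISet_empty] at this

/-- Replace oracle queries by a false formula. -/
def Fm.clean : Fm → Fm
  | .eq s t => .eq s t
  | .lt s t => .lt s t
  | .orc _ => .neg (.eq (.num 0) (.num 0))
  | .neg φ => .neg φ.clean
  | .and φ ψ => .and φ.clean ψ.clean
  | .bex t φ => .bex t φ.clean

theorem Fm.ev_clean (G : Set ℕ) (φ : Fm) : ∀ v : ℕ → ℕ, φ.clean.ev G v ↔ φ.ev ∅ v := by
  induction φ with
  | eq s t => intro v; rfl
  | lt s t => intro v; rfl
  | orc t => intro v; simp [Fm.clean, Fm.ev]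
  | neg φ ih => intro v; exact not_congr (ih v)
  | and φ ψ ih1 ih2 => intro v; exact and_congr (ih1 v) (ih2 v)
  | bex t φ ih => intro v; exact exists_congr fun x => and_congr_right fun _ => ih _

theorem Fm.primrec_empty (φ : Fm) :
    PrimrecPred fun L : List ℕ => φ.ev (∅ : Set ℕ) (lval L) := by
  have h : PrimrecPred fun L : List ℕ => φ.clean.ev (orcSet 0) (lval L) :=
    φ.clean.primrec.comp (Primrec.pair (Primrec.const 0) Primrec.id)
  exact h.of_eq fun L => Fm.ev_clean _ _ _

theorem lval_range_map {K k : ℕ} (hk : k < K) (v : ℕ → ℕ) :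
    lval ((List.range K).map v) k = v k := by
  unfold lval
  rw [List.getD_eq_getElem _ _ (by simpa using hk)]
  simp

/-- `Σ₁` statements about elements of the cut reflect to the cut. -/
theorem sn_iff (φ : Fm) (v : ℕ → MM) :
    (AE fun i => ∃ w, φ.ev (∅ : Set ℕ) (scons w fun k => rep (v k) i)) ↔
      ∃ w : MM, φ.ev ∅ (scons w v) := by
  constructor
  · intro h
    have hr : PrimrecPred fun p : ℕ × ℕ =>
        φ.ev (∅ : Set ℕ) (lval (p.2 :: ofNat (List ℕ) p.1)) :=
      φ.primrec_empty.comp (Primrec.list_cons.comp Primrec.snd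
        ((Primrec.ofNat (List ℕ)).comp Primrec.fst))
    obtain ⟨c₀, hc₀⟩ := dom_primrec hr
    let x : ℕ → ℕ := fun i => encode ((List.range φ.bd).map fun k => rep (v k) i)
    have hx : Bdd x := by
      have := Bdd.list ((List.range φ.bd).map fun k => rep (v k)) (by
        intro f hf
        simp only [List.mem_map] at hf
        obtain ⟨k, _, rfl⟩ := hf
        exact rep_bdd _)
      refine this.of_le (AE_of_all fun i => ?_)
      simp only [List.map_map]
      exact le_of_eq rfl
    have key : ∀ i w, φ.ev (∅ : Set ℕ) (lval (w :: ofNat (List ℕ) (x i))) ↔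
        φ.ev (∅ : Set ℕ) (scons w fun k => rep (v k) i) := by
      intro i w
      rw [ofNat_encode, lval_cons]
      refine φ.ev_congr ∅ fun k hk => ?_
      cases k with
      | zero => rfl
      | succ k => exact lval_range_map (by omega) _
    have h2 : AE fun i => ∃ w, w ≤ B (max i (x i)) ∧
        φ.ev (∅ : Set ℕ) (scons w fun k => rep (v k) i) := by
      refine (h.and (AE_ge c₀)).mono fun i hi => ?_
      obtain ⟨w, hw⟩ := hi.1
      obtain ⟨z, hz1, hz2⟩ := hc₀ i hi.2 (x i) ⟨w, (key i w).2 hw⟩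
      exact ⟨z, hz1, (key i z).1 hz2⟩
    classical
    let f : ℕ → ℕ := fun i => if hi : ∃ w, w ≤ B (max i (x i)) ∧
        φ.ev (∅ : Set ℕ) (scons w fun k => rep (v k) i) then hi.choose else 0
    have hf : AE fun i => f i ≤ B (max i (x i)) ∧
        φ.ev (∅ : Set ℕ) (scons (f i) fun k => rep (v k) i) := by
      refine h2.mono fun i hi => ?_
      have : f i = hi.choose := dif_pos hi
      rw [this]
      exact hi.choose_spec
    have hb : Bdd f := ((Bdd.id.max hx).B).of_le (hf.mono fun i hi => hi.1)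
    refine ⟨mk f hb, ?_⟩
    rw [los_empty]
    have h1 : AE fun i => φ.ev ∅ (fun k => scons (f) (fun k i => rep (v k) i) k i) := by
      refine hf.mono fun i hi => ?_
      have e : (fun k => scons f (fun k i => rep (v k) i) k i) =
          scons (f i) fun k => rep (v k) i := by
        funext k
        cases k <;> rfl
      rw [e]
      exact hi.2
    refine (ev_seq_congr (fun _ => ∅) φ (fun k => ?_)).1 h1
    cases k with
    | zero => exact (rep_mk f hb).mono fun i hi => hi.symm
    | succ k => exact AE_of_all fun i => rfl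
  · rintro ⟨w, hw⟩
    rw [los_empty] at hw
    refine hw.mono fun i hi => ⟨rep w i, ?_⟩
    rwa [rep_scons] at hi

section

variable {M : Type} [CommSemiring M] [LinearOrder M]

/-- Extend a finite valuation by zeros. -/
def ext {n : ℕ} (v : Fin n → M) : ℕ → M := fun k => if h : k < n then v ⟨k, h⟩ else 0

theorem ext_cons {n : ℕ} (x : M) (v : Fin n → M) :
    ext (Fin.cons x v : Fin (n + 1) → M) = scons x (ext v) := by
  funext k
  cases k with
  | zero => simp [ext]
  | succ k =>
    simp only [ext, scons_succ]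
    by_cases h : k < n
    · rw [dif_pos h, dif_pos (by omega)]
      exact Fin.cons_succ (α := fun _ => M) x v ⟨k, h⟩
    · rw [dif_neg h, dif_neg (by omega)]

theorem Tm.isTerm (t : Tm) (n : ℕ) : IsTerm fun v : Fin n → M => t.ev (ext v) := by
  induction t with
  | var k =>
    simp only [Tm.ev, ext]
    by_cases h : k < n
    · simp only [dif_pos h]; exact IsTerm.var _
    · simp only [dif_neg h]; exact IsTerm.const _
  | num c => exact IsTerm.const _
  | add s t ih1 ih2 => exact IsTerm.add ih1 ih2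
  | mul s t ih1 ih2 => exact IsTerm.mul ih1 ih2

theorem Fm.delta0 {P : Set (Set M)} {G : Set M} (hG : G ∈ P ∨ G = ∅) (φ : Fm) :
    ∀ n : ℕ, Delta0 P fun v : Fin n → M => φ.ev G (ext v) := by
  induction φ with
  | eq s t => intro n; exact Delta0.eq (s.isTerm n) (t.isTerm n)
  | lt s t => intro n; exact Delta0.lt (s.isTerm n) (t.isTerm n)
  | orc t =>
    intro n
    rcases hG with hG | rfl
    · exact Delta0.mem (t.isTerm n) hG
    · exact (Delta0.const False).congr fun v => by simp [Fm.ev]
  | neg φ ih => intro n; exact (ih n).not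
  | and φ ψ ih1 ih2 => intro n; exact (ih1 n).and (ih2 n)
  | bex t φ ih =>
    intro n
    refine (Delta0.bex (t.isTerm n) (ih (n + 1))).congr fun v => ?_
    simp only [ext_cons, Fm.ev]

/-- Finitely supported parameter streams. -/
def Fins (c : ℕ → M) : Prop := ∃ K, ∀ k, K ≤ k → c k = 0

/-- Append a parameter stream to a finite valuation. -/
def appv {n : ℕ} (v : Fin n → M) (c : ℕ → M) : ℕ → M :=
  fun k => if h : k < n then v ⟨k, h⟩ else c (k - n)

theorem appv_cons {n : ℕ} (x : M) (v : Fin n → M) (c : ℕ → M) :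
    appv (Fin.cons x v : Fin (n + 1) → M) c = scons x (appv v c) := by
  funext k
  cases k with
  | zero => simp [appv]
  | succ k =>
    simp only [appv, scons_succ]
    by_cases h : k < n
    · rw [dif_pos h, dif_pos (by omega)]
      exact Fin.cons_succ (α := fun _ => M) x v ⟨k, h⟩
    · rw [dif_neg h, dif_neg (by omega)]
      congr 1
      omega

/-- Interleave two streams. -/
def inter (c d : ℕ → M) : ℕ → M := fun k => if k % 2 = 0 then c (k / 2) else d (k / 2)

theorem Fins.inter {c d : ℕ → M} (hc : Fins c) (hd : Fins d) : Fins (inter c d) := by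
  obtain ⟨K, hK⟩ := hc
  obtain ⟨L, hL⟩ := hd
  refine ⟨2 * (K + L), fun k hk => ?_⟩
  unfold DP.inter
  split_ifs
  · exact hK _ (by omega)
  · exact hL _ (by omega)

/-- Renaming to the even parameters. -/
def r0 (n k : ℕ) : ℕ := if k < n then k else n + 2 * (k - n)

/-- Renaming to the odd parameters. -/
def r1 (n k : ℕ) : ℕ := if k < n then k else n + 2 * (k - n) + 1

theorem appv_r0 {n : ℕ} (v : Fin n → M) (c d : ℕ → M) :
    (fun k => appv v (inter c d) (r0 n k)) = appv v c := by
  funext k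
  unfold r0 appv
  split_ifs with h1 h2 h2
  · rfl
  · omega
  · unfold inter
    rw [if_pos (by omega)]
    congr 1
    omega

theorem appv_r1 {n : ℕ} (v : Fin n → M) (c d : ℕ → M) :
    (fun k => appv v (inter c d) (r1 n k)) = appv v d := by
  funext k
  unfold r1 appv
  split_ifs with h1 h2 h2
  · rfl
  · omega
  · unfold inter
    rw [if_neg (by omega)]
    congr 1
    omega

theorem IsTerm.toTm {n : ℕ} {t : (Fin n → M) → M} (ht : IsTerm t) :
    ∃ (s : Tm) (c : ℕ → M), Fins c ∧ ∀ v, t v = s.ev (appv v c) := by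
  induction ht with
  | const a =>
    refine ⟨.var n, fun k => if k = 0 then a else 0, ⟨1, fun k hk => if_neg (by omega)⟩,
      fun v => ?_⟩
    simp [Tm.ev, appv]
  | var i =>
    refine ⟨.var i, fun _ => 0, ⟨0, fun _ _ => rfl⟩, fun v => ?_⟩
    simp [Tm.ev, appv]
  | add _ _ ih1 ih2 =>
    obtain ⟨s, c, hc, hs⟩ := ih1
    obtain ⟨t, d, hd, ht⟩ := ih2
    refine ⟨.add (s.ren (r0 n)) (t.ren (r1 n)), inter c d, hc.inter hd, fun v => ?_⟩
    simp only [Tm.ev, Tm.ev_ren, appv_r0, appv_r1, hs, ht]
  | mul _ _ ih1 ih2 =>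
    obtain ⟨s, c, hc, hs⟩ := ih1
    obtain ⟨t, d, hd, ht⟩ := ih2
    refine ⟨.mul (s.ren (r0 n)) (t.ren (r1 n)), inter c d, hc.inter hd, fun v => ?_⟩
    simp only [Tm.ev, Tm.ev_ren, appv_r0, appv_r1, hs, ht]

theorem Delta0.toFm {G : Set M} {n : ℕ} {R : (Fin n → M) → Prop} (hR : Delta0 {G} R) :
    ∃ (φ : Fm) (c : ℕ → M), Fins c ∧ ∀ v, R v ↔ φ.ev G (appv v c) := by
  induction hR with
  | @eq n _ _ hs ht =>
    obtain ⟨s, c, hc, hs⟩ := hs.toTm
    obtain ⟨t, d, hd, ht⟩ := ht.toTm
    refine ⟨.eq (s.ren (r0 n)) (t.ren (r1 n)), inter c d, hc.inter hd, fun v => ?_⟩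
    simp only [Fm.ev, Tm.ev_ren, appv_r0, appv_r1, hs, ht]
  | @lt n _ _ hs ht =>
    obtain ⟨s, c, hc, hs⟩ := hs.toTm
    obtain ⟨t, d, hd, ht⟩ := ht.toTm
    refine ⟨.lt (s.ren (r0 n)) (t.ren (r1 n)), inter c d, hc.inter hd, fun v => ?_⟩
    simp only [Fm.ev, Tm.ev_ren, appv_r0, appv_r1, hs, ht]
  | @mem n _ X ht hX =>
    obtain ⟨t, d, hd, ht⟩ := ht.toTm
    have hX' : X = G := hX
    subst hX'
    refine ⟨.orc t, d, hd, fun v => ?_⟩
    simp only [Fm.ev, ht]
  | not _ ih =>
    obtain ⟨φ, c, hc, hφ⟩ := ih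
    exact ⟨.neg φ, c, hc, fun v => not_congr (hφ v)⟩
  | @and n _ _ _ _ ih1 ih2 =>
    obtain ⟨φ, c, hc, hφ⟩ := ih1
    obtain ⟨ψ, d, hd, hψ⟩ := ih2
    refine ⟨.and (φ.ren (r0 n)) (ψ.ren (r1 n)), inter c d, hc.inter hd, fun v => ?_⟩
    simp only [Fm.ev, Fm.ev_ren, appv_r0, appv_r1, hφ, hψ]
  | @bex n _ _ ht _ ih =>
    obtain ⟨t, d, hd, ht⟩ := ht.toTm
    obtain ⟨φ, c, hc, hφ⟩ := ih
    refine ⟨.bex (t.ren (r0 n)) (φ.ren (r1 (n + 1))), inter d c, hd.inter hc, fun v => ?_⟩
    simp only [Fm.ev, Fm.ev_ren, Tm.ev_ren, appv_r0, hφ, ht]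
    refine exists_congr fun x => and_congr_right fun _ => ?_
    rw [← appv_cons, appv_r1]

end

/-- `Σ₁`-definable relations over `ℕ` give lightface `Σ⁰₁` relations over the cut. -/
theorem SN.sigma1 {R : (ℕ → ℕ) → Prop} (hR : SN R) (n : ℕ) (P : Set (Set MM)) :
    Sigma1 P fun v : Fin n → MM => AE fun i => R fun k => rep (ext v k) i := by
  obtain ⟨φ, hφ⟩ := hR
  refine ⟨_, φ.delta0 (Or.inr rfl) (n + 1), fun v => ?_⟩
  simp only [ext_cons]
  rw [← sn_iff]
  exact AE_congr (AE_of_all fun i => hφ _)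

end Pool.Agent.helper82.DP
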