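import Pool.Agent.helper82.DP.Fail

/-!
# No path is first-order definable
-/

set_option linter.unusedSectionVars false

namespace Pool.Agent.helper82.DP

open Filter Encodable Denumerable
open Nat.Partrec (Code)

section

variable {M : Type} [CommSemiring M] [LinearOrder M]

theorem Arithmetical.congr {n : ℕ} {R S : (Fin n → M) → Prop} (hR : Arithmetical R)
    (h : ∀ v, S v ↔ R v) : Arithmetical S := by
  have : S = R := funext fun v => propext (h v)
  rwa [this]

theorem Arithmetical.subst {n : ℕ} {R : (Fin n → M) → Prop} (hR : Arithmetical R) :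
    ∀ {m : ℕ} (τ : Fin n → (Fin m → M) → M), (∀ i, IsTerm (τ i)) →
      Arithmetical fun v : Fin m → M => R fun i => τ i v := by
  induction hR with
  | eq hs ht => intro m τ hτ; exact Arithmetical.eq (hs.subst τ hτ) (ht.subst τ hτ)
  | lt hs ht => intro m τ hτ; exact Arithmetical.lt (hs.subst τ hτ) (ht.subst τ hτ)
  | not _ ih => intro m τ hτ; exact Arithmetical.not (ih τ hτ)
  | and _ _ ih1 ih2 => intro m τ hτ; exact Arithmetical.and (ih1 τ hτ) (ih2 τ hτ)
  | ex _ ih =>
    intro m τ hτ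
    have h1 := Arithmetical.ex (ih (liftSub τ) (liftSub_term τ hτ))
    refine h1.congr fun v => ?_
    simp only [liftSub_cons]

theorem Arithmetical.imp {n : ℕ} {R S : (Fin n → M) → Prop} (hR : Arithmetical R)
    (hS : Arithmetical S) : Arithmetical fun v => R v → S v :=
  (Arithmetical.not (Arithmetical.and hR (Arithmetical.not hS))).congr fun v => by tauto

theorem Arithmetical.all {n : ℕ} {R : (Fin (n + 1) → M) → Prop} (hR : Arithmetical R) :
    Arithmetical fun v => ∀ x, R (Fin.cons x v) :=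
  (Arithmetical.not (Arithmetical.ex (Arithmetical.not hR))).congr fun v => by
    push Not
    rfl

end

/-- `x` codes the initial segment of `h` of length `s`. -/
def Cx (h : MM → MM) (x s : MM) : Prop :=
  ∃ u v, x = pp u v ∧ ∀ e, e < s → ∀ y, h e = y → IsEntry u v e y

theorem Cx_arith {h : MM → MM} (hh : DefinableFun h) :
    Arithmetical fun w : Fin 2 → MM => Cx h (w 0) (w 1) := by
  have h1 : Arithmetical fun z : Fin 7 → MM => z 4 = z 0 * ((z 2 + 1) * z 3 + 1) + z 1 :=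
    Arithmetical.eq (IsTerm.var 4) (IsTerm.add (IsTerm.mul (IsTerm.var 0) (IsTerm.add (IsTerm.mul
      (IsTerm.add (IsTerm.var 2) (IsTerm.const 1)) (IsTerm.var 3)) (IsTerm.const 1)))
      (IsTerm.var 1))
  have h2 : Arithmetical fun z : Fin 6 → MM => ∃ q, z 3 = q * ((z 1 + 1) * z 2 + 1) + z 0 :=
    Arithmetical.ex h1
  have h3 : Arithmetical fun z : Fin 6 → MM => z 0 < (z 1 + 1) * z 2 + 1 :=
    Arithmetical.lt (IsTerm.var 0) (IsTerm.add (IsTerm.mul
      (IsTerm.add (IsTerm.var 1) (IsTerm.const 1)) (IsTerm.var 2)) (IsTerm.const 1))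
  have h4 : Arithmetical fun z : Fin 6 → MM => h (z 1) = z 0 :=
    Arithmetical.subst hh (fun i z => z (![1, 0] i)) fun _ => IsTerm.var _
  have h5 : Arithmetical fun z : Fin 6 → MM =>
      (h (z 1) = z 0 → IsEntry (z 3) (z 2) (z 1) (z 0)) := h4.imp (h3.and h2)
  have h6 : Arithmetical fun z : Fin 5 → MM =>
      ∀ y, h (z 0) = y → IsEntry (z 2) (z 1) (z 0) y := h5.all
  have h7 : Arithmetical fun z : Fin 5 → MM => z 0 < z 4 :=
    Arithmetical.lt (IsTerm.var 0) (IsTerm.var 4)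
  have h8 : Arithmetical fun z : Fin 4 → MM =>
      ∀ e, e < z 3 → ∀ y, h e = y → IsEntry (z 1) (z 0) e y := (h7.imp h6).all
  have h9 : Arithmetical fun z : Fin 4 → MM => z 2 = pp (z 1) (z 0) :=
    Arithmetical.eq (IsTerm.var 2) (isTerm_pp (IsTerm.var 1) (IsTerm.var 0))
  exact (h9.and h8).ex.ex

/-- `x` is the least code of the initial segment of `h` of length `s`. -/
def Dx (h : MM → MM) (x s : MM) : Prop := Cx h x s ∧ ∀ x', x' < x → ¬ Cx h x' s

theorem Dx_arith {h : MM → MM} (hh : DefinableFun h) :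
    Arithmetical fun w : Fin 2 → MM => Dx h (w 0) (w 1) := by
  have h1 := Cx_arith hh
  have h2 : Arithmetical fun z : Fin 3 → MM => Cx h (z 0) (z 2) :=
    h1.subst (fun i z => z (![0, 2] i)) fun _ => IsTerm.var _
  have h3 : Arithmetical fun z : Fin 3 → MM => z 0 < z 1 :=
    Arithmetical.lt (IsTerm.var 0) (IsTerm.var 1)
  exact h1.and (h3.imp h2.not).all

theorem Dx_unique {h : MM → MM} {x y s : MM} (hx : Dx h x s) (hy : Dx h y s) : y = x := by
  rcases lt_trichotomy y x with h1 | h1 | h1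
  · exact absurd hy.1 (hx.2 y h1)
  · exact h1
  · exact absurd hx.1 (hy.2 x h1)

/-- Coordinatewise version of `Cx`. -/
def CI (s u₀ v₀ : MM) (i x : ℕ) : Prop :=
  ∃ u v : ℕ, x = pp u v ∧ ∀ e, e < rep s i →
    u % ((e + 1) * v + 1) = rep u₀ i % ((e + 1) * rep v₀ i + 1)

theorem le_pp_left (u v : ℕ) : u ≤ pp u v := Nat.le_add_left _ _

theorem le_pp_right (u v : ℕ) : v ≤ pp u v := by
  unfold pp
  nlinarith [Nat.zero_le u, Nat.le_mul_self (u + v)]

theorem Cx_of_CI {h : MM → MM} {s u₀ v₀ : MM} (h0 : ∀ e, e < s → IsEntry u₀ v₀ e (h e)) {x : MM}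
    (hx : AE fun i => CI s u₀ v₀ i (rep x i)) : Cx h x s := by
  have h1 : AE fun i => ∃ p : ℕ × ℕ, rep x i = pp p.1 p.2 ∧ ∀ e, e < rep s i →
      p.1 % ((e + 1) * p.2 + 1) = rep u₀ i % ((e + 1) * rep v₀ i + 1) :=
    hx.mono fun i ⟨u, v, huv⟩ => ⟨(u, v), huv⟩
  classical
  let f : ℕ → ℕ × ℕ := fun i => if hi : ∃ p : ℕ × ℕ, rep x i = pp p.1 p.2 ∧ ∀ e, e < rep s i →
      p.1 % ((e + 1) * p.2 + 1) = rep u₀ i % ((e + 1) * rep v₀ i + 1) then hi.choose else 0
  have hf : AE fun i => rep x i = pp (f i).1 (f i).2 ∧ ∀ e, e < rep s i →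
      (f i).1 % ((e + 1) * (f i).2 + 1) = rep u₀ i % ((e + 1) * rep v₀ i + 1) := by
    refine h1.mono fun i hi => ?_
    have : f i = hi.choose := dif_pos hi
    rw [this]
    exact hi.choose_spec
  have hu : Bdd fun i => (f i).1 := exists_of_lt (x := x)
    (hf.mono fun i hi => by rw [hi.1]; exact le_pp_left _ _)
  have hv : Bdd fun i => (f i).2 := exists_of_lt (x := x)
    (hf.mono fun i hi => by rw [hi.1]; exact le_pp_right _ _)
  refine ⟨mk _ hu, mk _ hv, ?_, fun e he y hy => ?_⟩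
  · rw [MM_eq_iff]
    refine (hf.and ((rep_pp (mk _ hu) (mk _ hv)).and ((rep_mk _ hu).and
      (rep_mk _ hv)))).mono fun i hi => ?_
    rw [hi.2.1, hi.2.2.1, hi.2.2.2]
    exact hi.1.1
  · subst hy
    have h2 := h0 e he
    rw [isEntry_iff] at h2 ⊢
    rw [MM_lt_iff] at he
    refine (hf.and (h2.and (he.and ((rep_mk _ hu).and (rep_mk _ hv))))).mono fun i hi => ?_
    obtain ⟨a1, a2, a3, a4, a5⟩ := hi
    rw [a2, a4, a5]
    exact (a1.2 _ a3).symm

theorem CI_of_Cx {h : MM → MM} {s u₀ v₀ : MM} (h0 : ∀ e, e < s → IsEntry u₀ v₀ e (h e)) {x : MM}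
    (hx : Cx h x s) : AE fun i => CI s u₀ v₀ i (rep x i) := by
  obtain ⟨u, v, hxuv, huv⟩ := hx
  rw [MM_eq_iff] at hxuv
  have key : AE fun i => ∀ e, e < rep s i →
      rep u i % ((e + 1) * rep v i + 1) = rep u₀ i % ((e + 1) * rep v₀ i + 1) := by
    by_contra hcon
    have h1 := AE_not.2 hcon
    have h2 : AE fun i => ∃ e, e < rep s i ∧
        rep u i % ((e + 1) * rep v i + 1) ≠ rep u₀ i % ((e + 1) * rep v₀ i + 1) := by
      refine h1.mono fun i hi => ?_
      push Not at hi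
      exact hi
    classical
    let f : ℕ → ℕ := fun i => if hi : ∃ e, e < rep s i ∧
        rep u i % ((e + 1) * rep v i + 1) ≠ rep u₀ i % ((e + 1) * rep v₀ i + 1)
        then hi.choose else 0
    have hf : AE fun i => f i < rep s i ∧
        rep u i % ((f i + 1) * rep v i + 1) ≠ rep u₀ i % ((f i + 1) * rep v₀ i + 1) := by
      refine h2.mono fun i hi => ?_
      have : f i = hi.choose := dif_pos hi
      rw [this]
      exact hi.choose_spec
    have hb : Bdd f := exists_of_lt (x := s) (hf.mono fun i hi => hi.1.le)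
    have hlt : mk f hb < s := by
      rw [MM_lt_iff]
      exact (hf.and (rep_mk f hb)).mono fun i hi => by rw [hi.2]; exact hi.1.1
    have h3 := huv _ hlt _ rfl
    have h4 := h0 _ hlt
    rw [isEntry_iff] at h3 h4
    obtain ⟨i, hi⟩ := (hf.and (h3.and (h4.and (rep_mk f hb)))).exists
    obtain ⟨a1, a2, a3, a4⟩ := hi
    rw [a4] at a2 a3
    exact a1.2 (a2.symm.trans a3)
  refine (hxuv.and ((rep_pp u v).and key)).mono fun i hi => ?_
  exact ⟨rep u i, rep v i, hi.1.trans hi.2.1, hi.2.2⟩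

theorem exists_Dx {h : MM → MM} {s u₀ v₀ : MM} (h0 : ∀ e, e < s → IsEntry u₀ v₀ e (h e)) :
    ∃ x, Dx h x s := by
  classical
  have hex : ∀ i, ∃ x, CI s u₀ v₀ i x := fun i =>
    ⟨pp (rep u₀ i) (rep v₀ i), rep u₀ i, rep v₀ i, rfl, fun _ _ => rfl⟩
  let f : ℕ → ℕ := fun i => Nat.find (hex i)
  have hb : Bdd f := by
    refine exists_of_lt (x := pp u₀ v₀) ((rep_pp u₀ v₀).mono fun i hi => ?_)
    rw [hi]
    exact Nat.find_min' (hex i) ⟨rep u₀ i, rep v₀ i, rfl, fun _ _ => rfl⟩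
  refine ⟨mk f hb, Cx_of_CI h0 ((rep_mk f hb).mono fun i hi => ?_), fun x' hx' hC => ?_⟩
  · rw [hi]
    exact Nat.find_spec (hex i)
  · have h1 := CI_of_Cx h0 hC
    rw [MM_lt_iff] at hx'
    obtain ⟨i, hi⟩ := (h1.and (hx'.and (rep_mk f hb))).exists
    obtain ⟨a1, a2, a3⟩ := hi
    rw [a3] at a2
    exact Nat.find_min (hex i) a2 a1

/-! ### The program -/

theorem search_code {r : ℕ × ℕ → Prop} (hr : PrimrecPred r) {g : ℕ × ℕ → ℕ} (hg : Primrec g) :
    ∃ c : Code, ∀ n y, (∃ z, r (n, z)) → (∀ z, r (n, z) → g (n, z) = y) → y ∈ c.eval n := by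
  classical
  let f : ℕ →. ℕ := fun x => Nat.rfind fun z => Part.some (decide (r (x, z)))
  have hf : Partrec f := Partrec.rfind (PrimrecPred.computablePred hr).decide.partrec.to₂
  have hf2 : Partrec fun n => (f n).map fun z => g (n, z) :=
    hf.map hg.to_comp.to₂
  obtain ⟨c, hc⟩ := Code.exists_code.1 (Partrec.nat_iff.1 hf2)
  refine ⟨c, fun n y hn hy => ?_⟩
  obtain ⟨z, hz⟩ := hn
  obtain ⟨z', hz', _⟩ := Nat.rfind_min' (p := fun z => decide (r (n, z))) (m := z)
    (by simpa using hz)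
  have hz1 : r (n, z') := by
    have := Nat.rfind_spec hz'
    simpa using this
  rw [hc, ← hy z' hz1]
  exact Part.mem_map (fun z => g (n, z)) hz'

/-- The list of values of the variables. -/
def vlist (b p U y : ℕ) : List ℕ :=
  (List.range b).map fun k => if k = 0 then y else if k % 2 = 0 then
    (ofNat (List ℕ) p).getD (k / 2 - 1) 0 else (ofNat (List ℕ) U).getD (k / 2) 0

theorem primrec_vlist (b : ℕ) :
    Primrec fun q : ℕ × (ℕ × ℕ) => vlist b q.1 q.2.1 q.2.2 := by
  refine Primrec.list_map (Primrec.const (List.range b)) ?_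
  have ck : Primrec fun t : (ℕ × (ℕ × ℕ)) × ℕ => t.2 := Primrec.snd
  have ck2 : Primrec fun t : (ℕ × (ℕ × ℕ)) × ℕ => t.2 / 2 :=
    Primrec.nat_div.comp ck (Primrec.const 2)
  have cp : Primrec fun t : (ℕ × (ℕ × ℕ)) × ℕ => ofNat (List ℕ) t.1.1 :=
    (Primrec.ofNat (List ℕ)).comp (Primrec.fst.comp Primrec.fst)
  have cU : Primrec fun t : (ℕ × (ℕ × ℕ)) × ℕ => ofNat (List ℕ) t.1.2.1 :=
    (Primrec.ofNat (List ℕ)).comp (Primrec.fst.comp (Primrec.snd.comp Primrec.fst))
  have cy : Primrec fun t : (ℕ × (ℕ × ℕ)) × ℕ => t.1.2.2 :=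
    Primrec.snd.comp (Primrec.snd.comp Primrec.fst)
  exact Primrec.ite (Primrec.eq.comp ck (Primrec.const 0)) cy
    (Primrec.ite (Primrec.eq.comp (Primrec.nat_mod.comp ck (Primrec.const 2)) (Primrec.const 0))
      ((Primrec.list_getD 0).comp cp (Primrec.nat_sub.comp ck2 (Primrec.const 1)))
      ((Primrec.list_getD 0).comp cU ck2))

/-- The search condition. -/
def Sc (φ : Fm) (k : ℕ) (q : ℕ × ℕ) : Prop :=
  φ.ev (∅ : Set ℕ) (lval (vlist φ.bd q.1.unpair.2.unpair.1 q.1.unpair.1 q.2.unpair.1)) ∧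
    (q.2.unpair.1 ≤ (ofNat (List ℕ) q.1.unpair.1).getD k 0 ∧
      q.2.unpair.1 = pp q.2.unpair.2.unpair.1 q.2.unpair.2.unpair.2)

theorem primrec_Sc (φ : Fm) (k : ℕ) : PrimrecPred (Sc φ k) := by
  have cU : Primrec fun q : ℕ × ℕ => q.1.unpair.1 :=
    Primrec.fst.comp (Primrec.unpair.comp Primrec.fst)
  have cp : Primrec fun q : ℕ × ℕ => q.1.unpair.2.unpair.1 :=
    Primrec.fst.comp (Primrec.unpair.comp (Primrec.snd.comp (Primrec.unpair.comp Primrec.fst)))
  have cy : Primrec fun q : ℕ × ℕ => q.2.unpair.1 :=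
    Primrec.fst.comp (Primrec.unpair.comp Primrec.snd)
  have cu : Primrec fun q : ℕ × ℕ => q.2.unpair.2.unpair.1 :=
    Primrec.fst.comp (Primrec.unpair.comp (Primrec.snd.comp (Primrec.unpair.comp Primrec.snd)))
  have cv : Primrec fun q : ℕ × ℕ => q.2.unpair.2.unpair.2 :=
    Primrec.snd.comp (Primrec.unpair.comp (Primrec.snd.comp (Primrec.unpair.comp Primrec.snd)))
  have h1 : PrimrecPred fun q : ℕ × ℕ =>
      φ.ev (∅ : Set ℕ) (lval (vlist φ.bd q.1.unpair.2.unpair.1 q.1.unpair.1 q.2.unpair.1)) :=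
    φ.primrec_empty.comp ((primrec_vlist φ.bd).comp (Primrec.pair cp (Primrec.pair cU cy)))
  exact h1.and ((Primrec.nat_le.comp cy ((Primrec.list_getD 0).comp
    ((Primrec.ofNat (List ℕ)).comp cU) (Primrec.const k))).and
      (Primrec.eq.comp cy (primrec_pp cu cv)))

/-- The output. -/
def outp (q : ℕ × ℕ) : ℕ :=
  q.2.unpair.2.unpair.1 % ((q.1.unpair.2.unpair.2 + 1) * q.2.unpair.2.unpair.2 + 1)

theorem primrec_outp : Primrec outp := by
  have ce : Primrec fun q : ℕ × ℕ => q.1.unpair.2.unpair.2 :=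
    Primrec.snd.comp (Primrec.unpair.comp (Primrec.snd.comp (Primrec.unpair.comp Primrec.fst)))
  have cu : Primrec fun q : ℕ × ℕ => q.2.unpair.2.unpair.1 :=
    Primrec.fst.comp (Primrec.unpair.comp (Primrec.snd.comp (Primrec.unpair.comp Primrec.snd)))
  have cv : Primrec fun q : ℕ × ℕ => q.2.unpair.2.unpair.2 :=
    Primrec.snd.comp (Primrec.unpair.comp (Primrec.snd.comp (Primrec.unpair.comp Primrec.snd)))
  exact Primrec.nat_mod.comp cu (Primrec.succ.comp
    (Primrec.nat_mul.comp (Primrec.succ.comp ce) cv))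

/-- The values of the variables, coordinatewise. -/
theorem vlist_spec (φ : Fm) (c : ℕ → MM) (K₀ m : ℕ) (hK₀ : ∀ k, K₀ ≤ k → c k = 0)
    (hm : φ.bd ≤ m) :
    AE fun i => ∀ y, φ.ev (∅ : Set ℕ) (lval (vlist φ.bd (encode (pc c K₀ i)) (UU i m) y)) ↔
      φ.ev (∅ : Set ℕ) (mixr i (scons y fun k => rep (c k) i)) := by
  have h1 : AE fun i => ∀ k, k < φ.bd → (pc c K₀ i).getD k 0 = rep (c k) i := by
    refine (AE_ball _).2 fun k _ => ?_
    by_cases hk : k < K₀
    · exact AE_of_all fun i => lval_range_map hk _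
    · refine rep_zero.mono fun i hi => ?_
      rw [hK₀ k (by omega), hi]
      refine List.getD_eq_default _ _ ?_
      simp [pc]
      omega
  have h2 : AE fun i => ∀ k, k < φ.bd → rep (FM k) i = FF i k :=
    (AE_ball _).2 fun k _ => rep_FM k
  refine (h1.and h2).mono fun i hi y => ?_
  refine φ.ev_congr ∅ fun k hk => ?_
  unfold vlist
  rw [lval_range_map hk]
  unfold mixr
  rcases Nat.even_or_odd' k with ⟨j, rfl | rfl⟩
  · rw [if_pos (show 2 * j % 2 = 0 by omega), show 2 * j / 2 = j by omega]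
    cases j with
    | zero => rfl
    | succ j =>
      rw [if_neg (by omega), if_pos (by omega), scons_succ, show j + 1 - 1 = j by omega,
        ofNat_encode, hi.1 j (by omega)]
  · rw [if_neg (show ¬ 2 * j + 1 = 0 by omega), if_neg (show ¬ (2 * j + 1) % 2 = 0 by omega),
      if_neg (show ¬ (2 * j + 1) % 2 = 0 by omega), show (2 * j + 1) / 2 = j by omega,
      hi.2 j (by omega), UU, ofNat_encode]
    exact lval_range_map (by omega) _

theorem not_definable {h : MM → MM} (hp : h ∈ paths TT) : ¬ DefinableFun h := by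
  intro hh
  obtain ⟨c, ⟨K₀, hK₀⟩, hD⟩ := (Dx_arith hh).eqv
  obtain ⟨k₂, hk₂⟩ := pc_bdd c K₀
  obtain ⟨σ, hσ, hlen, hval⟩ := hp (FM (k₂ + 3))
  obtain ⟨u₀, v₀, hcode⟩ := σ.coded
  have h0 : ∀ e, e < FM (k₂ + 3) → IsEntry u₀ v₀ e (h e) := by
    intro e he
    rw [← hval e he]
    exact hcode e (by rw [hlen]; exact he)
  obtain ⟨x, hx⟩ := exists_Dx h0
  obtain ⟨k₃, hk₃⟩ := exists_le_FM x
  obtain ⟨φ, hφ1, hφ2⟩ := unique_formula (D := fun w => Dx h (w 0) (w 1)) c hD (k₂ + 3) k₃ x hx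
    fun y hy => Dx_unique hx hy
  obtain ⟨⟨u, v, hxuv, huv⟩, _⟩ := hx
  set m := max φ.bd k₃ with hm
  obtain ⟨cd, hcd⟩ := search_code (primrec_Sc φ k₃) primrec_outp
  -- the argument
  let ee : ℕ → ℕ := fun i => Nat.pair m (Nat.pair (encode cd) (encode (pc c K₀ i)))
  have heb : Bdd ee := (Bdd.const m).pair ((Bdd.const (encode cd)).pair (pc_bdd c K₀))
  have helt : mk ee heb < FM (k₂ + 3) := by
    rw [MM_lt_iff]
    refine (hk₂.and ((rep_mk ee heb).and ((rep_FM (k₂ + 3)).and ((AE_ge m).and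
      (AE_ge (encode cd)))))).mono fun i hi => ?_
    obtain ⟨a1, a2, a3, a4, a5⟩ := hi
    rw [a2, a3]
    have b1 : Nat.pair (encode cd) (encode (pc c K₀ i)) ≤ FF i (k₂ + 1) := by
      rw [FF_succ]
      refine le_trans (Nat.pair_lt_max_add_one_sq _ _).le (le_trans ?_ (B_ge _))
      have : max (encode cd) (encode (pc c K₀ i)) ≤ FF i k₂ :=
        max_le (le_trans a5 (le_FF i k₂)) a1
      rw [pow_two]
      exact Nat.mul_le_mul (by omega) (by omega)
    have b2 : ee i ≤ FF i (k₂ + 2) := by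
      rw [FF_succ]
      refine le_trans (Nat.pair_lt_max_add_one_sq _ _).le (le_trans ?_ (B_ge _))
      have : max m (Nat.pair (encode cd) (encode (pc c K₀ i))) ≤ FF i (k₂ + 1) :=
        max_le (le_trans a4 (le_FF i (k₂ + 1))) b1
      rw [pow_two]
      exact Nat.mul_le_mul (by omega) (by omega)
    exact lt_of_le_of_lt b2 (FF_strictMono i (Nat.lt_succ_self _))
  set e₀ : MM := mk ee heb with he₀
  set U : MM := mk _ (UU_bdd m) with hU
  have hF : FsM e₀ U := by
    refine ((rep_mk ee heb).and (rep_mk _ (UU_bdd m))).mono fun i hi => ?_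
    rw [hi.1, hi.2]
    have : eM (ee i) = m := by simp [eM, ee]
    rw [this]
    exact Fs_UU _ _
  -- uniqueness, coordinatewise
  have huniq : AE fun i => ∀ y, y ≤ FF i k₃ →
      φ.ev (∅ : Set ℕ) (mixr i (scons y fun k => rep (c k) i)) → y = rep x i := by
    by_contra hcon
    have h1 := AE_not.2 hcon
    have h2 : AE fun i => ∃ y, y ≤ FF i k₃ ∧
        φ.ev (∅ : Set ℕ) (mixr i (scons y fun k => rep (c k) i)) ∧ y ≠ rep x i := by
      refine h1.mono fun i hi => ?_
      push Not at hi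
      exact hi
    classical
    let f : ℕ → ℕ := fun i => if hi : ∃ y, y ≤ FF i k₃ ∧
        φ.ev (∅ : Set ℕ) (mixr i (scons y fun k => rep (c k) i)) ∧ y ≠ rep x i
        then hi.choose else 0
    have hf : AE fun i => f i ≤ FF i k₃ ∧
        φ.ev (∅ : Set ℕ) (mixr i (scons (f i) fun k => rep (c k) i)) ∧ f i ≠ rep x i := by
      refine h2.mono fun i hi => ?_
      have : f i = hi.choose := dif_pos hi
      rw [this]
      exact hi.choose_spec
    have hb : Bdd f := ⟨k₃, hf.mono fun i hi => hi.1⟩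
    have h3 : mk f hb = x := by
      refine hφ2 _ ?_ ?_
      · rw [MM_le_iff]
        exact (hf.and ((rep_mk f hb).and (rep_FM k₃))).mono fun i hi => by
          rw [hi.2.1, hi.2.2]; exact hi.1.1
      · rw [los_empty]
        refine (hf.and (rep_mk f hb)).mono fun i hi => ?_
        rw [rep_mix, hi.2]
        exact hi.1.2.1
    rw [MM_eq_iff] at h3
    obtain ⟨i, hi⟩ := (h3.and (hf.and (rep_mk f hb))).exists
    obtain ⟨a1, a2, a3⟩ := hi
    exact a2.2.2 (a3.symm.trans a1)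
  have hex : AE fun i => φ.ev (∅ : Set ℕ) (mixr i (scons (rep x i) fun k => rep (c k) i)) := by
    rw [los_empty] at hφ1
    refine hφ1.mono fun i hi => ?_
    rwa [rep_mix] at hi
  have hent := (isEntry_iff _ _ _ _).1 (huv e₀ helt _ rfl)
  have hk₃' := MM_le_iff.1 hk₃
  have hxuv' := MM_eq_iff.1 hxuv
  have hW : WM e₀ U (h e₀) := by
    refine ((rep_mk ee heb).and ((rep_mk _ (UU_bdd m)).and (huniq.and (hex.and (hent.and
      (hk₃'.and ((rep_FM k₃).and (hxuv'.and ((rep_pp u v).and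
        (vlist_spec φ c K₀ m hK₀ (le_max_left _ _))))))))))).mono fun i hi => ?_
    obtain ⟨a1, a2, a3, a4, a5, a6, a7, a8, a9, a10⟩ := hi
    have c1 : rep e₀ i = ee i := a1
    have c2 : rep U i = UU i m := a2
    unfold Wr
    rw [c1, c2]
    have d1 : eC (ee i) = encode cd := by simp [eC, ee]
    have d2 : eP (ee i) = encode (pc c K₀ i) := by simp [eP, ee]
    rw [d1, d2, ofNat_encode]
    have d3 : (ofNat (List ℕ) (UU i m)).getD k₃ 0 = FF i k₃ := by
      rw [UU, ofNat_encode]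
      exact lval_range_map (show k₃ < m + 1 by omega) _
    rw [a7] at a6
    rw [a9] at a8
    refine hcd _ _ ?_ ?_
    · refine ⟨Nat.pair (rep x i) (Nat.pair (rep u i) (rep v i)), ?_, ?_, ?_⟩
      · simp only [Nat.unpair_pair]
        exact (a10 _).2 a4
      · simp only [Nat.unpair_pair]
        rw [d3]
        exact a6
      · simp only [Nat.unpair_pair]
        exact a8
    · rintro z ⟨z1, z2, z3⟩
      simp only [Nat.unpair_pair] at z1 z2 z3
      rw [d3] at z2
      have z4 := a3 _ z2 ((a10 _).1 z1)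
      rw [z3, a8] at z4
      obtain ⟨z5, z6⟩ := pp_inj z4
      unfold outp
      simp only [Nat.unpair_pair]
      rw [z5, z6, a5, c1]
  exact hσ e₀ (by rw [hlen]; exact helt) U hF (by rw [hval e₀ helt]; exact hW)

end Pool.Agent.helper82.DP
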