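import Pool.Agent.helper82.DP.Busy

/-!
# Counting: random binary strings with controlled jump
-/

namespace Pool.Agent.helper82.DP

open Encodable Denumerable

/-- The valuation coded by `q`. -/
def dec (q : ℕ) : ℕ → ℕ := lval (ofNat (List ℕ) q)

/-- The event that `∃ w, θ (w, q)` is witnessed by stage `t`, for the string `N`. -/
def AA (θ : Fm) (q t N : ℕ) : Prop :=
  ∃ w, w < t + 1 ∧ (θ.safe t (scons w (dec q)) ∧ θ.ev (orcSet N) (scons w (dec q)))

theorem AA_mono {θ : Fm} {q t t' N : ℕ} (h : t ≤ t') (hA : AA θ q t N) : AA θ q t' N := by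
  obtain ⟨w, hw, h1, h2⟩ := hA
  exact ⟨w, by omega, θ.safe_mono h h1, h2⟩

theorem AA_local {θ : Fm} {q t N N' : ℕ} (h : N % 2 ^ (t + 2) = N' % 2 ^ (t + 2)) :
    AA θ q t N ↔ AA θ q t N' :=
  exists_congr fun _ => and_congr_right fun _ => and_congr_right fun h1 => θ.ev_local h h1

theorem primrec_AA (θ : Fm) : PrimrecPred fun p : ℕ × (ℕ × ℕ) => AA θ p.1 p.2.1 p.2.2 := by
  have h1 : Primrec fun p : ℕ × (ℕ × (ℕ × ℕ)) => p.1 :: ofNat (List ℕ) p.2.1 :=
    Primrec.list_cons.comp Primrec.fst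
      ((Primrec.ofNat (List ℕ)).comp (Primrec.fst.comp Primrec.snd))
  have h2 : PrimrecPred fun p : ℕ × (ℕ × (ℕ × ℕ)) =>
      (θ.safe p.2.2.1 (lval (p.1 :: ofNat (List ℕ) p.2.1)) ∧
        θ.ev (orcSet p.2.2.2) (lval (p.1 :: ofNat (List ℕ) p.2.1))) :=
    (θ.primrec_safe.comp (Primrec.pair (Primrec.fst.comp (Primrec.snd.comp Primrec.snd)) h1)).and
      (θ.primrec.comp (Primrec.pair (Primrec.snd.comp (Primrec.snd.comp Primrec.snd)) h1))
  have h3 := PrimrecPred.bex (f := fun p : ℕ × (ℕ × ℕ) => p.2.1 + 1)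
    (Primrec.succ.comp (Primrec.fst.comp Primrec.snd)) h2
  simp only [lval_cons] at h3
  exact h3

open Classical in
/-- The number of `N < 2 ^ L` with property `p`. -/
noncomputable def cnt (p : ℕ → Prop) (L : ℕ) : ℕ := Nat.count p (2 ^ L)

theorem count_periodic (p : ℕ → Prop) [DecidablePred p] {P : ℕ} (h : ∀ k, p (P + k) ↔ p k)
    (m : ℕ) : Nat.count p (m * P) = m * Nat.count p P := by
  induction m with
  | zero => simp
  | succ m ih =>
    have e : (m + 1) * P = P + m * P := by ring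
    rw [e, Nat.count_add]
    simp only [h]
    rw [ih]
    ring

/-- `p` depends only on `N mod 2 ^ k`. -/
def Loc (p : ℕ → Prop) (k : ℕ) : Prop := ∀ N N', N % 2 ^ k = N' % 2 ^ k → (p N ↔ p N')

theorem cnt_loc {p : ℕ → Prop} {k L : ℕ} (hp : Loc p k) (hk : k ≤ L) :
    cnt p L = 2 ^ (L - k) * cnt p k := by
  classical
  unfold cnt
  have e : 2 ^ L = 2 ^ (L - k) * 2 ^ k := by rw [← pow_add]; congr 1; omega
  rw [e, count_periodic]
  intro j
  refine hp _ _ ?_
  simp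

theorem cnt_mono {p q : ℕ → Prop} (h : ∀ N, p N → q N) (L : ℕ) : cnt p L ≤ cnt q L := by
  classical
  unfold cnt
  exact Nat.count_mono_left fun k _ => h k

theorem cnt_le (p : ℕ → Prop) (L : ℕ) : cnt p L ≤ 2 ^ L := by
  classical
  unfold cnt
  exact Nat.count_le _

theorem cnt_eq_zero {p : ℕ → Prop} (h : ∀ m, ¬ p m) (L : ℕ) : cnt p L = 0 := by
  classical
  unfold cnt
  exact Nat.count_iff_forall_not.2 fun m _ => h m

theorem cnt_eq_top {p : ℕ → Prop} (h : ∀ m, p m) (L : ℕ) : cnt p L = 2 ^ L := by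
  classical
  unfold cnt
  exact Nat.count_iff_forall.2 fun m _ => h m

theorem cnt_or (p q : ℕ → Prop) (L : ℕ) : cnt (fun N => p N ∨ q N) L ≤ cnt p L + cnt q L := by
  classical
  unfold cnt
  simp only [Nat.count_eq_card_filter_range]
  refine le_trans (Finset.card_le_card ?_) (Finset.card_union_le _ _)
  intro x hx
  simp only [Finset.mem_union, Finset.mem_filter] at hx ⊢
  tauto

theorem cnt_diff {p q : ℕ → Prop} (h : ∀ N, q N → p N) (L : ℕ) :
    cnt (fun N => p N ∧ ¬ q N) L + cnt q L = cnt p L := by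
  classical
  unfold cnt
  simp only [Nat.count_eq_card_filter_range]
  rw [← Finset.card_union_of_disjoint]
  · congr 1
    ext N
    simp only [Finset.mem_union, Finset.mem_filter, Finset.mem_range]
    constructor
    · rintro (⟨h1, h2, _⟩ | ⟨h1, h2⟩)
      · exact ⟨h1, h2⟩
      · exact ⟨h1, h N h2⟩
    · rintro ⟨h1, h2⟩
      by_cases h3 : q N
      · exact Or.inr ⟨h1, h3⟩
      · exact Or.inl ⟨h1, h2, h3⟩
  · rw [Finset.disjoint_left]
    intro N hN hN'
    simp only [Finset.mem_filter] at hN hN'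
    exact hN.2.2 hN'.2

theorem cnt_biUnion (p : ℕ → ℕ → Prop) (n L : ℕ) :
    cnt (fun N => ∃ s, s < n ∧ p s N) L ≤ ∑ s ∈ Finset.range n, cnt (p s) L := by
  induction n with
  | zero =>
    have : cnt (fun N => ∃ s, s < 0 ∧ p s N) L = 0 := by
      refine cnt_eq_zero ?_ L
      rintro m ⟨s, hs, _⟩
      omega
    rw [this]
    exact Nat.zero_le _
  | succ n ih =>
    rw [Finset.sum_range_succ]
    refine le_trans ?_ (le_trans (cnt_or (fun N => ∃ s, s < n ∧ p s N) (p n) L)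
      (Nat.add_le_add_right ih _))
    refine cnt_mono (fun N => ?_) L
    rintro ⟨s, hs, h⟩
    rcases Nat.lt_succ_iff_lt_or_eq.1 hs with h1 | rfl
    · exact Or.inl ⟨s, h1, h⟩
    · exact Or.inr h

theorem AA_loc (θ : Fm) (q t : ℕ) : Loc (AA θ q t) (t + 2) := fun _ _ h => AA_local h

theorem primrec_cnt_AA (θ : Fm) : Primrec fun p : ℕ × ℕ => cnt (AA θ p.1 p.2) (p.2 + 2) := by
  classical
  have h1 : PrimrecRel fun (N : ℕ) (p : ℕ × ℕ) => AA θ p.1 p.2 N :=
    (primrec_AA θ).comp (Primrec.pair (Primrec.fst.comp Primrec.snd)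
      (Primrec.pair (Primrec.snd.comp Primrec.snd) Primrec.fst))
  have h2 : Primrec fun p : ℕ × ℕ =>
      ((List.range (2 ^ (p.2 + 2))).filter fun N => AA θ p.1 p.2 N).length :=
    Primrec.list_length.comp (h1.listFilter.comp (Primrec.list_range.comp
      (primrec_pow2.comp (Primrec.nat_add.comp Primrec.snd (Primrec.const 2)))) Primrec.id)
  refine h2.of_eq fun p => ?_
  unfold cnt
  rw [Nat.count, List.countP_eq_length_filter]

/-- The main probability estimate: outside a set of strings of small measure, `Σ₁` facts about the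
string have small witnesses. -/
theorem prob_bound (θ : Fm) (s : ℕ) : ∃ c₀ : ℕ, ∀ a, c₀ ≤ a → ∀ q t' L, t' + 2 ≤ L →
    B (B (max a q)) + 2 ≤ L →
    2 ^ (q + s + 4) * cnt (fun N => AA θ q t' N ∧ ¬ AA θ q (B (B (max a q))) N) L ≤ 2 ^ L := by
  -- the relation `k * 2 ^ (t + 2) ≤ 2 ^ (q + s + 4) * cnt (AA θ q t) (t + 2)`
  have hH : PrimrecPred fun p : ℕ × ℕ =>
      p.1.unpair.2 * 2 ^ (p.2 + 2) ≤
        2 ^ (p.1.unpair.1 + s + 4) * cnt (AA θ p.1.unpair.1 p.2) (p.2 + 2) := by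
    have hq : Primrec fun p : ℕ × ℕ => p.1.unpair.1 :=
      Primrec.fst.comp (Primrec.unpair.comp Primrec.fst)
    have hk : Primrec fun p : ℕ × ℕ => p.1.unpair.2 :=
      Primrec.snd.comp (Primrec.unpair.comp Primrec.fst)
    exact Primrec.nat_le.comp
      (Primrec.nat_mul.comp hk
        (primrec_pow2.comp (Primrec.nat_add.comp Primrec.snd (Primrec.const 2))))
      (Primrec.nat_mul.comp
        (primrec_pow2.comp (Primrec.nat_add.comp (Primrec.nat_add.comp hq (Primrec.const s))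
          (Primrec.const 4)))
        ((primrec_cnt_AA θ).comp (Primrec.pair hq Primrec.snd)))
  have hP : PrimrecPred fun p : ℕ × ℕ => Nat.pair p.1 (2 ^ (p.1 + s + 4)) ≤ p.2 :=
    Primrec.nat_le.comp (Primrec₂.natPair.comp Primrec.fst
      (primrec_pow2.comp (Primrec.nat_add.comp (Primrec.nat_add.comp Primrec.fst (Primrec.const s))
          (Primrec.const 4)))) Primrec.snd
  obtain ⟨c₁, hc₁⟩ := dom_primrec hH
  obtain ⟨c₂, hc₂⟩ := dom_primrec hP
  refine ⟨max c₁ c₂, fun a ha q t' L hL1 hL2 => ?_⟩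
  set T := B (B (max a q)) with hT
  set D := q + s + 4 with hD
  rcases le_total t' T with htT | htT
  · -- the set is empty
    have h0 : cnt (fun N => AA θ q t' N ∧ ¬ AA θ q T N) L = 0 := by
      refine cnt_eq_zero ?_ L
      rintro m ⟨h1, h2⟩
      exact h2 (AA_mono htT h1)
    rw [h0]; simp
  -- choose the maximal `k`
  classical
  have hmax : ∃ k, k ≤ 2 ^ D ∧ (∃ t, k * 2 ^ (t + 2) ≤ 2 ^ D * cnt (AA θ q t) (t + 2)) ∧
      ∀ k', k' ≤ 2 ^ D → (∃ t, k' * 2 ^ (t + 2) ≤ 2 ^ D * cnt (AA θ q t) (t + 2)) → k' ≤ k := by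
    let S : Finset ℕ := (Finset.range (2 ^ D + 1)).filter fun k =>
      ∃ t, k * 2 ^ (t + 2) ≤ 2 ^ D * cnt (AA θ q t) (t + 2)
    have hS : S.Nonempty := ⟨0, by simp [S]⟩
    refine ⟨S.max' hS, ?_, ?_, ?_⟩
    · have := (Finset.mem_filter.1 (S.max'_mem hS)).1
      rw [Finset.mem_range] at this; omega
    · exact (Finset.mem_filter.1 (S.max'_mem hS)).2
    · intro k' h1 h2
      exact S.le_max' _ (Finset.mem_filter.2 ⟨Finset.mem_range.2 (by omega), h2⟩)
  obtain ⟨k, hk1, hk2, hk3⟩ := hmax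
  -- a small witness for `k`
  obtain ⟨t, ht1, ht2⟩ := hc₁ a (le_trans (le_max_left _ _) ha) (Nat.pair q k)
    (by simpa using hk2)
  simp only [Nat.unpair_pair] at ht2
  obtain ⟨z, hz1, hz2⟩ := hc₂ a (le_trans (le_max_right _ _) ha) q
    ⟨Nat.pair q (2 ^ (q + s + 4)), le_refl _⟩
  have htT' : t ≤ T := by
    refine le_trans ht1 ?_
    rw [hT]
    refine B_mono (max_le ?_ ?_)
    · exact le_trans (le_max_left a q) (lt_B _).le
    · refine le_trans ?_ (le_trans hz2 hz1)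
      rcases Nat.lt_or_eq_of_le hk1 with h | h
      · exact (Nat.pair_lt_pair_right q h).le
      · rw [h]
  -- at level T
  have h5 : k * 2 ^ (T + 2) ≤ 2 ^ D * cnt (AA θ q T) (T + 2) := by
    have e1 : cnt (AA θ q t) (T + 2) = 2 ^ (T + 2 - (t + 2)) * cnt (AA θ q t) (t + 2) :=
      cnt_loc (AA_loc θ q t) (by omega)
    have e2 : cnt (AA θ q t) (T + 2) ≤ cnt (AA θ q T) (T + 2) :=
      cnt_mono (fun N => AA_mono htT') _
    have e3 : 2 ^ (T + 2) = 2 ^ (T + 2 - (t + 2)) * 2 ^ (t + 2) := by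
      rw [← pow_add]; congr 1; omega
    calc k * 2 ^ (T + 2) = 2 ^ (T + 2 - (t + 2)) * (k * 2 ^ (t + 2)) := by rw [e3]; ring
      _ ≤ 2 ^ (T + 2 - (t + 2)) * (2 ^ D * cnt (AA θ q t) (t + 2)) :=
          Nat.mul_le_mul_left _ ht2
      _ = 2 ^ D * cnt (AA θ q t) (T + 2) := by rw [e1]; ring
      _ ≤ 2 ^ D * cnt (AA θ q T) (T + 2) := Nat.mul_le_mul_left _ e2
  -- at level L
  have h6 : k * 2 ^ L ≤ 2 ^ D * cnt (AA θ q T) L := by
    have e1 : cnt (AA θ q T) L = 2 ^ (L - (T + 2)) * cnt (AA θ q T) (T + 2) :=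
      cnt_loc (AA_loc θ q T) (by omega)
    have e3 : 2 ^ L = 2 ^ (L - (T + 2)) * 2 ^ (T + 2) := by
      rw [← pow_add]; congr 1; omega
    calc k * 2 ^ L = 2 ^ (L - (T + 2)) * (k * 2 ^ (T + 2)) := by rw [e3]; ring
      _ ≤ 2 ^ (L - (T + 2)) * (2 ^ D * cnt (AA θ q T) (T + 2)) :=
          Nat.mul_le_mul_left _ h5
      _ = 2 ^ D * cnt (AA θ q T) L := by rw [e1]; ring
  have h7 : 2 ^ D * cnt (AA θ q t') L ≤ (k + 1) * 2 ^ L := by
    by_cases hk : k + 1 ≤ 2 ^ D
    · have h8 : ¬ (k + 1) * 2 ^ (t' + 2) ≤ 2 ^ D * cnt (AA θ q t') (t' + 2) := by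
        intro h
        have := hk3 (k + 1) hk ⟨t', h⟩
        omega
      push Not at h8
      have e1 : cnt (AA θ q t') L = 2 ^ (L - (t' + 2)) * cnt (AA θ q t') (t' + 2) :=
        cnt_loc (AA_loc θ q t') (by omega)
      have e3 : 2 ^ L = 2 ^ (L - (t' + 2)) * 2 ^ (t' + 2) := by
        rw [← pow_add]; congr 1; omega
      calc 2 ^ D * cnt (AA θ q t') L
          = 2 ^ (L - (t' + 2)) * (2 ^ D * cnt (AA θ q t') (t' + 2)) := by rw [e1]; ring
        _ ≤ 2 ^ (L - (t' + 2)) * ((k + 1) * 2 ^ (t' + 2)) := Nat.mul_le_mul_left _ h8.le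
        _ = (k + 1) * 2 ^ L := by rw [e3]; ring
    · have : k = 2 ^ D := by omega
      calc 2 ^ D * cnt (AA θ q t') L ≤ 2 ^ D * 2 ^ L := Nat.mul_le_mul_left _ (cnt_le _ _)
        _ ≤ (k + 1) * 2 ^ L := Nat.mul_le_mul_right _ (by omega)
  have h9 := cnt_diff (p := AA θ q t') (q := AA θ q T) (fun N => AA_mono htT) L
  have h10 : 2 ^ D * cnt (fun N => AA θ q t' N ∧ ¬ AA θ q T N) L +
      2 ^ D * cnt (AA θ q T) L = 2 ^ D * cnt (AA θ q t') L := by
    rw [← Nat.mul_add, h9]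
  have h11 : (k + 1) * 2 ^ L = k * 2 ^ L + 2 ^ L := by ring
  omega

theorem cnt_mod_eq (e b L : ℕ) (hL : e ≤ L) :
    2 ^ e * cnt (fun N => N % 2 ^ e = b) L ≤ 2 ^ L := by
  classical
  have hloc : Loc (fun N => N % 2 ^ e = b) e := fun N N' h => by simp only [h]
  have h1 : cnt (fun N => N % 2 ^ e = b) e ≤ 1 := by
    unfold cnt
    rw [Nat.count_eq_card_filter_range, Finset.card_le_one]
    intro x hx y hy
    simp only [Finset.mem_filter, Finset.mem_range] at hx hy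
    rw [Nat.mod_eq_of_lt hx.1] at hx
    rw [Nat.mod_eq_of_lt hy.1] at hy
    rw [hx.2, hy.2]
  rw [cnt_loc hloc hL]
  calc 2 ^ e * (2 ^ (L - e) * cnt (fun N => N % 2 ^ e = b) e)
      ≤ 2 ^ e * (2 ^ (L - e) * 1) :=
        Nat.mul_le_mul_left _ (Nat.mul_le_mul_left _ h1)
    _ = 2 ^ L := by rw [mul_one, ← pow_add]; congr 1; omega

theorem geom_half (n : ℕ) : ∑ i ∈ Finset.range n, (1 / 2 : ℚ) ^ i ≤ 2 := by
  have h : ∑ i ∈ Finset.range n, (1 / 2 : ℚ) ^ i = 2 - 2 * (1 / 2) ^ n := by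
    induction n with
    | zero => simp
    | succ n ih => rw [Finset.sum_range_succ, ih, pow_succ]; ring
  rw [h]
  have : (0 : ℚ) ≤ (1 / 2) ^ n := by positivity
  linarith

/-- Existence of a good string. -/
theorem exists_good (i tm : ℕ) (cs : ℕ → ℕ)
    (hcs : ∀ s, ∀ a, cs s ≤ a → ∀ q t' L, t' + 2 ≤ L →
      B (B (max a q)) + 2 ≤ L →
      2 ^ (q + s + 4) * cnt (fun N => AA (fmEnum s) q t' N ∧
        ¬ AA (fmEnum s) q (B (B (max a q))) N) L ≤ 2 ^ L)
    (bad : ℕ → ℕ) :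
    ∃ N : ℕ, (∀ e, e < tm + 1 → N % 2 ^ (e + 2) ≠ bad e) ∧
      ∀ s, s < i → cs s ≤ i → ∀ q, q < tm + 1 → AA (fmEnum s) q tm N →
        AA (fmEnum s) q (B (B (max i q))) N := by
  set L := B (B (max i tm)) + 2 * tm + i + 10 with hLdef
  -- bad events
  let P1 : ℕ → Prop := fun N => ∃ e, e < tm + 1 ∧ N % 2 ^ (e + 2) = bad e
  let V : ℕ → ℕ → ℕ → Prop := fun s q N => cs s ≤ i ∧ (AA (fmEnum s) q tm N ∧
    ¬ AA (fmEnum s) q (B (B (max i q))) N)
  let P2 : ℕ → Prop := fun N => ∃ s, s < i ∧ ∃ q, q < tm + 1 ∧ V s q N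
  have h1 : (cnt P1 L : ℚ) ≤ 2 ^ L * (1 / 2) := by
    have ha : cnt P1 L ≤ ∑ e ∈ Finset.range (tm + 1), cnt (fun N => N % 2 ^ (e + 2) = bad e) L :=
      cnt_biUnion (fun e N => N % 2 ^ (e + 2) = bad e) (tm + 1) L
    have hb : ∀ e ∈ Finset.range (tm + 1), (cnt (fun N => N % 2 ^ (e + 2) = bad e) L : ℚ) ≤
        2 ^ L * (1 / 4) * (1 / 2) ^ e := by
      intro e he
      rw [Finset.mem_range] at he
      have h := cnt_mod_eq (e + 2) (bad e) L (by omega)
      have h' : (2 : ℚ) ^ (e + 2) * (cnt (fun N => N % 2 ^ (e + 2) = bad e) L : ℚ) ≤ 2 ^ L := by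
        exact_mod_cast h
      have hpos : (0 : ℚ) < 2 ^ (e + 2) := by positivity
      have e2 : (2 : ℚ) ^ L * (1 / 4) * (1 / 2) ^ e = 2 ^ L / 2 ^ (e + 2) := by
        rw [one_div_pow]
        field_simp
        ring
      rw [e2, le_div_iff₀ hpos]
      linarith
    calc (cnt P1 L : ℚ)
        ≤ ((∑ e ∈ Finset.range (tm + 1), cnt (fun N => N % 2 ^ (e + 2) = bad e) L : ℕ) : ℚ) := by
          exact_mod_cast ha
      _ = ∑ e ∈ Finset.range (tm + 1), (cnt (fun N => N % 2 ^ (e + 2) = bad e) L : ℚ) := by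
          push_cast; rfl
      _ ≤ ∑ e ∈ Finset.range (tm + 1), 2 ^ L * (1 / 4) * (1 / 2) ^ e := Finset.sum_le_sum hb
      _ = 2 ^ L * (1 / 4) * ∑ e ∈ Finset.range (tm + 1), (1 / 2 : ℚ) ^ e := by
          rw [Finset.mul_sum]
      _ ≤ 2 ^ L * (1 / 4) * 2 := by
          have := geom_half (tm + 1)
          have hp : (0 : ℚ) ≤ 2 ^ L * (1 / 4) := by positivity
          exact mul_le_mul_of_nonneg_left this hp
      _ = 2 ^ L * (1 / 2) := by ring
  have h2 : (cnt P2 L : ℚ) ≤ 2 ^ L * (1 / 4) := by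
    have ha : cnt P2 L ≤ ∑ s ∈ Finset.range i, ∑ q ∈ Finset.range (tm + 1), cnt (V s q) L := by
      refine le_trans (cnt_biUnion (fun s N => ∃ q, q < tm + 1 ∧ V s q N) i L) ?_
      exact Finset.sum_le_sum fun s _ => cnt_biUnion (fun q N => V s q N) (tm + 1) L
    have hb : ∀ s ∈ Finset.range i, ∀ q ∈ Finset.range (tm + 1), (cnt (V s q) L : ℚ) ≤
        2 ^ L * (1 / 16) * (1 / 2) ^ s * (1 / 2) ^ q := by
      intro s hs q hq
      rw [Finset.mem_range] at hs hq
      by_cases hc : cs s ≤ i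
      · have h := hcs s i hc q tm L (by omega) (by
          have : B (B (max i q)) ≤ B (B (max i tm)) :=
            B_mono (B_mono (max_le_max le_rfl (by omega)))
          omega)
        have hle : cnt (V s q) L ≤ cnt (fun N => AA (fmEnum s) q tm N ∧
            ¬ AA (fmEnum s) q (B (B (max i q))) N) L := cnt_mono (fun N h => h.2) L
        have h' : (2 : ℚ) ^ (q + s + 4) * (cnt (V s q) L : ℚ) ≤ 2 ^ L := by
          exact_mod_cast le_trans (Nat.mul_le_mul_left _ hle) h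
        have hpos : (0 : ℚ) < 2 ^ (q + s + 4) := by positivity
        have e2 : (2 : ℚ) ^ L * (1 / 16) * (1 / 2) ^ s * (1 / 2) ^ q = 2 ^ L / 2 ^ (q + s + 4) := by
          rw [one_div_pow, one_div_pow]
          field_simp
          ring
        rw [e2, le_div_iff₀ hpos]
        linarith
      · have h0 : cnt (V s q) L = 0 := by
          refine cnt_eq_zero ?_ L
          rintro m ⟨h1, _⟩
          exact hc h1
        rw [h0]
        push_cast
        positivity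
    calc (cnt P2 L : ℚ)
        ≤ ((∑ s ∈ Finset.range i, ∑ q ∈ Finset.range (tm + 1), cnt (V s q) L : ℕ) : ℚ) := by
          exact_mod_cast ha
      _ = ∑ s ∈ Finset.range i, ∑ q ∈ Finset.range (tm + 1), (cnt (V s q) L : ℚ) := by
          push_cast; rfl
      _ ≤ ∑ s ∈ Finset.range i, ∑ q ∈ Finset.range (tm + 1),
            2 ^ L * (1 / 16) * (1 / 2) ^ s * (1 / 2) ^ q :=
          Finset.sum_le_sum fun s hs => Finset.sum_le_sum fun q hq => hb s hs q hq
      _ = (2 ^ L * (1 / 16)) * (∑ s ∈ Finset.range i, (1 / 2 : ℚ) ^ s) *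
            ∑ q ∈ Finset.range (tm + 1), (1 / 2 : ℚ) ^ q := by
          rw [mul_assoc, Finset.sum_mul_sum, Finset.mul_sum]
          refine Finset.sum_congr rfl fun s _ => ?_
          rw [Finset.mul_sum]
          refine Finset.sum_congr rfl fun q _ => ?_
          ring
      _ ≤ (2 ^ L * (1 / 16)) * 2 * 2 := by
          have a1 := geom_half i
          have a2 := geom_half (tm + 1)
          have b1 : (0 : ℚ) ≤ ∑ q ∈ Finset.range (tm + 1), (1 / 2 : ℚ) ^ q :=
            Finset.sum_nonneg fun _ _ => by positivity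
          have hp : (0 : ℚ) ≤ 2 ^ L * (1 / 16) := by positivity
          have hp2 : (0 : ℚ) ≤ 2 ^ L * (1 / 16) * 2 := by positivity
          exact mul_le_mul (mul_le_mul_of_nonneg_left a1 hp) a2 b1 hp2
      _ = 2 ^ L * (1 / 4) := by ring
  have h3 : cnt (fun N => P1 N ∨ P2 N) L < 2 ^ L := by
    have h := cnt_or P1 P2 L
    have h' : (cnt (fun N => P1 N ∨ P2 N) L : ℚ) ≤ cnt P1 L + cnt P2 L := by exact_mod_cast h
    have hpos : (0 : ℚ) < 2 ^ L := by positivity
    have : (cnt (fun N => P1 N ∨ P2 N) L : ℚ) < 2 ^ L := by linarith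
    exact_mod_cast this
  have h4 : ∃ N, ¬ (P1 N ∨ P2 N) := by
    by_contra hcon
    push Not at hcon
    have : cnt (fun N => P1 N ∨ P2 N) L = 2 ^ L := cnt_eq_top hcon L
    omega
  obtain ⟨N, hN⟩ := h4
  refine ⟨N, fun e he hbad => hN (Or.inl ⟨e, he, hbad⟩), fun s hs hc q hq hA => ?_⟩
  by_contra hcon
  exact hN (Or.inr ⟨s, hs, q, hq, hc, hA, hcon⟩)

end Pool.Agent.helper82.DP
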