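import Pool.Agent.helper82.DP.Los

/-!
# The random path and the collection scheme
-/

set_option linter.unusedSectionVars false

namespace Pool.Agent.helper82.DP

open Filter Encodable Denumerable
open Nat.Partrec (Code)

/-! ### The string `NN i` in coordinate `i` -/

/-- Stage bound in coordinate `i`. -/
noncomputable def tm (i : ℕ) : ℕ := FF i i

/-- The code of the list of the first `m + 1` iterates of `B` at `a`. -/
noncomputable def UU (a m : ℕ) : ℕ := encode ((List.range (m + 1)).map (FF a))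

/-- The number of iterates to be consulted at argument `e`. -/
def eM (e : ℕ) : ℕ := e.unpair.1

/-- The code of the program to be diagonalised against at argument `e`. -/
def eC (e : ℕ) : ℕ := e.unpair.2.unpair.1

/-- The parameter at argument `e`. -/
def eP (e : ℕ) : ℕ := e.unpair.2.unpair.2

/-- `y` is the forbidden value at argument `e`, given the code `U` of the list of iterates. -/
def Wr (e U y : ℕ) : Prop :=
  y ∈ (ofNat Code (eC e)).eval (Nat.pair U (Nat.pair (eP e) e))

open Classical in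
/-- The forbidden value. -/
noncomputable def badF (a e : ℕ) : ℕ := if h : ∃ y, Wr e (UU a (eM e)) y then h.choose else 0

theorem badF_eq {a e y : ℕ} (h : Wr e (UU a (eM e)) y) : badF a e = y := by
  have h' : ∃ y, Wr e (UU a (eM e)) y := ⟨y, h⟩
  unfold badF
  rw [dif_pos h']
  exact Part.mem_unique h'.choose_spec h

/-- Thresholds. -/
noncomputable def cs (s : ℕ) : ℕ := Classical.choose (prob_bound (fmEnum s) s)

theorem exists_NN (i : ℕ) : ∃ N : ℕ, (∀ e, e < tm i + 1 → N % 2 ^ (e + 2) ≠ badF i e) ∧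
      ∀ s, s < i → cs s ≤ i → ∀ q, q < tm i + 1 → AA (fmEnum s) q (tm i) N →
        AA (fmEnum s) q (B (B (max i q))) N :=
  exists_good i (tm i) cs (fun s => Classical.choose_spec (prob_bound (fmEnum s) s)) (badF i)

/-- The string in coordinate `i`. -/
noncomputable def NN (i : ℕ) : ℕ := Classical.choose (exists_NN i)

theorem NN_bad (i e : ℕ) (he : e < tm i + 1) : NN i % 2 ^ (e + 2) ≠ badF i e :=
  (Classical.choose_spec (exists_NN i)).1 e he

theorem NN_good (i s : ℕ) (hs : s < i) (hc : cs s ≤ i) (q : ℕ) (hq : q < tm i + 1)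
    (h : AA (fmEnum s) q (tm i) (NN i)) : AA (fmEnum s) q (B (B (max i q))) (NN i) :=
  (Classical.choose_spec (exists_NN i)).2 s hs hc q hq h

theorem AE_le_tm {f : ℕ → ℕ} (hf : Bdd f) : AE fun i => f i ≤ tm i := by
  obtain ⟨k, hk⟩ := hf
  exact (hk.and (AE_ge k)).mono fun i hi => le_trans hi.1 (FF_mono i hi.2)

/-! ### The path `g` -/

theorem primrec_le_bdd {f : ℕ → ℕ} (hf : Bdd f) {r : ℕ × ℕ → Prop} (hr : PrimrecPred r)
    (h : ∀ x, ∃ z, r (x, z)) : ∃ g : ℕ → ℕ, Bdd g ∧ AE fun i => r (f i, g i) := by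
  obtain ⟨c₀, hc₀⟩ := dom_primrec hr
  have h1 : ∀ i, ∃ z, c₀ ≤ i → z ≤ B (max i (f i)) ∧ r (f i, z) := by
    intro i
    by_cases hi : c₀ ≤ i
    · obtain ⟨z, hz⟩ := hc₀ i hi (f i) (h _)
      exact ⟨z, fun _ => hz⟩
    · exact ⟨0, fun h => absurd h hi⟩
  choose g hg using h1
  refine ⟨g, ((Bdd.id.max hf).B).of_le ((AE_ge c₀).mono fun i hi => (hg i hi).1),
    (AE_ge c₀).mono fun i hi => (hg i hi).2⟩

theorem Bdd.pow2 {f : ℕ → ℕ} (hf : Bdd f) : Bdd fun i => 2 ^ f i := by
  have hr : PrimrecPred fun p : ℕ × ℕ => 2 ^ p.1 ≤ p.2 :=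
    Primrec.nat_le.comp (primrec_pow2.comp Primrec.fst) Primrec.snd
  obtain ⟨g, hg, h⟩ := primrec_le_bdd hf hr fun x => ⟨2 ^ x, le_refl _⟩
  exact hg.of_le h

theorem gg_bdd (x : MM) : Bdd fun i => NN i % 2 ^ (rep x i + 2) :=
  (((rep_bdd x).add (Bdd.const 2)).pow2).of_le
    (AE_of_all fun _ => (Nat.mod_lt _ (by positivity)).le)

/-- The path. -/
noncomputable def gg (x : MM) : MM := mk (fun i => NN i % 2 ^ (rep x i + 2)) (gg_bdd x)

theorem graph_gg : graph gg = ISet fun i => orcSet (NN i) := by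
  ext z
  constructor
  · rintro ⟨x, hx⟩
    show AE _
    rw [MM_eq_iff] at hx
    refine (hx.and ((rep_add ((x + gg x) * (x + gg x)) x).and ((rep_mul (x + gg x) (x + gg x)).and
      ((rep_add x (gg x)).and (rep_mk _ (gg_bdd x)))))).mono fun i hi => ?_
    obtain ⟨h1, h2, h3, h4, h5⟩ := hi
    have h5' : rep (gg x) i = NN i % 2 ^ (rep x i + 2) := h5
    refine ⟨rep x i, ?_, ?_⟩
    · rw [h1, h2]; omega
    · rw [h1, h2, h3, h4, h5']
  · intro h
    have h' : AE fun i => ∃ x, x < rep z i + 1 ∧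
      rep z i = (x + NN i % 2 ^ (x + 2)) * (x + NN i % 2 ^ (x + 2)) + x := h
    classical
    let f : ℕ → ℕ := fun i => if hi : ∃ x, x < rep z i + 1 ∧
      rep z i = (x + NN i % 2 ^ (x + 2)) * (x + NN i % 2 ^ (x + 2)) + x then hi.choose else 0
    have hf : AE fun i => f i < rep z i + 1 ∧
        rep z i = (f i + NN i % 2 ^ (f i + 2)) * (f i + NN i % 2 ^ (f i + 2)) + f i := by
      refine h'.mono fun i hi => ?_
      have : f i = hi.choose := dif_pos hi
      rw [this]
      exact hi.choose_spec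
    have hb : Bdd f := exists_of_lt (x := z) (hf.mono fun i hi => by omega)
    refine ⟨mk f hb, ?_⟩
    rw [MM_eq_iff]
    refine (hf.and ((rep_add ((mk f hb + gg (mk f hb)) * (mk f hb + gg (mk f hb))) (mk f hb)).and
      ((rep_mul (mk f hb + gg (mk f hb)) (mk f hb + gg (mk f hb))).and
      ((rep_add (mk f hb) (gg (mk f hb))).and ((rep_mk _ (gg_bdd (mk f hb))).and
        (rep_mk f hb)))))).mono fun i hi => ?_
    obtain ⟨h1, h2, h3, h4, h5, h6⟩ := hi
    have h5' : rep (gg (mk f hb)) i = NN i % 2 ^ (rep (mk f hb) i + 2) := h5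
    rw [h2, h3, h4, h5', h6]
    exact h1.2

/-! ### Regularity of the cut -/

theorem regular (Ξ : ℕ → ℕ → ℕ → Prop) (hmono : ∀ i x u u', u ≤ u' → Ξ i x u → Ξ i x u')
    (b : ℕ → ℕ)
    (h : ∀ x : ℕ → ℕ, (AE fun i => x i < b i) → ∃ k, AE fun i => Ξ i (x i) (FF i k)) :
    ∃ k, AE fun i => ∀ x, x < b i → Ξ i x (FF i k) := by
  by_contra hcon
  push Not at hcon
  have h1 : ∀ k, AE fun i => ∃ x, x < b i ∧ ¬ Ξ i x (FF i k) := by
    intro k
    have h2 := AE_not.2 (hcon k)
    refine h2.mono fun i hi => ?_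
    push Not at hi
    exact hi
  obtain ⟨y, hy⟩ := saturation (X := ℕ) (fun s i y => y < b i ∧ ¬ Ξ i y (FF i s)) (fun n => by
    refine (h1 n).mono fun i hi => ?_
    obtain ⟨x, hx1, hx2⟩ := hi
    exact ⟨x, fun s hs => ⟨hx1, fun h3 => hx2 (hmono i x _ _ (FF_mono i hs) h3)⟩⟩)
  obtain ⟨k, hk⟩ := h y ((hy 0).mono fun i hi => hi.1)
  obtain ⟨i, hi⟩ := (hk.and (hy k)).exists
  exact hi.2.2 hi.1

theorem tm_bdd (t : Tm) (v : ℕ → ℕ → ℕ) (hv : ∀ k, Bdd (v k)) :
    Bdd fun i => t.ev fun k => v k i := by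
  induction t with
  | var k => exact hv k
  | num c => simpa [Tm.ev] using Bdd.const c
  | add s t ih1 ih2 => exact ih1.add ih2
  | mul s t ih1 ih2 => exact ih1.mul ih2

theorem scons_seq (x : ℕ → ℕ) (v : ℕ → ℕ → ℕ) (i : ℕ) :
    (fun k => scons x v k i) = scons (x i) fun k => v k i := by
  funext k
  cases k <;> rfl

theorem safe_bdd (φ : Fm) : ∀ v : ℕ → ℕ → ℕ, (∀ k, Bdd (v k)) →
    ∃ k, AE fun i => φ.safe (FF i k) fun j => v j i := by
  induction φ with
  | eq s t => intro v _; exact ⟨0, AE_of_all fun _ => trivial⟩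
  | lt s t => intro v _; exact ⟨0, AE_of_all fun _ => trivial⟩
  | orc s => intro v hv; exact tm_bdd s v hv
  | neg φ ih => intro v hv; exact ih v hv
  | and φ ψ ih1 ih2 =>
    intro v hv
    obtain ⟨k, hk⟩ := ih1 v hv
    obtain ⟨l, hl⟩ := ih2 v hv
    refine ⟨max k l, (hk.and hl).mono fun i hi => ⟨?_, ?_⟩⟩
    · exact φ.safe_mono (FF_mono i (le_max_left k l)) hi.1
    · exact ψ.safe_mono (FF_mono i (le_max_right k l)) hi.2
  | bex t φ ih =>
    intro v hv
    refine regular (fun i x u => φ.safe u (scons x fun j => v j i))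
      (fun i x u u' h => φ.safe_mono h) (fun i => t.ev fun k => v k i) (fun x hx => ?_)
    have hxb : Bdd x := (tm_bdd t v hv).of_le (hx.mono fun i hi => hi.le)
    obtain ⟨k, hk⟩ := ih (scons x v) (fun k => by
      cases k with
      | zero => exact hxb
      | succ k => exact hv k)
    refine ⟨k, hk.mono fun i hi => ?_⟩
    rwa [scons_seq] at hi

theorem Fm.safe_congr (t : ℕ) (φ : Fm) : ∀ {v w : ℕ → ℕ}, (∀ k, k < φ.bd → v k = w k) →
    (φ.safe t v ↔ φ.safe t w) := by
  induction φ with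
  | eq s t => intro v w _; exact Iff.rfl
  | lt s t => intro v w _; exact Iff.rfl
  | orc s =>
    intro v w h
    simp only [Fm.safe]
    rw [s.ev_congr h]
  | neg φ ih =>
    intro v w h
    exact ih h
  | and φ ψ ih1 ih2 =>
    intro v w h
    simp only [Fm.safe]
    rw [ih1 fun k hk => h k (lt_of_lt_of_le hk (le_max_left _ _)),
      ih2 fun k hk => h k (lt_of_lt_of_le hk (le_max_right _ _))]
  | bex t φ ih =>
    intro v w h
    simp only [Fm.safe]
    rw [t.ev_congr fun k hk => h k (lt_of_lt_of_le hk (le_max_left _ _))]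
    refine forall_congr' fun x => imp_congr_right fun _ => ih fun k hk => ?_
    cases k with
    | zero => rfl
    | succ k =>
      exact h k (by
        have : φ.bd ≤ (Fm.bex t φ).bd := le_max_right _ _
        omega)

/-- The fundamental lemma: `Σ₁` statements about the path are decided at stage `tm`. -/
theorem fund (φ : Fm) (v : ℕ → MM) (L : ℕ → List ℕ)
    (hL : ∀ k, k < φ.bd → AE fun i => lval (L i) k = rep (v k) i)
    (hb : Bdd fun i => encode (L i)) :
    (∃ w : MM, φ.ev (graph gg) (scons w v)) ↔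
      AE fun i => AA φ (encode (L i)) (tm i) (NN i) := by
  have hL' : AE fun i => ∀ k, k < φ.bd → lval (L i) k = rep (v k) i := (AE_ball _).2 hL
  have hdec : ∀ i w, (∀ k, k < φ.bd → lval (L i) k = rep (v k) i) →
      ∀ k, k < φ.bd → scons w (dec (encode (L i))) k = scons w (fun k => rep (v k) i) k := by
    intro i w h k hk
    cases k with
    | zero => rfl
    | succ k =>
      simp only [scons_succ, dec, ofNat_encode]
      exact h k (by omega)
  constructor
  · rintro ⟨w, hw⟩
    rw [graph_gg, los] at hw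
    obtain ⟨k, hk⟩ := safe_bdd φ (fun k => rep (scons w v k)) (fun k => rep_bdd _)
    have h1 := AE_le_tm (rep_bdd w)
    have h2 := AE_le_tm (Bdd.FF k)
    refine (hL'.and (hw.and (hk.and (h1.and h2)))).mono fun i hi => ?_
    obtain ⟨e1, e2, e3, e4, e5⟩ := hi
    rw [rep_scons] at e2 e3
    refine ⟨rep w i, by omega, ?_, ?_⟩
    · rw [Fm.safe_congr _ _ (hdec i (rep w i) e1)]
      exact φ.safe_mono e5 e3
    · rw [Fm.ev_congr _ _ (hdec i (rep w i) e1)]
      exact e2
  · intro h
    obtain ⟨s, hs⟩ := fmEnum_surj φ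
    have h1 : AE fun i => AA φ (encode (L i)) (B (B (max i (encode (L i))))) (NN i) := by
      refine (h.and ((AE_ge (s + 1)).and ((AE_ge (cs s)).and (AE_le_tm hb)))).mono fun i hi => ?_
      obtain ⟨e1, e2, e3, e4⟩ := hi
      subst hs
      exact NN_good i s (by omega) e3 _ (by omega) e1
    have h2 : AE fun i => ∃ w, w ≤ B (B (max i (encode (L i)))) ∧
        φ.ev (orcSet (NN i)) (scons w fun k => rep (v k) i) := by
      refine (h1.and hL').mono fun i hi => ?_
      obtain ⟨⟨w, hw1, hw2, hw3⟩, e1⟩ := hi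
      refine ⟨w, by omega, ?_⟩
      rwa [Fm.ev_congr _ _ (hdec i w e1)] at hw3
    classical
    let f : ℕ → ℕ := fun i => if hi : ∃ w, w ≤ B (B (max i (encode (L i)))) ∧
        φ.ev (orcSet (NN i)) (scons w fun k => rep (v k) i) then hi.choose else 0
    have hf : AE fun i => f i ≤ B (B (max i (encode (L i)))) ∧
        φ.ev (orcSet (NN i)) (scons (f i) fun k => rep (v k) i) := by
      refine h2.mono fun i hi => ?_
      have : f i = hi.choose := dif_pos hi
      rw [this]
      exact hi.choose_spec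
    have hfb : Bdd f := (((Bdd.id.max hb).B).B).of_le (hf.mono fun i hi => hi.1)
    refine ⟨mk f hfb, ?_⟩
    rw [graph_gg, los]
    have h3 : AE fun i => φ.ev (orcSet (NN i)) (fun k => scons f (fun k => rep (v k)) k i) := by
      refine hf.mono fun i hi => ?_
      rw [scons_seq]
      exact hi.2
    refine (ev_seq_congr (fun i => orcSet (NN i)) φ (fun k => ?_)).1 h3
    cases k with
    | zero => exact (rep_mk f hfb).mono fun i hi => hi.symm
    | succ k => exact AE_of_all fun i => rfl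

/-- The list of the first `K` parameters. -/
noncomputable def pc (c : ℕ → MM) (K i : ℕ) : List ℕ := (List.range K).map fun k => rep (c k) i

theorem pc_bdd (c : ℕ → MM) (K : ℕ) : Bdd fun i => encode (pc c K i) := by
  have := Bdd.list ((List.range K).map fun k => rep (c k)) (by
    intro f hf
    simp only [List.mem_map] at hf
    obtain ⟨k, _, rfl⟩ := hf
    exact rep_bdd _)
  refine this.of_le (AE_of_all fun i => ?_)
  simp only [List.map_map]
  exact le_of_eq rfl

theorem cons_bdd {f : ℕ → ℕ} {L : ℕ → List ℕ} (hf : Bdd f) (hL : Bdd fun i => encode (L i)) :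
    Bdd fun i => encode (f i :: L i) := by
  refine ((hf.pair hL).add (Bdd.const 1)).of_le (AE_of_all fun i => ?_)
  simp [Encodable.encode_list_cons]

theorem appv_cons_nil {M : Type} [CommSemiring M] [LinearOrder M] (x : M) (c : ℕ → M) :
    appv ![x] c = scons x c := by
  have h := appv_cons (n := 0) x ![] c
  have h2 : appv (![] : Fin 0 → M) c = c := by funext k; simp [appv]
  rw [h2] at h
  exact h

theorem appv_pair {M : Type} [CommSemiring M] [LinearOrder M] (x y : M) (c : ℕ → M) :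
    appv ![x, y] c = scons x (scons y c) := by
  have h := appv_cons (n := 1) x ![y] c
  rw [appv_cons_nil] at h
  exact h

theorem ISigma1_gg : ISigma1 {graph gg} := by
  intro R hR h0 hs
  obtain ⟨Q, hQ, hRQ⟩ := hR
  obtain ⟨φ, c, _, hφ⟩ := hQ.toFm
  -- the internal predicate
  let Ξ : ℕ → ℕ → Prop := fun i x => AA φ (encode (x :: pc c φ.bd i)) (tm i) (NN i)
  have key : ∀ (x : MM) (f : ℕ → ℕ), (AE fun i => f i = rep x i) →
      (R ![x] ↔ AE fun i => Ξ i (f i)) := by
    intro x f hf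
    have hfb : Bdd f := (rep_bdd x).of_le (hf.mono fun i hi => hi.le)
    rw [hRQ]
    simp only [hφ]
    have e : ∀ w : MM, appv (Fin.cons w ![x] : Fin 2 → MM) c = scons w (scons x c) := by
      intro w
      rw [appv_cons, appv_cons_nil]
    simp only [e]
    refine fund φ (scons x c) (fun i => f i :: pc c φ.bd i) (fun k hk => ?_)
      (cons_bdd hfb (pc_bdd c _))
    cases k with
    | zero => exact hf
    | succ k =>
      refine AE_of_all fun i => ?_
      rw [lval_cons]
      exact lval_range_map (by omega) _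
  by_contra hcon
  push Not at hcon
  obtain ⟨b, hb⟩ := hcon
  rw [key b (rep b) (AE_of_all fun _ => rfl), ← AE_not] at hb
  rw [key 0 (fun _ => 0) (rep_zero.mono fun i hi => hi.symm)] at h0
  have h1 : AE fun i => ∃ x, x < rep b i ∧ Ξ i x ∧ ¬ Ξ i (x + 1) := by
    refine (h0.and hb).mono fun i hi => ?_
    by_contra hno
    push Not at hno
    have : ∀ x, x ≤ rep b i → Ξ i x := by
      intro x
      induction x with
      | zero => intro _; exact hi.1
      | succ x ih => intro hx; exact hno x (by omega) (ih (by omega))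
    exact hi.2 (this _ le_rfl)
  classical
  let f : ℕ → ℕ := fun i => if hi : ∃ x, x < rep b i ∧ Ξ i x ∧ ¬ Ξ i (x + 1) then hi.choose else 0
  have hf : AE fun i => f i < rep b i ∧ Ξ i (f i) ∧ ¬ Ξ i (f i + 1) := by
    refine h1.mono fun i hi => ?_
    have : f i = hi.choose := dif_pos hi
    rw [this]
    exact hi.choose_spec
  have hfb : Bdd f := exists_of_lt (x := b) (hf.mono fun i hi => hi.1.le)
  have h2 : R ![mk f hfb] := (key _ f ((rep_mk f hfb).mono fun i hi => hi.symm)).2
    (hf.mono fun i hi => hi.2.1)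
  have h3 := hs _ h2
  rw [key _ (fun i => f i + 1) (((rep_add (mk f hfb) 1).and ((rep_mk f hfb).and
    rep_one)).mono fun i hi => by rw [hi.1, hi.2.1, hi.2.2])] at h3
  obtain ⟨i, hi⟩ := (h3.and hf).exists
  exact hi.2.2.2 hi.1

theorem BSigma2_gg : BSigma2 {graph gg} := by
  intro R hR b hb
  obtain ⟨Q, ⟨S, hS, hQS⟩, hRQ⟩ := hR
  obtain ⟨φ, c, _, hφ⟩ := hS.toFm
  -- the internal predicate
  let Θ : ℕ → ℕ → ℕ → ℕ → Prop := fun i z x y =>
    ¬ AA (.neg φ) (encode (z :: x :: y :: pc c φ.bd i)) (tm i) (NN i)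
  have key : ∀ (z x y : MM) (f : ℕ → ℕ), (AE fun i => f i = rep x i) →
      (Q (Fin.cons z ![x, y]) ↔ AE fun i => Θ i (rep z i) (f i) (rep y i)) := by
    intro z x y f hf
    have hfb : Bdd f := (rep_bdd x).of_le (hf.mono fun i hi => hi.le)
    rw [hQS]
    simp only [hφ]
    have e : ∀ w : MM, appv (Fin.cons w (Fin.cons z ![x, y]) : Fin 4 → MM) c =
        scons w (scons z (scons x (scons y c))) := by
      intro w
      rw [appv_cons, appv_cons, appv_pair]
    simp only [e]
    have h := fund (.neg φ) (scons z (scons x (scons y c)))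
      (fun i => rep z i :: f i :: rep y i :: pc c φ.bd i) (fun k hk => ?_)
      (cons_bdd (rep_bdd z) (cons_bdd hfb (cons_bdd (rep_bdd y) (pc_bdd c _))))
    · have h' := not_congr h
      rw [← AE_not] at h'
      rw [← h']
      simp only [Fm.ev]
      push Not
      rfl
    · rcases k with _ | _ | _ | k
      · exact AE_of_all fun i => rfl
      · exact hf
      · exact AE_of_all fun i => rfl
      · refine AE_of_all fun i => ?_
        simp only [lval_cons, scons_succ]
        exact lval_range_map (by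
          have : (Fm.neg φ).bd = φ.bd := rfl
          omega) _
  have hreg := regular (fun i x u => ∃ y, y ≤ u ∧ ∃ z, z ≤ u ∧ Θ i z x y)
    (fun i x u u' h => by
      rintro ⟨y, hy, z, hz, h1⟩
      exact ⟨y, le_trans hy h, z, le_trans hz h, h1⟩) (rep b) (fun x hx => by
      have hxb : Bdd x := exists_of_lt (x := b) (hx.mono fun i hi => hi.le)
      have hlt : mk x hxb < b := by
        rw [MM_lt_iff]
        exact (hx.and (rep_mk x hxb)).mono fun i hi => by rw [hi.2]; exact hi.1
      obtain ⟨y, hy⟩ := hb _ hlt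
      rw [hRQ] at hy
      obtain ⟨z, hz⟩ := hy
      rw [key z (mk x hxb) y x ((rep_mk x hxb).mono fun i hi => hi.symm)] at hz
      obtain ⟨k, hk⟩ := (rep_bdd y).max (rep_bdd z)
      refine ⟨k, (hz.and hk).mono fun i hi => ?_⟩
      exact ⟨rep y i, le_trans (le_max_left _ _) hi.2, rep z i,
        le_trans (le_max_right _ _) hi.2, hi.1⟩)
  obtain ⟨k, hk⟩ := hreg
  refine ⟨mk (fun i => FF i (k + 1)) (Bdd.FF (k + 1)), fun x hx => ?_⟩
  rw [MM_lt_iff] at hx
  have h1 : AE fun i => ∃ p : ℕ × ℕ, p.1 ≤ FF i k ∧ p.2 ≤ FF i k ∧ Θ i p.2 (rep x i) p.1 := by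
    refine (hk.and hx).mono fun i hi => ?_
    obtain ⟨y, hy, z, hz, h2⟩ := hi.1 _ hi.2
    exact ⟨(y, z), hy, hz, h2⟩
  classical
  let f : ℕ → ℕ × ℕ := fun i => if hi : ∃ p : ℕ × ℕ, p.1 ≤ FF i k ∧ p.2 ≤ FF i k ∧
    Θ i p.2 (rep x i) p.1 then hi.choose else 0
  have hf : AE fun i => (f i).1 ≤ FF i k ∧ (f i).2 ≤ FF i k ∧
      Θ i (f i).2 (rep x i) (f i).1 := by
    refine h1.mono fun i hi => ?_
    have : f i = hi.choose := dif_pos hi
    rw [this]
    exact hi.choose_spec
  have hyb : Bdd fun i => (f i).1 := (Bdd.FF k).of_le (hf.mono fun i hi => hi.1)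
  have hzb : Bdd fun i => (f i).2 := (Bdd.FF k).of_le (hf.mono fun i hi => hi.2.1)
  refine ⟨mk _ hyb, ?_, ?_⟩
  · rw [MM_lt_iff]
    refine (hf.and ((rep_mk _ hyb).and (rep_mk _ (Bdd.FF (k + 1))))).mono fun i hi => ?_
    rw [hi.2.1, hi.2.2]
    exact lt_of_le_of_lt hi.1.1 (FF_strictMono i (Nat.lt_succ_self k))
  · rw [hRQ]
    refine ⟨mk _ hzb, ?_⟩
    rw [key _ x _ (rep x) (AE_of_all fun _ => rfl)]
    refine (hf.and ((rep_mk _ hyb).and (rep_mk _ hzb))).mono fun i hi => ?_
    rw [hi.2.1, hi.2.2]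
    exact hi.1.2.2

end Pool.Agent.helper82.DP
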