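import Pool.Agent.helper82.DP.Syntax

/-!
# Primitive recursive functions have `Σ₁`-definable graphs over `ℕ`
-/

namespace Pool.Agent.helper82.DP

/-- `Σ₁`-definable relations on `ℕ` (as relations of streams). -/
def SN (R : (ℕ → ℕ) → Prop) : Prop :=
  ∃ φ : Fm, ∀ v, R v ↔ ∃ w, φ.ev (∅ : Set ℕ) (scons w v)

theorem SN.congr {R S : (ℕ → ℕ) → Prop} (hR : SN R) (h : ∀ v, S v ↔ R v) : SN S := by
  obtain ⟨φ, hφ⟩ := hR
  exact ⟨φ, fun v => (h v).trans (hφ v)⟩

theorem SN.of_fm (φ : Fm) : SN fun v => φ.ev ∅ v :=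
  ⟨φ.ren Nat.succ, fun v => by simp [Fm.ev_ren]⟩

theorem SN.ren {R : (ℕ → ℕ) → Prop} (hR : SN R) (ρ : ℕ → ℕ) : SN fun v => R fun k => v (ρ k) := by
  obtain ⟨φ, hφ⟩ := hR
  refine ⟨φ.ren (up ρ), fun v => ?_⟩
  simp only [hφ, Fm.ev_ren, scons_up]

/-- The renaming inserting one variable after the first. -/
def ins1 : ℕ → ℕ
  | 0 => 0
  | k + 1 => k + 2

/-- The renaming inserting one variable after the first two. -/
def ins2 : ℕ → ℕ
  | 0 => 0
  | 1 => 1
  | k + 2 => k + 3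

theorem scons_ins1 {α : Type} (x y : α) (v : ℕ → α) :
    (fun k => scons x (scons y v) (ins1 k)) = scons x v := by
  funext k
  cases k <;> rfl

theorem scons_ins2 {α : Type} (x y z : α) (v : ℕ → α) :
    (fun k => scons x (scons y (scons z v)) (ins2 k)) = scons x (scons y v) := by
  funext k
  rcases k with _ | _ | k <;> rfl

theorem SN.ex {R : (ℕ → ℕ) → Prop} (hR : SN R) : SN fun v => ∃ x, R (scons x v) := by
  obtain ⟨φ, hφ⟩ := hR
  refine ⟨.bex (.add (.var 0) (.num 1)) (.bex (.add (.var 1) (.num 1)) (φ.ren ins2)),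
    fun v => ?_⟩
  simp only [hφ, Fm.ev, Fm.ev_ren, scons_ins2, Tm.ev]
  constructor
  · rintro ⟨x, w, h⟩
    refine ⟨max x w, x, ?_, w, ?_, h⟩
    · show x < max x w + ((1 : ℕ) : ℕ)
      simp
    · show w < max x w + ((1 : ℕ) : ℕ)
      simp
  · rintro ⟨W, x, _, w, _, h⟩
    exact ⟨x, w, h⟩

theorem SN.and {R S : (ℕ → ℕ) → Prop} (hR : SN R) (hS : SN S) : SN fun v => R v ∧ S v := by
  obtain ⟨φ, hφ⟩ := hR
  obtain ⟨ψ, hψ⟩ := hS
  refine ⟨.and (.bex (.add (.var 0) (.num 1)) (φ.ren ins1))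
    (.bex (.add (.var 0) (.num 1)) (ψ.ren ins1)), fun v => ?_⟩
  simp only [hφ, hψ, Fm.ev, Fm.ev_ren, scons_ins1, Tm.ev]
  constructor
  · rintro ⟨⟨x, hx⟩, ⟨y, hy⟩⟩
    refine ⟨max x y, ⟨x, ?_, hx⟩, ⟨y, ?_, hy⟩⟩
    · show x < max x y + ((1 : ℕ) : ℕ)
      simp
    · show y < max x y + ((1 : ℕ) : ℕ)
      simp
  · rintro ⟨z, ⟨x, _, hx⟩, ⟨y, _, hy⟩⟩
    exact ⟨⟨x, hx⟩, ⟨y, hy⟩⟩

theorem SN.or {R S : (ℕ → ℕ) → Prop} (hR : SN R) (hS : SN S) : SN fun v => R v ∨ S v := by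
  obtain ⟨φ, hφ⟩ := hR
  obtain ⟨ψ, hψ⟩ := hS
  refine ⟨.neg (.and (.neg φ) (.neg ψ)), fun v => ?_⟩
  simp only [hφ, hψ, Fm.ev]
  rw [← exists_or]
  refine exists_congr fun w => ?_
  tauto

theorem SN.ball {R : (ℕ → ℕ) → Prop} (hR : SN R) (t : Tm) :
    SN fun v => ∀ x, x < t.ev v → R (scons x v) := by
  obtain ⟨φ, hφ⟩ := hR
  refine ⟨.neg (.bex (t.ren Nat.succ)
    (.neg (.bex (.add (.var 1) (.num 1)) (φ.ren ins2)))), fun v => ?_⟩
  simp only [hφ, Fm.ev, Fm.ev_ren, scons_ins2, Tm.ev, Tm.ev_ren, Nat.succ_eq_add_one, scons_succ]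
  constructor
  · intro h
    choose! w hw using h
    refine ⟨(Finset.range (t.ev v)).sup w, ?_⟩
    rintro ⟨x, hx, hx'⟩
    refine hx' ⟨w x, ?_, hw x hx⟩
    show w x < (Finset.range (t.ev v)).sup w + ((1 : ℕ) : ℕ)
    exact Nat.lt_succ_of_le (Finset.le_sup (f := w) (Finset.mem_range.2 hx))
  · rintro ⟨W, hW⟩ x hx
    by_contra hcon
    refine hW ⟨x, hx, ?_⟩
    rintro ⟨w, _, hw⟩
    exact hcon ⟨w, hw⟩

theorem SN.eq (s t : Tm) : SN fun v => s.ev v = t.ev v := SN.of_fm (.eq s t)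

theorem SN.lt (s t : Tm) : SN fun v => s.ev v < t.ev v := SN.of_fm (.lt s t)

/-- The relation `v 2 = pair (v 0) (v 1)`. -/
theorem SN.pair : SN fun v => v 2 = Nat.pair (v 0) (v 1) := by
  have h1 : SN fun v => (v 0 < v 1 ∧ v 2 = v 1 * v 1 + v 0) ∨
      (v 1 < v 0 + 1 ∧ v 2 = v 0 * v 0 + v 0 + v 1) :=
    ((SN.lt (.var 0) (.var 1)).and
      (SN.eq (.var 2) (.add (.mul (.var 1) (.var 1)) (.var 0)))).or
    ((SN.lt (.var 1) (.add (.var 0) (.num 1))).and
      (SN.eq (.var 2) (.add (.add (.mul (.var 0) (.var 0)) (.var 0)) (.var 1))))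
  refine h1.congr fun v => ?_
  unfold Nat.pair
  split_ifs with h
  · constructor
    · intro h'; exact Or.inl ⟨h, h'⟩
    · rintro (⟨_, h'⟩ | ⟨h', _⟩)
      · exact h'
      · omega
  · constructor
    · intro h'; exact Or.inr ⟨by omega, h'⟩
    · rintro (⟨h', _⟩ | ⟨_, h'⟩)
      · exact absurd h' h
      · exact h'

/-- A relation with the three variables `i, j, k`. -/
theorem SN.pair' (i j k : ℕ) : SN fun v => v k = Nat.pair (v i) (v j) :=
  SN.pair.ren fun n => if n = 0 then i else if n = 1 then j else k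

theorem SN.fn {f : ℕ → ℕ} (hf : SN fun v => v 1 = f (v 0)) (i j : ℕ) :
    SN fun v => v j = f (v i) :=
  hf.ren fun n => if n = 0 then i else j

/-- The relation `v 2 = beta (v 0) (v 1)`. -/
theorem SN.beta : SN fun v => v 2 = Nat.beta (v 0) (v 1) := by
  -- context: q = 0, w = 1, u = 2, s = 3, i = 4, x = 5
  have h : SN fun v => (v 3 = Nat.pair (v 2) (v 1) ∧
      v 2 = v 0 * ((v 4 + 1) * v 1 + 1) + v 5) ∧ v 5 < (v 4 + 1) * v 1 + 1 := by
    have h1 := SN.eq (.var 2) (.add (.mul (.var 0) (.add (.mul (.add (.var 4) (.num 1))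
      (.var 1)) (.num 1))) (.var 5))
    have h2 := SN.lt (.var 5) (.add (.mul (.add (.var 4) (.num 1)) (.var 1)) (.num 1))
    refine (((SN.pair' 2 1 3).and h1).and h2).congr fun v => ?_
    simp [Tm.ev]
  refine h.ex.ex.ex.congr fun v => ?_
  constructor
  · intro hv
    refine ⟨(v 0).unpair.1, (v 0).unpair.2,
      (v 0).unpair.1 / ((v 1 + 1) * (v 0).unpair.2 + 1), ?_⟩
    show (v 0 = Nat.pair (v 0).unpair.1 (v 0).unpair.2 ∧
      (v 0).unpair.1 = ((v 0).unpair.1 / ((v 1 + 1) * (v 0).unpair.2 + 1)) *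
        ((v 1 + 1) * (v 0).unpair.2 + 1) + v 2) ∧ v 2 < (v 1 + 1) * (v 0).unpair.2 + 1
    refine ⟨⟨by simp, ?_⟩, ?_⟩
    · rw [hv, Nat.beta]
      exact (Nat.div_add_mod' _ _).symm
    · rw [hv, Nat.beta]
      exact Nat.mod_lt _ (Nat.succ_pos _)
  · rintro ⟨u, w, q, hv⟩
    change (v 0 = Nat.pair u w ∧ u = q * ((v 1 + 1) * w + 1) + v 2) ∧
      v 2 < (v 1 + 1) * w + 1 at hv
    obtain ⟨⟨h1, h2⟩, h3⟩ := hv
    rw [Nat.beta, h1, Nat.unpair_pair]
    simp only
    rw [h2, Nat.mul_add_mod_self_right, Nat.mod_eq_of_lt h3]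

theorem SN.beta' (i j k : ℕ) : SN fun v => v k = Nat.beta (v i) (v j) :=
  SN.beta.ren fun n => if n = 0 then i else if n = 1 then j else k

theorem exists_beta (m : ℕ → ℕ) (n : ℕ) : ∃ s, ∀ k, k < n → Nat.beta s k = m k := by
  refine ⟨Nat.unbeta (List.map m (List.range n)), fun k hk => ?_⟩
  have h := Nat.beta_unbeta_coe (List.map m (List.range n)) ⟨k, by simpa using hk⟩
  simpa using h

theorem SN.primrec {f : ℕ → ℕ} (hf : Nat.Primrec f) : SN fun v => v 1 = f (v 0) := by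
  induction hf with
  | zero => exact (SN.eq (.var 1) (.num 0)).congr fun v => by simp [Tm.ev]
  | succ => exact (SN.eq (.var 1) (.add (.var 0) (.num 1))).congr fun v => by simp [Tm.ev]
  | left =>
    -- ∃ b, v 0 = pair (v 1) b
    refine ((SN.pair' 2 0 1).ex).congr fun v => ?_
    constructor
    · intro h
      refine ⟨(v 0).unpair.2, ?_⟩
      show v 0 = Nat.pair (v 1) (v 0).unpair.2
      rw [h]; simp
    · rintro ⟨b, hb⟩
      change v 0 = Nat.pair (v 1) b at hb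
      rw [hb]; simp
  | right =>
    refine ((SN.pair' 0 2 1).ex).congr fun v => ?_
    constructor
    · intro h
      refine ⟨(v 0).unpair.1, ?_⟩
      show v 0 = Nat.pair (v 0).unpair.1 (v 1)
      rw [h]; simp
    · rintro ⟨b, hb⟩
      change v 0 = Nat.pair b (v 1) at hb
      rw [hb]; simp
  | @pair f g _ _ ihf ihg =>
    -- context b = 0, a = 1, x = 2, y = 3
    refine ((((ihf.fn 2 1).and (ihg.fn 2 0)).and (SN.pair' 1 0 3)).ex.ex).congr fun v => ?_
    constructor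
    · intro h
      exact ⟨f (v 0), g (v 0), ⟨rfl, rfl⟩, h⟩
    · rintro ⟨a, b, ⟨h1, h2⟩, h3⟩
      change a = f (v 0) at h1
      change b = g (v 0) at h2
      change v 1 = Nat.pair a b at h3
      rw [h3, h1, h2]
  | @comp f g _ _ ihf ihg =>
    -- context a = 0, x = 1, y = 2
    refine (((ihg.fn 1 0).and (ihf.fn 0 2)).ex).congr fun v => ?_
    constructor
    · intro h
      exact ⟨g (v 0), rfl, h⟩
    · rintro ⟨a, h1, h2⟩
      change a = g (v 0) at h1
      change v 1 = f a at h2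
      rw [h2, h1]
  | @prec f g _ _ ihf ihg =>
    -- context: s = 0, n = 1, z = 2, x = 3, y = 4
    -- step: context  k = 0, s = 1, n = 2, z = 3, x = 4, y = 5
    -- inner: context: c = 0, b = 1, a = 2, e = 3, d = 4, k = 5, s = 6, n = 7, z = 8
    --  d = beta s k, a = beta s (k+1), b = pair k d, c = pair z b, a = g c
    have hstep : SN fun v => ∃ e d a b c : ℕ,
        (((((e = v 0 + 1) ∧ d = Nat.beta (v 1) (v 0)) ∧ a = Nat.beta (v 1) e) ∧
          b = Nat.pair (v 0) d) ∧ c = Nat.pair (v 3) b) ∧ a = g c := by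
      have h1 : SN fun v => v 4 = v 5 + 1 :=
        (SN.eq (.var 4) (.add (.var 5) (.num 1))).congr fun v => by simp [Tm.ev]
      exact ((((((h1.and (SN.beta' 6 5 3)).and (SN.beta' 6 4 2)).and (SN.pair' 5 3 1)).and
        (SN.pair' 8 1 0)).and (ihg.fn 0 2)).ex.ex.ex.ex.ex)
    have hstep' := hstep.ball (.var 1)
    have hzero : SN fun v => ∃ e d : ℕ, (e = 0 ∧ d = Nat.beta (v 0) e) ∧ d = f (v 2) := by
      -- context d = 0, e = 1, s = 2, n = 3, z = 4
      have h1 : SN fun v => v 1 = 0 :=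
        (SN.eq (.var 1) (.num 0)).congr fun v => by simp [Tm.ev]
      exact ((h1.and (SN.beta' 2 1 0)).and (ihf.fn 4 0)).ex.ex
    refine (((((SN.pair' 2 1 3).and hzero).and hstep').and (SN.beta' 0 1 4)).ex.ex.ex).congr
      fun v => ?_
    constructor
    · intro hv
      set z := (v 0).unpair.1 with hz
      set n := (v 0).unpair.2 with hn
      set r : ℕ → ℕ := fun m => Nat.rec (f z) (fun y IH => g (Nat.pair z (Nat.pair y IH))) m
        with hr
      obtain ⟨s, hs⟩ := exists_beta r (n + 1)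
      refine ⟨z, n, s, ⟨⟨?_, ?_⟩, ?_⟩, ?_⟩
      · show v 0 = Nat.pair z n
        rw [hz, hn]; simp
      · show ∃ e d : ℕ, (e = 0 ∧ d = Nat.beta s e) ∧ d = f z
        exact ⟨0, f z, ⟨rfl, (hs 0 (Nat.succ_pos n)).symm⟩, rfl⟩
      · intro k hk
        change k < n at hk
        show ∃ e d a b c : ℕ,
          (((((e = k + 1) ∧ d = Nat.beta s k) ∧ a = Nat.beta s e) ∧
            b = Nat.pair k d) ∧ c = Nat.pair z b) ∧ a = g c
        refine ⟨k + 1, r k, r (k + 1), _, _, ⟨⟨⟨⟨rfl, ?_⟩, ?_⟩, rfl⟩, rfl⟩, ?_⟩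
        · exact (hs k (by omega)).symm
        · exact (hs (k + 1) (by omega)).symm
        · rfl
      · show v 1 = Nat.beta s n
        rw [hs n (Nat.lt_succ_self n), hv]
    · rintro ⟨z, n, s, ⟨⟨h1, h2⟩, h3⟩, h4⟩
      change v 0 = Nat.pair z n at h1
      change ∃ e d : ℕ, (e = 0 ∧ d = Nat.beta s e) ∧ d = f z at h2
      change ∀ k, k < n → ∃ e d a b c : ℕ,
          (((((e = k + 1) ∧ d = Nat.beta s k) ∧ a = Nat.beta s e) ∧
            b = Nat.pair k d) ∧ c = Nat.pair z b) ∧ a = g c at h3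
      change v 1 = Nat.beta s n at h4
      obtain ⟨e, d, ⟨rfl, hd⟩, hd'⟩ := h2
      have key : ∀ k, k ≤ n →
          Nat.beta s k = Nat.rec (f z) (fun y IH => g (Nat.pair z (Nat.pair y IH))) k := by
        intro k
        induction k with
        | zero => intro _; rw [← hd, hd']; rfl
        | succ k ih =>
          intro hk
          obtain ⟨e, d, a, b, c, ⟨⟨⟨⟨he, hd⟩, ha⟩, hb⟩, hc⟩, hac⟩ := h3 k (by omega)
          subst he
          rw [← ha, hac, hc, hb, hd, ih (by omega)]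
      rw [h4, key n le_rfl, h1]
      simp [Nat.unpaired]

/-- Every primitive recursive predicate on `ℕ` is `Σ₁`-definable by a pure bounded formula. -/
theorem PrimrecPred.sn {p : ℕ → Prop} (hp : PrimrecPred p) : SN fun v => p (v 0) := by
  classical
  have hf : Nat.Primrec fun n => if p n then 1 else 0 := by
    have h : Primrec fun n : ℕ => if p n then (1 : ℕ) else 0 :=
      Primrec.ite hp (Primrec.const 1) (Primrec.const 0)
    exact Primrec.nat_iff.1 h
  have h1 : SN fun v => v 0 = 1 := (SN.eq (.var 0) (.num 1)).congr fun v => by simp [Tm.ev]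
  refine (((SN.fn (f := fun n => if p n then 1 else 0) (SN.primrec hf) 1 0).and h1).ex).congr
    fun v => ?_
  constructor
  · intro h
    refine ⟨1, ?_, rfl⟩
    show 1 = if p (v 0) then 1 else 0
    rw [if_pos h]
  · rintro ⟨x, h1, h2⟩
    change x = if p (v 0) then 1 else 0 at h1
    change x = 1 at h2
    by_contra hcon
    rw [if_neg hcon, h2] at h1
    exact one_ne_zero h1

end Pool.Agent.helper82.DP
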