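import Pool.Agent.helper82.DP.Defs

/-!
# Bounded formulas: syntax, evaluation over semirings, primitive recursiveness over `ℕ`
-/

set_option linter.unusedSectionVars false

namespace Pool.Agent.helper82.DP

/-- Stream cons. -/
def scons {α : Type} (x : α) (v : ℕ → α) : ℕ → α
  | 0 => x
  | k + 1 => v k

@[simp] theorem scons_zero {α : Type} (x : α) (v : ℕ → α) : scons x v 0 = x := rfl
@[simp] theorem scons_succ {α : Type} (x : α) (v : ℕ → α) (k : ℕ) : scons x v (k + 1) = v k := rfl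

/-- Terms of arithmetic. -/
inductive Tm : Type
  | var (k : ℕ) : Tm
  | num (c : ℕ) : Tm
  | add (s t : Tm) : Tm
  | mul (s t : Tm) : Tm
  deriving Encodable

/-- Bounded formulas of arithmetic with one set variable. -/
inductive Fm : Type
  | eq (s t : Tm) : Fm
  | lt (s t : Tm) : Fm
  | orc (t : Tm) : Fm
  | neg (φ : Fm) : Fm
  | and (φ ψ : Fm) : Fm
  | bex (t : Tm) (φ : Fm) : Fm
  deriving Encodable

instance : Inhabited Fm := ⟨Fm.eq (Tm.num 0) (Tm.num 0)⟩

/-- An enumeration of all bounded formulas. -/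
noncomputable def fmEnum : ℕ → Fm := Classical.choose (exists_surjective_nat Fm)

theorem fmEnum_surj : Function.Surjective fmEnum := Classical.choose_spec (exists_surjective_nat Fm)

section

variable {R : Type} [Semiring R] [LT R]

/-- Evaluation of terms. -/
def Tm.ev (v : ℕ → R) : Tm → R
  | .var k => v k
  | .num c => (c : R)
  | .add s t => s.ev v + t.ev v
  | .mul s t => s.ev v * t.ev v

/-- Evaluation of bounded formulas. -/
def Fm.ev (G : Set R) : Fm → (ℕ → R) → Prop
  | .eq s t, v => s.ev v = t.ev v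
  | .lt s t, v => s.ev v < t.ev v
  | .orc t, v => t.ev v ∈ G
  | .neg φ, v => ¬ φ.ev G v
  | .and φ ψ, v => φ.ev G v ∧ ψ.ev G v
  | .bex t φ, v => ∃ x, x < t.ev v ∧ φ.ev G (scons x v)

end

/-- Renaming of variables in terms. -/
def Tm.ren (ρ : ℕ → ℕ) : Tm → Tm
  | .var k => .var (ρ k)
  | .num c => .num c
  | .add s t => .add (s.ren ρ) (t.ren ρ)
  | .mul s t => .mul (s.ren ρ) (t.ren ρ)

/-- Lift of a renaming under a binder. -/
def up (ρ : ℕ → ℕ) : ℕ → ℕ
  | 0 => 0
  | k + 1 => ρ k + 1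

/-- Renaming of variables in formulas. -/
def Fm.ren : (ℕ → ℕ) → Fm → Fm
  | ρ, .eq s t => .eq (s.ren ρ) (t.ren ρ)
  | ρ, .lt s t => .lt (s.ren ρ) (t.ren ρ)
  | ρ, .orc t => .orc (t.ren ρ)
  | ρ, .neg φ => .neg (φ.ren ρ)
  | ρ, .and φ ψ => .and (φ.ren ρ) (ψ.ren ρ)
  | ρ, .bex t φ => .bex (t.ren ρ) (φ.ren (up ρ))

section

variable {R : Type} [Semiring R] [LT R]

theorem Tm.ev_ren (t : Tm) (ρ : ℕ → ℕ) (v : ℕ → R) :
    (t.ren ρ).ev v = t.ev fun k => v (ρ k) := by
  induction t with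
  | var k => rfl
  | num c => rfl
  | add s t ih1 ih2 => simp [Tm.ren, Tm.ev, ih1, ih2]
  | mul s t ih1 ih2 => simp [Tm.ren, Tm.ev, ih1, ih2]

theorem scons_up (x : R) (v : ℕ → R) (ρ : ℕ → ℕ) :
    (fun k => scons x v (up ρ k)) = scons x fun k => v (ρ k) := by
  funext k
  cases k <;> rfl

theorem Fm.ev_ren (G : Set R) (φ : Fm) : ∀ (ρ : ℕ → ℕ) (v : ℕ → R),
    (φ.ren ρ).ev G v ↔ φ.ev G fun k => v (ρ k) := by
  induction φ with
  | eq s t => intro ρ v; simp [Fm.ren, Fm.ev, Tm.ev_ren]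
  | lt s t => intro ρ v; simp [Fm.ren, Fm.ev, Tm.ev_ren]
  | orc t => intro ρ v; simp [Fm.ren, Fm.ev, Tm.ev_ren]
  | neg φ ih => intro ρ v; simp [Fm.ren, Fm.ev, ih]
  | and φ ψ ih1 ih2 => intro ρ v; simp [Fm.ren, Fm.ev, ih1, ih2]
  | bex t φ ih => intro ρ v; simp [Fm.ren, Fm.ev, ih, Tm.ev_ren, scons_up]

end

/-- A strict bound for the variables of a term. -/
def Tm.bd : Tm → ℕ
  | .var k => k + 1
  | .num _ => 0
  | .add s t => max s.bd t.bd
  | .mul s t => max s.bd t.bd

/-- A strict bound for the free variables of a formula. -/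
def Fm.bd : Fm → ℕ
  | .eq s t => max s.bd t.bd
  | .lt s t => max s.bd t.bd
  | .orc t => t.bd
  | .neg φ => φ.bd
  | .and φ ψ => max φ.bd ψ.bd
  | .bex t φ => max t.bd φ.bd

section

variable {R : Type} [Semiring R] [LT R]

theorem Tm.ev_congr (t : Tm) {v w : ℕ → R} (h : ∀ k, k < t.bd → v k = w k) :
    t.ev v = t.ev w := by
  induction t with
  | var k => exact h k (Nat.lt_succ_self k)
  | num c => rfl
  | add s t ih1 ih2 =>
    simp only [Tm.ev]
    rw [ih1 fun k hk => h k (lt_of_lt_of_le hk (le_max_left _ _)),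
      ih2 fun k hk => h k (lt_of_lt_of_le hk (le_max_right _ _))]
  | mul s t ih1 ih2 =>
    simp only [Tm.ev]
    rw [ih1 fun k hk => h k (lt_of_lt_of_le hk (le_max_left _ _)),
      ih2 fun k hk => h k (lt_of_lt_of_le hk (le_max_right _ _))]

theorem Fm.ev_congr (G : Set R) (φ : Fm) : ∀ {v w : ℕ → R}, (∀ k, k < φ.bd → v k = w k) →
    (φ.ev G v ↔ φ.ev G w) := by
  induction φ with
  | eq s t =>
    intro v w h
    simp only [Fm.ev]
    rw [s.ev_congr fun k hk => h k (lt_of_lt_of_le hk (le_max_left _ _)),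
      t.ev_congr fun k hk => h k (lt_of_lt_of_le hk (le_max_right _ _))]
  | lt s t =>
    intro v w h
    simp only [Fm.ev]
    rw [s.ev_congr fun k hk => h k (lt_of_lt_of_le hk (le_max_left _ _)),
      t.ev_congr fun k hk => h k (lt_of_lt_of_le hk (le_max_right _ _))]
  | orc t =>
    intro v w h
    simp only [Fm.ev]
    rw [t.ev_congr h]
  | neg φ ih =>
    intro v w h
    simp only [Fm.ev]
    rw [ih h]
  | and φ ψ ih1 ih2 =>
    intro v w h
    simp only [Fm.ev]
    rw [ih1 fun k hk => h k (lt_of_lt_of_le hk (le_max_left _ _)),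
      ih2 fun k hk => h k (lt_of_lt_of_le hk (le_max_right _ _))]
  | bex t φ ih =>
    intro v w h
    simp only [Fm.ev]
    rw [t.ev_congr fun k hk => h k (lt_of_lt_of_le hk (le_max_left _ _))]
    refine exists_congr fun x => and_congr_right fun _ => ih fun k hk => ?_
    cases k with
    | zero => rfl
    | succ k =>
      exact h k (by
        have : φ.bd ≤ (Fm.bex t φ).bd := le_max_right _ _
        omega)

end

/-- The set of codes of the graph of `x ↦ N mod 2 ^ (x + 2)`. -/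
def orcSet (N : ℕ) : Set ℕ :=
  {z | ∃ x, x < z + 1 ∧ z = (x + N % 2 ^ (x + 2)) * (x + N % 2 ^ (x + 2)) + x}

/-- All oracle queries in the evaluation of the formula are at most `t`. -/
def Fm.safe (t : ℕ) : Fm → (ℕ → ℕ) → Prop
  | .eq _ _, _ => True
  | .lt _ _, _ => True
  | .orc s, v => s.ev v ≤ t
  | .neg φ, v => φ.safe t v
  | .and φ ψ, v => φ.safe t v ∧ ψ.safe t v
  | .bex s φ, v => ∀ x, x < s.ev v → φ.safe t (scons x v)

theorem Fm.safe_mono (φ : Fm) : ∀ {t t' : ℕ} {v : ℕ → ℕ}, t ≤ t' → φ.safe t v → φ.safe t' v := by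
  induction φ with
  | eq s t => intro t t' v _ _; trivial
  | lt s t => intro t t' v _ _; trivial
  | orc s => intro t t' v h1 h2; exact le_trans h2 h1
  | neg φ ih => intro t t' v h1 h2; exact ih h1 h2
  | and φ ψ ih1 ih2 => intro t t' v h1 h2; exact ⟨ih1 h1 h2.1, ih2 h1 h2.2⟩
  | bex s φ ih => intro t t' v h1 h2 x hx; exact ih h1 (h2 x hx)

theorem orcSet_local {N N' t z : ℕ} (h : N % 2 ^ (t + 2) = N' % 2 ^ (t + 2)) (hz : z ≤ t) :
    z ∈ orcSet N ↔ z ∈ orcSet N' := by
  unfold orcSet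
  simp only [Set.mem_ofPred_eq]
  refine exists_congr fun x => and_congr_right fun hx => ?_
  have hxt : x + 2 ≤ t + 2 := by omega
  have h1 : N % 2 ^ (x + 2) = N' % 2 ^ (x + 2) := by
    have hd : 2 ^ (x + 2) ∣ 2 ^ (t + 2) := pow_dvd_pow 2 hxt
    rw [← Nat.mod_mod_of_dvd N hd, ← Nat.mod_mod_of_dvd N' hd, h]
  rw [h1]

theorem Fm.ev_local {N N' t : ℕ} (h : N % 2 ^ (t + 2) = N' % 2 ^ (t + 2)) (φ : Fm) :
    ∀ {v : ℕ → ℕ}, φ.safe t v → (φ.ev (orcSet N) v ↔ φ.ev (orcSet N') v) := by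
  induction φ with
  | eq s t => intro v _; rfl
  | lt s t => intro v _; rfl
  | orc s => intro v hs; exact orcSet_local h hs
  | neg φ ih => intro v hs; exact not_congr (ih hs)
  | and φ ψ ih1 ih2 => intro v hs; exact and_congr (ih1 hs.1) (ih2 hs.2)
  | bex s φ ih =>
    intro v hs
    exact exists_congr fun x => and_congr_right fun hx => ih (hs x hx)

/-! ### Primitive recursiveness -/

/-- The valuation given by a list. -/
def lval (L : List ℕ) : ℕ → ℕ := fun k => L.getD k 0

theorem lval_cons (x : ℕ) (L : List ℕ) : lval (x :: L) = scons x (lval L) := by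
  funext k
  cases k <;> simp [lval]

theorem primrec_pow2 : Primrec fun n : ℕ => 2 ^ n := by
  have h : Primrec fun n : ℕ => (Nat.rec 1 (fun _ r => r + r) n : ℕ) :=
    Primrec.nat_rec₁ 1 (Primrec.nat_add.comp Primrec.snd Primrec.snd).to₂
  refine h.of_eq fun n => ?_
  induction n with
  | zero => rfl
  | succ n ih => simp only [ih, pow_succ]; ring

theorem Tm.primrec (t : Tm) : Primrec fun L : List ℕ => t.ev (lval L) := by
  induction t with
  | var k => exact (Primrec.list_getD 0).comp Primrec.id (Primrec.const k)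
  | num c => exact Primrec.const _
  | add s t ih1 ih2 => exact Primrec.nat_add.comp ih1 ih2
  | mul s t ih1 ih2 => exact Primrec.nat_mul.comp ih1 ih2

theorem PrimrecPred.bex {α : Type} [Primcodable α] {f : α → ℕ} {p : ℕ × α → Prop}
    (hf : Primrec f) (hp : PrimrecPred p) : PrimrecPred fun a => ∃ x, x < f a ∧ p (x, a) := by
  have h1 : PrimrecRel fun (x : ℕ) (a : α) => p (x, a) := hp
  have h2 : PrimrecPred fun a : α => ∃ x ∈ List.range (f a), p (x, a) :=
    h1.exists_mem_list.comp (Primrec.list_range.comp hf) Primrec.id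
  exact h2.of_eq fun a => by simp

theorem PrimrecPred.ball {α : Type} [Primcodable α] {f : α → ℕ} {p : ℕ × α → Prop}
    (hf : Primrec f) (hp : PrimrecPred p) : PrimrecPred fun a => ∀ x, x < f a → p (x, a) := by
  have h1 : PrimrecRel fun (x : ℕ) (a : α) => p (x, a) := hp
  have h2 : PrimrecPred fun a : α => ∀ x ∈ List.range (f a), p (x, a) :=
    h1.forall_mem_list.comp (Primrec.list_range.comp hf) Primrec.id
  exact h2.of_eq fun a => by simp

theorem primrecPred_orcSet : PrimrecPred fun p : ℕ × ℕ => p.1 ∈ orcSet p.2 := by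
  unfold orcSet
  simp only [Set.mem_ofPred_eq]
  have hd : Primrec fun q : ℕ × (ℕ × ℕ) => q.1 + q.2.2 % 2 ^ (q.1 + 2) :=
    Primrec.nat_add.comp Primrec.fst (Primrec.nat_mod.comp (Primrec.snd.comp Primrec.snd)
      (primrec_pow2.comp (Primrec.nat_add.comp Primrec.fst (Primrec.const 2))))
  have hp : PrimrecPred fun q : ℕ × (ℕ × ℕ) =>
      q.2.1 = (q.1 + q.2.2 % 2 ^ (q.1 + 2)) * (q.1 + q.2.2 % 2 ^ (q.1 + 2)) + q.1 :=
    Primrec.eq.comp (Primrec.fst.comp Primrec.snd)
      (Primrec.nat_add.comp (Primrec.nat_mul.comp hd hd) Primrec.fst)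
  exact PrimrecPred.bex (Primrec.succ.comp Primrec.fst) hp

theorem Fm.primrec (φ : Fm) :
    PrimrecPred fun p : ℕ × List ℕ => φ.ev (orcSet p.1) (lval p.2) := by
  induction φ with
  | eq s t =>
    exact Primrec.eq.comp (s.primrec.comp Primrec.snd) (t.primrec.comp Primrec.snd)
  | lt s t =>
    exact Primrec.nat_lt.comp (s.primrec.comp Primrec.snd) (t.primrec.comp Primrec.snd)
  | orc t =>
    exact primrecPred_orcSet.comp (Primrec.pair (t.primrec.comp Primrec.snd) Primrec.fst)
  | neg φ ih => exact ih.not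
  | and φ ψ ih1 ih2 => exact ih1.and ih2
  | bex t φ ih =>
    have hp : PrimrecPred fun q : ℕ × (ℕ × List ℕ) =>
        φ.ev (orcSet q.2.1) (lval (q.1 :: q.2.2)) :=
      ih.comp (Primrec.pair (Primrec.fst.comp Primrec.snd)
        (Primrec.list_cons.comp Primrec.fst (Primrec.snd.comp Primrec.snd)))
    have h := PrimrecPred.bex (t.primrec.comp Primrec.snd) hp
    simp only [lval_cons] at h
    exact h

theorem Fm.primrec_safe (φ : Fm) :
    PrimrecPred fun p : ℕ × List ℕ => φ.safe p.1 (lval p.2) := by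
  induction φ with
  | eq s t =>
    exact ((Primrec.eq (α := ℕ)).comp (Primrec.const 0) (Primrec.const 0)).of_eq
      (fun _ => by simp [Fm.safe])
  | lt s t =>
    exact ((Primrec.eq (α := ℕ)).comp (Primrec.const 0) (Primrec.const 0)).of_eq
      (fun _ => by simp [Fm.safe])
  | orc t => exact Primrec.nat_le.comp (t.primrec.comp Primrec.snd) Primrec.fst
  | neg φ ih => exact ih
  | and φ ψ ih1 ih2 => exact ih1.and ih2
  | bex t φ ih =>
    have hp : PrimrecPred fun q : ℕ × (ℕ × List ℕ) =>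
        φ.safe q.2.1 (lval (q.1 :: q.2.2)) :=
      ih.comp (Primrec.pair (Primrec.fst.comp Primrec.snd)
        (Primrec.list_cons.comp Primrec.fst (Primrec.snd.comp Primrec.snd)))
    have h := PrimrecPred.ball (t.primrec.comp Primrec.snd) hp
    simp only [lval_cons] at h
    exact h

end Pool.Agent.helper82.DP
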