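import Pool.Agent.helper82.DP.Types

/-!
# The tree, its `Π⁰₁(∅')` definition, and the path
-/

set_option linter.unusedSectionVars false

namespace Pool.Agent.helper82.DP

open Filter Encodable Denumerable
open Nat.Partrec (Code)

/-- `U` codes the list of iterates to be consulted at argument `e`. -/
def FsM (e U : MM) : Prop := AE fun i => Fs i (rep U i) (eM (rep e i))

/-- `y` is the forbidden value at `e`, given `U`. -/
def WM (e U y : MM) : Prop := AE fun i => Wr (rep e i) (rep U i) (rep y i)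

/-- The tree. -/
def TT : Set (FinSeq MM) := {σ | ∀ e, e < σ.len → ∀ U, FsM e U → ¬ WM e U (σ.val e)}

theorem TT_isTree : IsTree TT := by
  intro σ hσ τ hτ h e he U hU
  rw [h e he]
  exact hσ e (lt_of_lt_of_le he hτ) U hU

/-- Remainders, coordinatewise. -/
theorem rem_bdd (u v x : MM) :
    Bdd fun i => rep u i % ((rep x i + 1) * rep v i + 1) :=
  (rep_bdd u).of_le (AE_of_all fun _ => Nat.mod_le _ _)

/-- Remainder. -/
noncomputable def rem (u v x : MM) : MM :=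
  mk (fun i => rep u i % ((rep x i + 1) * rep v i + 1)) (rem_bdd u v x)

theorem rep_modulus (v x : MM) :
    AE fun i => rep ((x + 1) * v + 1) i = (rep x i + 1) * rep v i + 1 := by
  refine ((rep_add ((x + 1) * v) 1).and ((rep_mul (x + 1) v).and
    ((rep_add x 1).and rep_one))).mono fun i hi => ?_
  obtain ⟨h1, h2, h3, h4⟩ := hi
  rw [h1, h2, h3, h4]

theorem isEntry_iff (u v x y : MM) :
    IsEntry u v x y ↔ AE fun i => rep y i = rep u i % ((rep x i + 1) * rep v i + 1) := by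
  constructor
  · rintro ⟨h1, q, h2⟩
    rw [MM_lt_iff] at h1
    rw [MM_eq_iff] at h2
    refine (h1.and (h2.and ((rep_modulus v x).and ((rep_add (q * ((x + 1) * v + 1)) y).and
      (rep_mul q ((x + 1) * v + 1)))))).mono fun i hi => ?_
    obtain ⟨a1, a2, a3, a4, a5⟩ := hi
    rw [a3] at a1
    rw [a2, a4, a5, a3, Nat.mul_add_mod_self_right, Nat.mod_eq_of_lt a1]
  · intro h
    have hq : Bdd fun i => rep u i / ((rep x i + 1) * rep v i + 1) :=
      (rep_bdd u).of_le (AE_of_all fun _ => Nat.div_le_self _ _)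
    refine ⟨?_, mk _ hq, ?_⟩
    · rw [MM_lt_iff]
      refine (h.and (rep_modulus v x)).mono fun i hi => ?_
      rw [hi.1, hi.2]
      exact Nat.mod_lt _ (Nat.succ_pos _)
    · rw [MM_eq_iff]
      refine (h.and ((rep_modulus v x).and ((rep_add (mk _ hq * ((x + 1) * v + 1)) y).and
        ((rep_mul (mk _ hq) ((x + 1) * v + 1)).and (rep_mk _ hq))))).mono fun i hi => ?_
      obtain ⟨a1, a2, a3, a4, a5⟩ := hi
      rw [a3, a4, a5, a2, a1]
      exact (Nat.div_add_mod' _ _).symm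

theorem isEntry_rem (u v x : MM) : IsEntry u v x (rem u v x) := by
  rw [isEntry_iff]
  exact rep_mk _ _

theorem isEntry_unique {u v x y z : MM} (h : IsEntry u v x y) (h' : IsEntry u v x z) : y = z := by
  rw [isEntry_iff] at h h'
  rw [MM_eq_iff]
  exact (h.and h').mono fun i hi => by rw [hi.1, hi.2]

/-! ### The path -/

theorem UU_of_Fs {a U m : ℕ} (h : Fs a U m) : U = UU a m := by
  unfold Fs at h
  unfold UU
  rw [← h, encode_ofNat]

theorem gg_coded (s : MM) : ∃ u v : MM, ∀ x, x < s → IsEntry u v x (gg x) := by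
  -- `z` bounds codes for all strings of length `s`
  have hr : PrimrecPred fun p : ℕ × ℕ => ∀ N, N < 2 ^ (p.1 + 2) → ∃ c, c < p.2 + 1 ∧
      ∀ x, x < p.1 → c.unpair.1 % ((x + 1) * c.unpair.2 + 1) = N % 2 ^ (x + 2) := by
    have h1 : PrimrecPred fun q : ℕ × (ℕ × (ℕ × (ℕ × ℕ))) =>
        q.2.1.unpair.1 % ((q.1 + 1) * q.2.1.unpair.2 + 1) = q.2.2.1 % 2 ^ (q.1 + 2) := by
      have c1 : Primrec fun q : ℕ × (ℕ × (ℕ × (ℕ × ℕ))) => q.2.1.unpair.1 :=
        Primrec.fst.comp (Primrec.unpair.comp (Primrec.fst.comp Primrec.snd))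
      have c2 : Primrec fun q : ℕ × (ℕ × (ℕ × (ℕ × ℕ))) => q.2.1.unpair.2 :=
        Primrec.snd.comp (Primrec.unpair.comp (Primrec.fst.comp Primrec.snd))
      exact Primrec.eq.comp
        (Primrec.nat_mod.comp c1 (Primrec.succ.comp
          (Primrec.nat_mul.comp (Primrec.succ.comp Primrec.fst) c2)))
        (Primrec.nat_mod.comp (Primrec.fst.comp (Primrec.snd.comp Primrec.snd))
          (primrec_pow2.comp (Primrec.nat_add.comp Primrec.fst (Primrec.const 2))))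
    have h2 : PrimrecPred fun q : ℕ × (ℕ × (ℕ × ℕ)) => ∀ x, x < q.2.2.1 →
        q.1.unpair.1 % ((x + 1) * q.1.unpair.2 + 1) = q.2.1 % 2 ^ (x + 2) :=
      PrimrecPred.ball (Primrec.fst.comp (Primrec.snd.comp Primrec.snd)) h1
    have h3 : PrimrecPred fun q : ℕ × (ℕ × ℕ) => ∃ c, c < q.2.2 + 1 ∧ ∀ x, x < q.2.1 →
        c.unpair.1 % ((x + 1) * c.unpair.2 + 1) = q.1 % 2 ^ (x + 2) :=
      PrimrecPred.bex (Primrec.succ.comp (Primrec.snd.comp Primrec.snd)) h2
    exact PrimrecPred.ball (primrec_pow2.comp (Primrec.nat_add.comp Primrec.fst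
      (Primrec.const 2))) h3
  obtain ⟨z, hz, hzr⟩ := primrec_le_bdd (rep_bdd s) hr (fun x => by
    have : ∀ N : ℕ, ∃ c, ∀ y, y < x → Nat.beta c y = N % 2 ^ (y + 2) := fun N => exists_beta _ _
    choose c hc using this
    refine ⟨(Finset.range (2 ^ (x + 2))).sup c, fun N hN => ⟨c N, ?_, fun y hy => hc N y hy⟩⟩
    exact Nat.lt_succ_of_le (Finset.le_sup (f := c) (Finset.mem_range.2 hN)))
  have h1 : AE fun i => ∃ c, c < z i + 1 ∧ ∀ x, x < rep s i →
      c.unpair.1 % ((x + 1) * c.unpair.2 + 1) = NN i % 2 ^ (x + 2) := by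
    refine hzr.mono fun i hi => ?_
    obtain ⟨c, hc1, hc2⟩ := hi (NN i % 2 ^ (rep s i + 2)) (Nat.mod_lt _ (by positivity))
    refine ⟨c, hc1, fun x hx => ?_⟩
    rw [hc2 x hx]
    exact Nat.mod_mod_of_dvd _ (pow_dvd_pow 2 (by omega))
  classical
  let f : ℕ → ℕ := fun i => if hi : ∃ c, c < z i + 1 ∧ ∀ x, x < rep s i →
      c.unpair.1 % ((x + 1) * c.unpair.2 + 1) = NN i % 2 ^ (x + 2) then hi.choose else 0
  have hf : AE fun i => f i < z i + 1 ∧ ∀ x, x < rep s i →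
      (f i).unpair.1 % ((x + 1) * (f i).unpair.2 + 1) = NN i % 2 ^ (x + 2) := by
    refine h1.mono fun i hi => ?_
    have : f i = hi.choose := dif_pos hi
    rw [this]
    exact hi.choose_spec
  have hfb : Bdd f := hz.of_le (hf.mono fun i hi => by omega)
  have hu : Bdd fun i => (f i).unpair.1 := hfb.of_le (AE_of_all fun i => Nat.unpair_left_le _)
  have hv : Bdd fun i => (f i).unpair.2 := hfb.of_le (AE_of_all fun i => Nat.unpair_right_le _)
  refine ⟨mk _ hu, mk _ hv, fun x hx => ?_⟩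
  rw [isEntry_iff]
  rw [MM_lt_iff] at hx
  refine (hf.and (hx.and ((rep_mk _ hu).and ((rep_mk _ hv).and
    (rep_mk _ (gg_bdd x)))))).mono fun i hi => ?_
  obtain ⟨a1, a2, a3, a4, a5⟩ := hi
  have a5' : rep (gg x) i = NN i % 2 ^ (rep x i + 2) := a5
  rw [a3, a4, a5']
  exact (a1.2 _ a2).symm

theorem gg_mem : gg ∈ paths TT := by
  classical
  intro s
  obtain ⟨u, v, huv⟩ := gg_coded s
  refine ⟨⟨s, fun i => if i < s then gg i else 0, fun i hi => if_neg (not_lt.2 hi), u, v,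
    fun i hi => ?_⟩, ?_, rfl, fun i hi => if_pos hi⟩
  · rw [if_pos hi]
    exact huv i hi
  · intro e he U hU hW
    have he' : e < s := he
    have hW' : WM e U (gg e) := by
      have : (if e < s then gg e else 0) = gg e := if_pos he'
      rw [← this]
      exact hW
    have h1 := AE_le_tm (rep_bdd e)
    obtain ⟨i, hi⟩ := ((show AE _ from hU).and ((show AE _ from hW').and
      (h1.and (rep_mk _ (gg_bdd e))))).exists
    obtain ⟨a1, a2, a3, a4⟩ := hi
    have a4' : rep (gg e) i = NN i % 2 ^ (rep e i + 2) := a4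
    rw [UU_of_Fs a1] at a2
    have h2 := badF_eq a2
    rw [a4'] at h2
    exact NN_bad i (rep e i) (by omega) h2.symm

/-! ### Definability of the tree -/

/-- Polynomial pairing. -/
def pp {M : Type} [Semiring M] (x y : M) : M := (x + y) * (x + y) + x

theorem pp_inj {x y x' y' : ℕ} (h : pp x y = pp x' y') : x = x' ∧ y = y' := by
  unfold pp at h
  have h1 : x + y = x' + y' := by
    rcases Nat.lt_trichotomy (x + y) (x' + y') with h1 | h1 | h1
    · exfalso
      have : (x + y + 1) * (x + y + 1) ≤ (x' + y') * (x' + y') := Nat.mul_le_mul h1 h1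
      nlinarith
    · exact h1
    · exfalso
      have : (x' + y' + 1) * (x' + y' + 1) ≤ (x + y) * (x + y) := Nat.mul_le_mul h1 h1
      nlinarith
  rw [h1] at h
  omega

theorem rep_pp (x y : MM) : AE fun i => rep (pp x y) i = pp (rep x i) (rep y i) := by
  unfold pp
  refine ((rep_add ((x + y) * (x + y)) x).and ((rep_mul (x + y) (x + y)).and
    (rep_add x y))).mono fun i hi => ?_
  rw [hi.1, hi.2.1, hi.2.2]

/-- `Σ₁` predicates given by primitive recursive relations. -/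
theorem SN.of_primrec {p : ℕ × ℕ → Prop} (hp : PrimrecPred p) : SN fun v => ∃ z, p (v 0, z) := by
  have hq : PrimrecPred fun n : ℕ => p n.unpair := hp.comp Primrec.unpair
  have h1 := (PrimrecPred.sn hq)
  -- context: n = 0, z = 1, x = 2
  refine ((SN.pair' 2 1 0).and h1).ex.ex.congr fun v => ?_
  constructor
  · rintro ⟨z, hz⟩
    refine ⟨z, Nat.pair (v 0) z, rfl, ?_⟩
    show p (Nat.pair (v 0) z).unpair
    rw [Nat.unpair_pair]
    exact hz
  · rintro ⟨z, n, h2, h3⟩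
    change n = Nat.pair (v 0) z at h2
    change p n.unpair at h3
    rw [h2, Nat.unpair_pair] at h3
    exact ⟨z, h3⟩

/-- The first `Σ⁰₁` set. -/
def A1 : Set MM := {z | AE fun i => ∃ t, ∃ a, a < t + 1 ∧ ∃ e, e < t + 1 ∧ ∃ U, U < t + 1 ∧
  ∃ w, w < t + 1 ∧ (rep z i = pp (pp a e) U ∧ nFs a U (eM e) w)}

/-- The second `Σ⁰₁` set. -/
def A2 : Set MM := {z | AE fun i => ∃ t, ∃ y, y < t + 1 ∧ ∃ e, e < t + 1 ∧ ∃ U, U < t + 1 ∧
  (rep z i = pp (pp e U) y ∧
    Code.evaln t (ofNat Code (eC e)) (Nat.pair U (Nat.pair (eP e) e)) = some y)}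

theorem primrec_pp {α : Type} [Primcodable α] {f g : α → ℕ} (hf : Primrec f) (hg : Primrec g) :
    Primrec fun a => pp (f a) (g a) :=
  Primrec.nat_add.comp (Primrec.nat_mul.comp (Primrec.nat_add.comp hf hg)
    (Primrec.nat_add.comp hf hg)) hf

theorem primrec_eM : Primrec eM := Primrec.fst.comp Primrec.unpair

theorem primrec_eC : Primrec eC :=
  Primrec.fst.comp (Primrec.unpair.comp (Primrec.snd.comp Primrec.unpair))

theorem primrec_eP : Primrec eP :=
  Primrec.snd.comp (Primrec.unpair.comp (Primrec.snd.comp Primrec.unpair))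

theorem A1_sigma : IsSigma1 ∅ A1 := by
  have hp : PrimrecPred fun p : ℕ × ℕ => ∃ a, a < p.2 + 1 ∧ ∃ e, e < p.2 + 1 ∧
      ∃ U, U < p.2 + 1 ∧ ∃ w, w < p.2 + 1 ∧ (p.1 = pp (pp a e) U ∧ nFs a U (eM e) w) := by
    -- (w, (U, (e, (a, (x, t)))))
    have h1 : PrimrecPred fun q : ℕ × (ℕ × (ℕ × (ℕ × (ℕ × ℕ)))) =>
        (q.2.2.2.2.1 = pp (pp q.2.2.2.1 q.2.2.1) q.2.1 ∧
          nFs q.2.2.2.1 q.2.1 (eM q.2.2.1) q.1) := by
      have cU : Primrec fun q : ℕ × (ℕ × (ℕ × (ℕ × (ℕ × ℕ)))) => q.2.1 :=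
        Primrec.fst.comp Primrec.snd
      have ce : Primrec fun q : ℕ × (ℕ × (ℕ × (ℕ × (ℕ × ℕ)))) => q.2.2.1 :=
        Primrec.fst.comp (Primrec.snd.comp Primrec.snd)
      have ca : Primrec fun q : ℕ × (ℕ × (ℕ × (ℕ × (ℕ × ℕ)))) => q.2.2.2.1 :=
        Primrec.fst.comp (Primrec.snd.comp (Primrec.snd.comp Primrec.snd))
      have cx : Primrec fun q : ℕ × (ℕ × (ℕ × (ℕ × (ℕ × ℕ)))) => q.2.2.2.2.1 :=
        Primrec.fst.comp (Primrec.snd.comp (Primrec.snd.comp (Primrec.snd.comp Primrec.snd)))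
      exact (Primrec.eq.comp cx (primrec_pp (primrec_pp ca ce) cU)).and
        (primrec_nFs.comp (Primrec.pair ca (Primrec.pair cU
          (Primrec.pair (primrec_eM.comp ce) Primrec.fst))))
    have ct2 : Primrec fun q : ℕ × (ℕ × (ℕ × (ℕ × ℕ))) => q.2.2.2.2 :=
      Primrec.snd.comp (Primrec.snd.comp (Primrec.snd.comp Primrec.snd))
    have ct3 : Primrec fun q : ℕ × (ℕ × (ℕ × ℕ)) => q.2.2.2 :=
      Primrec.snd.comp (Primrec.snd.comp Primrec.snd)
    have ct4 : Primrec fun q : ℕ × (ℕ × ℕ) => q.2.2 := Primrec.snd.comp Primrec.snd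
    have h2 := PrimrecPred.bex (Primrec.succ.comp ct2) h1
    have h3 := PrimrecPred.bex (Primrec.succ.comp ct3) h2
    have h4 := PrimrecPred.bex (Primrec.succ.comp ct4) h3
    exact PrimrecPred.bex (Primrec.succ.comp Primrec.snd) h4
  have h := (SN.of_primrec hp).sigma1 1 ∅
  exact h

theorem A2_sigma : IsSigma1 ∅ A2 := by
  have hp : PrimrecPred fun p : ℕ × ℕ => ∃ y, y < p.2 + 1 ∧ ∃ e, e < p.2 + 1 ∧
      ∃ U, U < p.2 + 1 ∧ (p.1 = pp (pp e U) y ∧
        Code.evaln p.2 (ofNat Code (eC e)) (Nat.pair U (Nat.pair (eP e) e)) = some y) := by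
    -- (U, (e, (y, (x, t))))
    have h1 : PrimrecPred fun q : ℕ × (ℕ × (ℕ × (ℕ × ℕ))) =>
        (q.2.2.2.1 = pp (pp q.2.1 q.1) q.2.2.1 ∧
          Code.evaln q.2.2.2.2 (ofNat Code (eC q.2.1))
            (Nat.pair q.1 (Nat.pair (eP q.2.1) q.2.1)) = some q.2.2.1) := by
      have ce : Primrec fun q : ℕ × (ℕ × (ℕ × (ℕ × ℕ))) => q.2.1 :=
        Primrec.fst.comp Primrec.snd
      have cy : Primrec fun q : ℕ × (ℕ × (ℕ × (ℕ × ℕ))) => q.2.2.1 :=
        Primrec.fst.comp (Primrec.snd.comp Primrec.snd)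
      have cx : Primrec fun q : ℕ × (ℕ × (ℕ × (ℕ × ℕ))) => q.2.2.2.1 :=
        Primrec.fst.comp (Primrec.snd.comp (Primrec.snd.comp Primrec.snd))
      have ct : Primrec fun q : ℕ × (ℕ × (ℕ × (ℕ × ℕ))) => q.2.2.2.2 :=
        Primrec.snd.comp (Primrec.snd.comp (Primrec.snd.comp Primrec.snd))
      have c1 : Primrec fun q : ℕ × (ℕ × (ℕ × (ℕ × ℕ))) =>
          Code.evaln q.2.2.2.2 (ofNat Code (eC q.2.1))
            (Nat.pair q.1 (Nat.pair (eP q.2.1) q.2.1)) :=
        Code.primrec_evaln.comp (Primrec.pair (Primrec.pair ct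
          ((Primrec.ofNat Code).comp (primrec_eC.comp ce)))
          (Primrec₂.natPair.comp Primrec.fst
            (Primrec₂.natPair.comp (primrec_eP.comp ce) ce)))
      exact (Primrec.eq.comp cx (primrec_pp (primrec_pp ce Primrec.fst) cy)).and
        (Primrec.eq.comp c1 (Primrec.option_some.comp cy))
    have ct3 : Primrec fun q : ℕ × (ℕ × (ℕ × ℕ)) => q.2.2.2 :=
      Primrec.snd.comp (Primrec.snd.comp Primrec.snd)
    have ct4 : Primrec fun q : ℕ × (ℕ × ℕ) => q.2.2 := Primrec.snd.comp Primrec.snd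
    have h2 := PrimrecPred.bex (Primrec.succ.comp ct3) h1
    have h3 := PrimrecPred.bex (Primrec.succ.comp ct4) h2
    exact PrimrecPred.bex (Primrec.succ.comp Primrec.snd) h3
  have h := (SN.of_primrec hp).sigma1 1 ∅
  exact h

theorem mem_A1 (e U : MM) : pp (pp (FM 0) e) U ∈ A1 ↔ ¬ FsM e U := by
  unfold FsM
  rw [← AE_not]
  show (AE fun i => _) ↔ _
  refine AE_congr ?_
  refine ((rep_pp (pp (FM 0) e) U).and ((rep_pp (FM 0) e).and (rep_FM 0))).mono fun i hi => ?_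
  obtain ⟨a1, a2, a3⟩ := hi
  rw [a1, a2, a3, FF_zero, not_Fs_iff]
  constructor
  · rintro ⟨t, a, _, e', _, U', _, w, _, h1, h2⟩
    obtain ⟨h3, h4⟩ := pp_inj h1
    obtain ⟨h5, h6⟩ := pp_inj h3
    subst h4 h5 h6
    exact ⟨w, h2⟩
  · rintro ⟨w, hw⟩
    exact ⟨i + rep e i + rep U i + w, i, by omega, rep e i, by omega, rep U i, by omega, w,
      by omega, rfl, hw⟩

theorem mem_A2 (e U y : MM) : pp (pp e U) y ∈ A2 ↔ WM e U y := by
  unfold WM
  show (AE fun i => _) ↔ _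
  refine AE_congr ?_
  refine ((rep_pp (pp e U) y).and (rep_pp e U)).mono fun i hi => ?_
  obtain ⟨a1, a2⟩ := hi
  rw [a1, a2]
  unfold Wr
  rw [Code.evaln_complete]
  constructor
  · rintro ⟨t, y', _, e', _, U', _, h1, h2⟩
    obtain ⟨h3, h4⟩ := pp_inj h1
    obtain ⟨h5, h6⟩ := pp_inj h3
    subst h4 h5 h6
    exact ⟨t, h2⟩
  · rintro ⟨k, hk⟩
    exact ⟨k + rep e i + rep U i + rep y i, rep y i, by omega, rep e i, by omega, rep U i,
      by omega, rfl, Code.evaln_mono (by omega) hk⟩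

theorem isTerm_pp {M : Type} [CommSemiring M] [LinearOrder M] {n : ℕ}
    {s t : (Fin n → M) → M} (hs : IsTerm s) (ht : IsTerm t) :
    IsTerm fun v => pp (s v) (t v) :=
  IsTerm.add (IsTerm.mul (IsTerm.add hs ht) (IsTerm.add hs ht)) hs

theorem TT_pi : IsPi1Jump TT := by
  set P : Set (Set MM) := {A : Set MM | IsSigma1 ∅ A} with hP
  -- the matrix
  let Q : (Fin 4 → MM) → Prop := fun z => ∀ e, e < z 3 → ∀ y, y < (e + 1) * z 2 + 1 →
    ((¬ (y < (e + 1) * z 2 + 1 ∧ ∃ q, q < z 1 + 1 ∧ z 1 = q * ((e + 1) * z 2 + 1) + y)) ∨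
      (pp (pp (FM 0) e) (z 0) ∈ A1 ∨ ¬ pp (pp e (z 0)) y ∈ A2))
  have hQ : Delta0 P Q := by
    -- contexts: (q, y, e, U, u, v, s)
    have h1 : Delta0 P fun z : Fin 7 → MM => z 4 = z 0 * ((z 2 + 1) * z 5 + 1) + z 1 :=
      Delta0.eq (IsTerm.var 4) (IsTerm.add (IsTerm.mul (IsTerm.var 0) (IsTerm.add (IsTerm.mul
        (IsTerm.add (IsTerm.var 2) (IsTerm.const 1)) (IsTerm.var 5)) (IsTerm.const 1)))
        (IsTerm.var 1))
    have h2 : Delta0 P fun z : Fin 6 → MM => ∃ q, q < z 3 + 1 ∧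
        z 3 = q * ((z 1 + 1) * z 4 + 1) + z 0 :=
      Delta0.bex (IsTerm.add (IsTerm.var 3) (IsTerm.const 1)) h1
    have h3 : Delta0 P fun z : Fin 6 → MM => z 0 < (z 1 + 1) * z 4 + 1 :=
      Delta0.lt (IsTerm.var 0) (IsTerm.add (IsTerm.mul
        (IsTerm.add (IsTerm.var 1) (IsTerm.const 1)) (IsTerm.var 4)) (IsTerm.const 1))
    have h4 : Delta0 P fun z : Fin 6 → MM => pp (pp (FM 0) (z 1)) (z 2) ∈ A1 :=
      Delta0.mem (isTerm_pp (isTerm_pp (IsTerm.const _) (IsTerm.var 1)) (IsTerm.var 2)) A1_sigma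
    have h5 : Delta0 P fun z : Fin 6 → MM => pp (pp (z 1) (z 2)) (z 0) ∈ A2 :=
      Delta0.mem (isTerm_pp (isTerm_pp (IsTerm.var 1) (IsTerm.var 2)) (IsTerm.var 0)) A2_sigma
    have h6 := (h3.and h2).not.or (h4.or h5.not)
    have h7 : Delta0 P fun z : Fin 5 → MM => ∀ y, y < (z 0 + 1) * z 3 + 1 →
        ((¬ (y < (z 0 + 1) * z 3 + 1 ∧ ∃ q, q < z 2 + 1 ∧
          z 2 = q * ((z 0 + 1) * z 3 + 1) + y)) ∨
        (pp (pp (FM 0) (z 0)) (z 1) ∈ A1 ∨ ¬ pp (pp (z 0) (z 1)) y ∈ A2)) :=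
      Delta0.ball (IsTerm.add (IsTerm.mul
        (IsTerm.add (IsTerm.var 0) (IsTerm.const 1)) (IsTerm.var 3)) (IsTerm.const 1)) h6
    exact Delta0.ball (IsTerm.var 3) h7
  refine ⟨Q, hQ, fun w => ?_⟩
  have hqb : ∀ (u v e y q : MM), u = q * ((e + 1) * v + 1) + y → q < u + 1 := by
    intro u v e y q h
    rw [MM_lt_succ]
    have h1 : q * 1 ≤ q * ((e + 1) * v + 1) := by
      refine mul_le_mul_of_nonneg_left ?_ (MM_nonneg q)
      exact le_add_of_nonneg_left (MM_nonneg _)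
    calc q = q * 1 := (mul_one q).symm
      _ ≤ q * ((e + 1) * v + 1) := h1
      _ ≤ q * ((e + 1) * v + 1) + y := le_add_of_nonneg_right (MM_nonneg y)
      _ = u := h.symm
  constructor
  · rintro ⟨σ, hσ, hlen, hcode⟩ U e he y hy
    have he' : e < w 2 := he
    have hy' : y < (e + 1) * w 1 + 1 := hy
    show (¬ (y < (e + 1) * w 1 + 1 ∧ ∃ q, q < w 0 + 1 ∧ w 0 = q * ((e + 1) * w 1 + 1) + y)) ∨
      (pp (pp (FM 0) e) U ∈ A1 ∨ ¬ pp (pp e U) y ∈ A2)
    by_cases hent : IsEntry (w 0) (w 1) e y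
    · right
      rw [mem_A1, mem_A2]
      by_cases hF : FsM e U
      · right
        have h1 := hσ e (by rw [hlen]; exact he') U hF
        have h2 := hcode e (by rw [hlen]; exact he')
        rw [isEntry_unique hent h2]
        exact h1
      · left
        exact hF
    · left
      rintro ⟨h1, q, _, h2⟩
      exact hent ⟨h1, q, h2⟩
  · intro h
    classical
    refine ⟨⟨w 2, fun i => if i < w 2 then rem (w 0) (w 1) i else 0,
      fun i hi => if_neg (not_lt.2 hi), w 0, w 1, fun i hi => ?_⟩, ?_, rfl, fun i hi => ?_⟩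
    · rw [if_pos hi]
      exact isEntry_rem _ _ _
    · intro e he U hU hW
      have he' : e < w 2 := he
      have hW' : WM e U (rem (w 0) (w 1) e) := by
        have : (if e < w 2 then rem (w 0) (w 1) e else 0) = rem (w 0) (w 1) e := if_pos he'
        rw [← this]
        exact hW
      have hent := isEntry_rem (w 0) (w 1) e
      have h1 := h U e he' (rem (w 0) (w 1) e) hent.1
      change (¬ (rem (w 0) (w 1) e < (e + 1) * w 1 + 1 ∧
        ∃ q, q < w 0 + 1 ∧ w 0 = q * ((e + 1) * w 1 + 1) + rem (w 0) (w 1) e)) ∨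
        (pp (pp (FM 0) e) U ∈ A1 ∨ ¬ pp (pp e U) (rem (w 0) (w 1) e) ∈ A2) at h1
      rw [mem_A1, mem_A2] at h1
      rcases h1 with h1 | h1 | h1
      · apply h1
        obtain ⟨h2, q, h3⟩ := hent
        exact ⟨h2, q, hqb _ _ _ _ _ h3, h3⟩
      · exact h1 hU
      · exact h1 hW'
    · have : (if i < w 2 then rem (w 0) (w 1) i else 0) = rem (w 0) (w 1) i := if_pos hi
      show IsEntry (w 0) (w 1) i (if i < w 2 then rem (w 0) (w 1) i else 0)
      rw [this]
      exact isEntry_rem _ _ _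

end Pool.Agent.helper82.DP
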