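import Pool.Agent.helper82.DP.Schemes

/-!
# Types over the iterates of `B`: back-and-forth
-/

set_option linter.unusedSectionVars false

namespace Pool.Agent.helper82.DP

open Filter Encodable Denumerable

/-- The `j`-th iterate of `B`, as an element of the cut. -/
noncomputable def FM (j : ℕ) : MM := mk (fun i => FF i j) (Bdd.FF j)

theorem rep_FM (j : ℕ) : AE fun i => rep (FM j) i = FF i j := rep_mk _ _

theorem exists_le_FM (x : MM) : ∃ k, x ≤ FM k := by
  obtain ⟨k, hk⟩ := rep_bdd x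
  refine ⟨k, ?_⟩
  rw [MM_le_iff]
  exact (hk.and (rep_FM k)).mono fun i hi => by rw [hi.2]; exact hi.1

/-- Add the iterates at the odd places. -/
noncomputable def mix (w : ℕ → MM) : ℕ → MM := fun k => if k % 2 = 0 then w (k / 2) else FM (k / 2)

theorem mix_even (w : ℕ → MM) (k : ℕ) : mix w (2 * k) = w k := by
  unfold mix
  rw [if_pos (by omega)]
  congr 1
  omega

theorem mix_odd (w : ℕ → MM) (k : ℕ) : mix w (2 * k + 1) = FM k := by
  unfold mix
  rw [if_neg (by omega)]
  congr 1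
  omega

/-- Coordinatewise version. -/
noncomputable def mixr (i : ℕ) (u : ℕ → ℕ) : ℕ → ℕ :=
  fun k => if k % 2 = 0 then u (k / 2) else rep (FM (k / 2)) i

theorem rep_mix (x : MM) (w : ℕ → MM) (i : ℕ) :
    (fun k => rep (mix (scons x w) k) i) = mixr i (scons (rep x i) fun k => rep (w k) i) := by
  funext k
  unfold mix mixr
  split_ifs with h
  · rw [← rep_scons]
  · rfl

/-- Two streams have the same type over the iterates of `B`. -/
def Eqv (w w' : ℕ → MM) : Prop := ∀ φ : Fm, φ.ev ∅ (mix w) ↔ φ.ev ∅ (mix w')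

theorem Eqv.symm {w w' : ℕ → MM} (h : Eqv w w') : Eqv w' w := fun φ => (h φ).symm

/-- Renaming. -/
theorem Eqv.ren {w w' : ℕ → MM} (h : Eqv w w') (σ : ℕ → ℕ) :
    Eqv (fun k => mix w (σ k)) fun k => mix w' (σ k) := by
  intro φ
  have e : ∀ w : ℕ → MM, mix (fun k => mix w (σ k)) =
      fun k => mix w (if k % 2 = 0 then σ (k / 2) else k) := by
    intro w
    funext k
    show (if k % 2 = 0 then mix w (σ (k / 2)) else FM (k / 2)) = _
    split_ifs with hk
    · rfl
    · show FM (k / 2) = if k % 2 = 0 then w (k / 2) else FM (k / 2)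
      rw [if_neg hk]
  rw [e, e]
  have e2 : ∀ w : ℕ → MM, φ.ev ∅ (fun k => mix w (if k % 2 = 0 then σ (k / 2) else k)) ↔
      (φ.ren fun k => if k % 2 = 0 then σ (k / 2) else k).ev ∅ (mix w) :=
    fun w => (Fm.ev_ren ∅ φ _ (mix w)).symm
  rw [e2, e2]
  exact h _

theorem Eqv.fm {w w' : ℕ → MM} (h : Eqv w w') (φ : Fm) : φ.ev ∅ w ↔ φ.ev ∅ w' := by
  have e : ∀ w : ℕ → MM, φ.ev ∅ w ↔ (φ.ren fun k => 2 * k).ev ∅ (mix w) := by
    intro w
    rw [Fm.ev_ren]
    simp only [mix_even]
  rw [e, e]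
  exact h _

/-- Conjunction of finitely many formulas. -/
def conj (g : ℕ → Fm) : ℕ → Fm
  | 0 => g 0
  | n + 1 => .and (conj g n) (g (n + 1))

theorem ev_conj {R : Type} [Semiring R] [LT R] (G : Set R) (g : ℕ → Fm) (n : ℕ) (v : ℕ → R) :
    (conj g n).ev G v ↔ ∀ s, s ≤ n → (g s).ev G v := by
  induction n with
  | zero =>
    constructor
    · intro h s hs
      have : s = 0 := by omega
      subst this
      exact h
    · intro h
      exact h 0 le_rfl
  | succ n ih =>
    simp only [conj, Fm.ev, ih]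
    constructor
    · rintro ⟨h1, h2⟩ s hs
      rcases Nat.lt_or_ge n s with h | h
      · have : s = n + 1 := by omega
        subst this
        exact h2
      · exact h1 s h
    · intro h
      exact ⟨fun s hs => h s (by omega), h (n + 1) le_rfl⟩

/-- Saturation for types. -/
theorem type_sat (w : ℕ → MM) (g : ℕ → Fm) (Ψ : ℕ → ℕ → Prop) (k₀ : ℕ)
    (hΨ : ∀ i y, Ψ i y → y ≤ FF i k₀)
    (h : ∀ n, ∃ x' : MM, (AE fun i => Ψ i (rep x' i)) ∧
      ∀ s, s ≤ n → (g s).ev ∅ (mix (scons x' w))) :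
    ∃ x' : MM, (AE fun i => Ψ i (rep x' i)) ∧ ∀ s, (g s).ev ∅ (mix (scons x' w)) := by
  obtain ⟨y, hy⟩ := saturation (X := ℕ)
    (fun s i y => Ψ i y ∧ (g s).ev (∅ : Set ℕ) (mixr i (scons y fun k => rep (w k) i)))
    (fun n => by
      obtain ⟨x', hx1, hx2⟩ := h n
      rw [← ev_conj, los_empty] at hx2
      refine (hx1.and hx2).mono fun i hi => ⟨rep x' i, fun s hs => ⟨hi.1, ?_⟩⟩
      have := hi.2
      rw [rep_mix, ev_conj] at this
      exact this s hs)
  have hyb : Bdd y := ⟨k₀, (hy 0).mono fun i hi => hΨ i _ hi.1⟩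
  refine ⟨mk y hyb, ?_, fun s => ?_⟩
  · exact ((hy 0).and (rep_mk y hyb)).mono fun i hi => by rw [hi.2]; exact hi.1.1
  · rw [los_empty]
    refine ((hy s).and (rep_mk y hyb)).mono fun i hi => ?_
    rw [rep_mix, hi.2]
    exact hi.1.2

/-- The renaming used to quantify the first variable. -/
def rhob (k : ℕ) : ℕ := if k = 0 then 0 else if k % 2 = 0 then k - 1 else k + 1

theorem scons_rhob (x : MM) (w : ℕ → MM) :
    (fun k => scons x (mix w) (rhob k)) = mix (scons x w) := by
  funext k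
  rcases Nat.even_or_odd' k with ⟨j, rfl | rfl⟩
  · rw [mix_even]
    cases j with
    | zero => rfl
    | succ j =>
      have : rhob (2 * (j + 1)) = 2 * j + 1 := by
        unfold rhob
        rw [if_neg (by omega), if_pos (by omega)]
        omega
      rw [this, scons_succ, mix_even, scons_succ]
  · rw [mix_odd]
    have : rhob (2 * j + 1) = (2 * j + 1) + 1 := by
      unfold rhob
      rw [if_neg (by omega), if_neg (by omega)]
    rw [this, scons_succ, mix_odd]

open Classical in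
/-- The `s`-th literal true at a given stream. -/
noncomputable def lit (w : ℕ → MM) (s : ℕ) : Fm :=
  if (fmEnum s).ev ∅ (mix w) then fmEnum s else .neg (fmEnum s)

theorem lit_true (w : ℕ → MM) (s : ℕ) : (lit w s).ev ∅ (mix w) := by
  unfold lit
  split_ifs with h
  · exact h
  · exact h

theorem Eqv_of_lit {w w' : ℕ → MM} (h : ∀ s, (lit w s).ev ∅ (mix w')) : Eqv w w' := by
  intro φ
  obtain ⟨s, rfl⟩ := fmEnum_surj φ
  have hs := h s
  unfold lit at hs
  split_ifs at hs with h1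
  · exact ⟨fun _ => hs, fun _ => h1⟩
  · exact ⟨fun h2 => absurd h2 h1, fun h2 => absurd h2 hs⟩

theorem back_forth {w w' : ℕ → MM} (h : Eqv w w') (x : MM) :
    ∃ x', Eqv (scons x w) (scons x' w') := by
  obtain ⟨k₀, hk₀⟩ := exists_le_FM x
  obtain ⟨x', _, hx'⟩ := type_sat w' (lit (scons x w)) (fun i y => y ≤ FF i k₀) k₀
    (fun i y h => h) (fun n => by
      -- the formula `∃ x < FM k₀ + 1, conj`
      have h1 : (Fm.bex (.add (.var (2 * k₀ + 1)) (.num 1))
          ((conj (lit (scons x w)) n).ren rhob)).ev ∅ (mix w) := by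
        refine ⟨x, ?_, ?_⟩
        · simp only [Tm.ev, mix_odd, Nat.cast_one]
          rw [MM_lt_succ]
          exact hk₀
        · rw [Fm.ev_ren, scons_rhob, ev_conj]
          exact fun s _ => lit_true _ s
      rw [h] at h1
      obtain ⟨x', hx1, hx2⟩ := h1
      simp only [Tm.ev, mix_odd, Nat.cast_one] at hx1
      rw [MM_lt_succ, MM_le_iff] at hx1
      rw [Fm.ev_ren, scons_rhob, ev_conj] at hx2
      exact ⟨x', (hx1.and (rep_FM k₀)).mono fun i hi => by rw [← hi.2]; exact hi.1, hx2⟩)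
  exact ⟨x', Eqv_of_lit hx'⟩

/-! ### Arithmetical relations respect types -/

theorem Arithmetical.eqv {n : ℕ} {R : (Fin n → MM) → Prop} (hR : Arithmetical R) :
    ∃ c : ℕ → MM, Fins c ∧ ∀ v v', Eqv (appv v c) (appv v' c) → (R v ↔ R v') := by
  induction hR with
  | @eq n _ _ hs ht =>
    obtain ⟨s, c, hc, hs⟩ := hs.toTm
    obtain ⟨t, d, hd, ht⟩ := ht.toTm
    refine ⟨inter c d, hc.inter hd, fun v v' h => ?_⟩
    have := h.fm (.eq (s.ren (r0 n)) (t.ren (r1 n)))
    simp only [Fm.ev, Tm.ev_ren, appv_r0, appv_r1] at this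
    simp only [hs, ht]
    exact this
  | @lt n _ _ hs ht =>
    obtain ⟨s, c, hc, hs⟩ := hs.toTm
    obtain ⟨t, d, hd, ht⟩ := ht.toTm
    refine ⟨inter c d, hc.inter hd, fun v v' h => ?_⟩
    have := h.fm (.lt (s.ren (r0 n)) (t.ren (r1 n)))
    simp only [Fm.ev, Tm.ev_ren, appv_r0, appv_r1] at this
    simp only [hs, ht]
    exact this
  | not _ ih =>
    obtain ⟨c, hc, h⟩ := ih
    exact ⟨c, hc, fun v v' h' => not_congr (h v v' h')⟩
  | @and n _ _ _ _ ih1 ih2 =>
    obtain ⟨c, hc, h1⟩ := ih1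
    obtain ⟨d, hd, h2⟩ := ih2
    refine ⟨inter c d, hc.inter hd, fun v v' h => ?_⟩
    have e0 := h.ren fun k => 2 * r0 n k
    simp only [mix_even, appv_r0] at e0
    have e1 := h.ren fun k => 2 * r1 n k
    simp only [mix_even, appv_r1] at e1
    exact and_congr (h1 v v' e0) (h2 v v' e1)
  | ex _ ih =>
    obtain ⟨c, hc, h⟩ := ih
    refine ⟨c, hc, fun v v' h' => ?_⟩
    constructor
    · rintro ⟨x, hx⟩
      obtain ⟨x', hx'⟩ := back_forth h' x
      rw [← appv_cons, ← appv_cons] at hx'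
      exact ⟨x', (h _ _ hx').1 hx⟩
    · rintro ⟨x, hx⟩
      obtain ⟨x', hx'⟩ := back_forth h'.symm x
      rw [← appv_cons, ← appv_cons] at hx'
      exact ⟨x', (h _ _ hx').1 hx⟩

/-- An element which is arithmetically definable from parameters and an iterate of `B` is the
only small solution of a bounded formula. -/
theorem unique_formula {D : (Fin 2 → MM) → Prop} (c : ℕ → MM)
    (hD : ∀ v v', Eqv (appv v c) (appv v' c) → (D v ↔ D v')) (k₀ k₁ : ℕ) (x : MM)
    (hx : D ![x, FM k₀]) (hu : ∀ y, D ![y, FM k₀] → y = x) :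
    ∃ φ : Fm, φ.ev ∅ (mix (scons x c)) ∧
      ∀ y, y ≤ FM k₁ → φ.ev ∅ (mix (scons y c)) → y = x := by
  by_contra hcon
  push Not at hcon
  obtain ⟨y, hy1, hy2⟩ := type_sat c (lit (scons x c)) (fun i y => y ≤ FF i k₁ ∧ y ≠ rep x i) k₁
    (fun i y h => h.1) (fun n => by
      obtain ⟨y, h1, h2, h3⟩ := hcon (conj (lit (scons x c)) n)
        ((ev_conj _ _ _ _).2 fun s _ => lit_true _ s)
      rw [ev_conj] at h2
      rw [MM_le_iff] at h1
      rw [Ne, MM_eq_iff, ← AE_not] at h3
      exact ⟨y, ((h1.and (rep_FM k₁)).and h3).mono fun i hi =>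
        ⟨by rw [← hi.1.2]; exact hi.1.1, hi.2⟩, h2⟩)
  have he : Eqv (scons x c) (scons y c) := Eqv_of_lit hy2
  have he' := he.ren fun k => if k = 0 then 0 else if k = 1 then 2 * k₀ + 1 else 2 * (k - 1)
  have e : ∀ z : MM, (fun k => mix (scons z c)
      (if k = 0 then 0 else if k = 1 then 2 * k₀ + 1 else 2 * (k - 1))) =
      appv ![z, FM k₀] c := by
    intro z
    rw [appv_pair]
    funext k
    rcases k with _ | _ | k
    · exact mix_even _ 0
    · exact mix_odd _ k₀
    · simp only [scons_succ]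
      rw [if_neg (by omega), if_neg (by omega), show 2 * (k + 1 + 1 - 1) = 2 * (k + 1) by omega,
        mix_even, scons_succ]
  rw [e, e] at he'
  have hy : D ![y, FM k₀] := (hD _ _ he').1 hx
  have := hu y hy
  rw [MM_eq_iff] at this
  obtain ⟨i, hi⟩ := (this.and hy1).exists
  exact hi.2.2 hi.1

end Pool.Agent.helper82.DP
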